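import Mathlib

set_option autoImplicit false

/-!
# Local invariants and the Brauer–Manin set of an affine variety over `ℚ`

For a prime `p`, `Wur p = W(𝔽̄_p)` and `Fur p` is its fraction field, the completed maximal
unramified extension of `ℚ_p`, with Frobenius `frob p`. A central simple algebra `B` over `ℚ_p` of
dimension `d²` becomes a matrix algebra over `Fur p`. After the choice of such a splitting
`ρ : B → M_d(Fur p)`, the conjugate splitting `φ ∘ ρ` is conjugate to `ρ` by some
`T ∈ GL_d(Fur p)`, unique up to scalars, and the invariant of `B` is the slope `v_p(det T) / d`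
modulo `ℤ`.  At the real place the same is done with complex conjugation.
-/

namespace Pool.Agent.TH952

open scoped TensorProduct

section defs

variable (p : ℕ) [Fact p.Prime]

/-- The Witt vectors of an algebraic closure of `𝔽_p`: the ring of integers of the completed
maximal unramified extension of `ℚ_p`. -/
abbrev Wur : Type := WittVector p (AlgebraicClosure (ZMod p))

/-- The completed maximal unramified extension of `ℚ_p`. -/
abbrev Fur : Type := FractionRing (Wur p)

/-- Its Frobenius automorphism. -/
noncomputable def frob : Fur p ≃+* Fur p :=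
  WittVector.FractionRing.frobenius p (AlgebraicClosure (ZMod p))

/-- `ℤ_p → W(𝔽̄_p)` -/
noncomputable def iotaInt : ℤ_[p] →+* Wur p :=
  (WittVector.map (algebraMap (ZMod p) (AlgebraicClosure (ZMod p)))).comp (WittVector.fromPadicInt p)

lemma iotaInt_injective : Function.Injective (iotaInt p) := by
  exact (WittVector.map_injective (p := p) (algebraMap (ZMod p) (AlgebraicClosure (ZMod p)))
    (algebraMap (ZMod p) (AlgebraicClosure (ZMod p))).injective).comp
      (WittVector.equiv p).symm.injective

/-- The inclusion of `ℚ_p` in the completed maximal unramified extension. -/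
noncomputable def iota : ℚ_[p] →+* Fur p :=
  IsFractionRing.lift (A := ℤ_[p]) (K := ℚ_[p]) (g := (algebraMap (Wur p) (Fur p)).comp (iotaInt p))
    ((IsFractionRing.injective (Wur p) (Fur p)).comp (iotaInt_injective p))

/-- `HasInv p B q`: the class of `q` in `ℚ/ℤ` is the local invariant of the central simple
`ℚ_p`-algebra `B` of dimension `d²`, computed as the slope of the Frobenius descent datum `T` of a
splitting `ρ` of `B` over the completed maximal unramified extension. -/
def HasInv (B : Type) [Ring B] [Algebra ℚ_[p] B] (q : ℚ) : Prop :=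
  ∃ (d : ℕ) (ρ : B →+* Matrix (Fin d) (Fin d) (Fur p)) (T : Matrix (Fin d) (Fin d) (Fur p))
    (m : ℤ) (e : (Wur p)ˣ),
    Module.finrank ℚ_[p] B = d ^ 2 ∧
    (∀ a : ℚ_[p], ρ (algebraMap ℚ_[p] B a) = Matrix.scalar (Fin d) (iota p a)) ∧
    (∀ b : B, (ρ b).map (frob p) * T = T * ρ b) ∧
    T.det = (p : Fur p) ^ m * algebraMap (Wur p) (Fur p) (e : Wur p) ∧
    q = (m : ℚ) / (d : ℚ)

end defs

/-- `HasInvReal B q`: the class of `q` in `ℚ/ℤ` is the invariant of the central simple
`ℝ`-algebra `B` of dimension `d²` (`0` if `B` is a matrix algebra over `ℝ`, `1/2` if it is a matrix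
algebra over the quaternions), read off from the complex conjugation descent datum `T` of a splitting
`ρ` of `B` over `ℂ`. -/
def HasInvReal (B : Type) [Ring B] [Algebra ℝ B] (q : ℚ) : Prop :=
  ∃ (d : ℕ) (ρ : B →+* Matrix (Fin d) (Fin d) ℂ) (T : Matrix (Fin d) (Fin d) ℂ) (c : ℝ),
    Module.finrank ℝ B = d ^ 2 ∧
    (∀ a : ℝ, ρ (algebraMap ℝ B a) = Matrix.scalar (Fin d) (a : ℂ)) ∧
    (∀ b : B, (ρ b).map (starRingEnd ℂ) * T = T * ρ b) ∧
    T.map (starRingEnd ℂ) * T = Matrix.scalar (Fin d) (c : ℂ) ∧
    ((0 < c ∧ q = 0) ∨ (c < 0 ∧ q = 1 / 2))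

section special

variable {R K : Type} [CommRing R] [Field K] (P : R →+* K) (A : Type) [Ring A] [Algebra R A]

/-- The specialisation `K ⊗[R] A` of the `R`-algebra `A` at the point `P : R → K`. -/
def Special : Type :=
  letI := P.toAlgebra
  K ⊗[R] A

noncomputable instance : Ring (Special P A) :=
  letI := P.toAlgebra
  (inferInstance : Ring (K ⊗[R] A))

noncomputable instance : Algebra K (Special P A) :=
  letI := P.toAlgebra
  (inferInstance : Algebra K (K ⊗[R] A))

end special

/-- A point of the affine variety `Spec R` over the adeles of `ℚ`: a point over `ℝ` and a point over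
`ℚ_p` for every prime `p`, such that every function on `Spec R` is `p`-integral at almost all of
them. -/
structure AdelicPoint (R : Type) [CommRing R] [Algebra ℚ R] where
  /-- the real component -/
  real : R →ₐ[ℚ] ℝ
  /-- the `p`-adic component -/
  fin : ∀ (p : ℕ) [Fact p.Prime], R →ₐ[ℚ] ℚ_[p]
  /-- almost all components are integral -/
  integral : ∀ f : R, ∃ N : ℕ, ∀ (p : ℕ) [Fact p.Prime], N < p → ‖fin p f‖ ≤ 1

/-- The adelic point `P` is orthogonal to the Azumaya algebra `A` over `R`: the invariants of its
specialisations at the components of `P` are integral for almost all primes and add up to an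
integer. -/
def AdelicPoint.Orthogonal {R : Type} [CommRing R] [Algebra ℚ R] (P : AdelicPoint R)
    (A : Type) [Ring A] [Algebra R A] : Prop :=
  ∀ (q₀ : ℚ) (q : ℕ → ℚ), HasInvReal (Special (P.real : R →+* ℝ) A) q₀ →
    (∀ (p : ℕ) [Fact p.Prime], HasInv p (Special (P.fin p : R →+* ℚ_[p]) A) (q p)) →
    ∃ N : ℕ, (∀ p : ℕ, p.Prime → N < p → ∃ m : ℤ, q p = m) ∧
      ∃ m : ℤ, q₀ + ∑ p ∈ (Finset.range (N + 1)).filter Nat.Prime, q p = m

/-- The Brauer–Manin set of `Spec R`: the adelic points orthogonal to all Azumaya algebras. -/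
def BrauerManinSet (R : Type) [CommRing R] [Algebra ℚ R] : Set (AdelicPoint R) :=
  {P | ∀ (A : Type) [Ring A] [Algebra R A] [IsAzumaya R A], P.Orthogonal A}

end Pool.Agent.TH952
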