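import Mathlib

set_option autoImplicit false

namespace Pool.Agent.TH952

open scoped TensorProduct
open MulOpposite

/-- Abstract cyclic algebra data. -/
structure CycData (R C A : Type) [CommRing R] [CommRing C] [Algebra R C] [Ring A] [Algebra R A]
    (n : ℕ) where
  D : C →ₐ[R] A
  u : A
  g : Rˣ
  τ : C →ₐ[R] C
  npos : 0 < n
  comm : ∀ c, u * D c = D (τ c) * u
  upow : u ^ n = algebraMap R A (g : R)
  tpow : ∀ c, τ^[n] c = c
  bij : Function.Bijective (fun b : Fin n → C => ∑ j, D (b j) * u ^ (j : ℕ))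

namespace CycData

variable {R C A : Type} [CommRing R] [CommRing C] [Algebra R C] [Ring A] [Algebra R A]
    {n : ℕ} (d : CycData R C A n)

lemma iter_add (a b : C) (k : ℕ) : d.τ^[k] (a + b) = d.τ^[k] a + d.τ^[k] b := by
  induction k with
  | zero => rfl
  | succ k ih => simp only [Function.iterate_succ', Function.comp, ih, map_add]

lemma iter_mul (a b : C) (k : ℕ) : d.τ^[k] (a * b) = d.τ^[k] a * d.τ^[k] b := by
  induction k with
  | zero => rfl
  | succ k ih => simp only [Function.iterate_succ', Function.comp, ih, map_mul]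

lemma iter_smul (r : R) (b : C) (k : ℕ) : d.τ^[k] (r • b) = r • d.τ^[k] b := by
  induction k with
  | zero => rfl
  | succ k ih => simp only [Function.iterate_succ', Function.comp, ih, map_smul]

lemma iter_sum {ι : Type} (s : Finset ι) (f : ι → C) (k : ℕ) :
    d.τ^[k] (∑ i ∈ s, f i) = ∑ i ∈ s, d.τ^[k] (f i) := by
  induction k with
  | zero => rfl
  | succ k ih => simp only [Function.iterate_succ', Function.comp, ih, map_sum]

lemma pow_comm (k : ℕ) (c : C) : d.u ^ k * d.D c = d.D (d.τ^[k] c) * d.u ^ k := by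
  induction k generalizing c with
  | zero => simp
  | succ k ih =>
    rw [pow_succ, mul_assoc, d.comm, ← mul_assoc, ih, mul_assoc]
    rfl

lemma upow_mul (q : ℕ) : d.u ^ (n * q) = algebraMap R A ((d.g : R) ^ q) := by
  rw [pow_mul, d.upow, map_pow]

/-- the coordinates -/
noncomputable def row : A ≃ₗ[R] (Fin n → C) :=
  LinearEquiv.symm
    (LinearEquiv.ofBijective
      ({ toFun := fun b => ∑ j, d.D (b j) * d.u ^ (j : ℕ)
         map_add' := by
            intro a b
            simp [map_add, add_mul, Finset.sum_add_distrib]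
         map_smul' := by
            intro r b
            simp [Finset.smul_sum, map_smul] } : (Fin n → C) →ₗ[R] A) d.bij)

lemma row_symm_apply (b : Fin n → C) : d.row.symm b = ∑ j, d.D (b j) * d.u ^ (j : ℕ) := rfl

lemma sum_row (a : A) : ∑ j, d.D (d.row a j) * d.u ^ (j : ℕ) = a := by
  rw [← d.row_symm_apply, LinearEquiv.symm_apply_apply]

lemma row_single (i : Fin n) (c : C) : d.row (d.D c * d.u ^ (i : ℕ)) = Pi.single i c := by
  apply d.row.symm.injective
  rw [LinearEquiv.symm_apply_apply, row_symm_apply]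
  rw [Finset.sum_eq_single i]
  · simp
  · intro j _ hj
    simp [Pi.single_eq_of_ne hj]
  · simp

/-- The separability data. -/
structure Sep (d : CycData R C A n) (K : Type) [Fintype K] where
  x : K → C
  y : K → C
  one : ∑ k, x k * y k = 1
  zero : ∀ i, 0 < i → i < n → ∑ k, x k * d.τ^[i] (y k) = 0
  tr : ∀ c, ∃ r : R, ∑ i ∈ Finset.range n, d.τ^[i] c = algebraMap R C r

variable {K : Type} [Fintype K] (s : Sep d K)

lemma iter_tau_add_n (i : ℕ) (c : C) : d.τ^[i + n] c = d.τ^[i] c := by
  rw [Function.iterate_add_apply, d.tpow]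

lemma sep_delta (i j : Fin n) :
    ∑ k, s.x k * d.τ^[(i : ℕ) + (n - j)] (s.y k) = if i = j then 1 else 0 := by
  split_ifs with h
  · subst h
    have : (i : ℕ) + (n - i) = 0 + n := by have := i.2; omega
    simp only [this, iter_tau_add_n d]
    simpa using s.one
  · rcases lt_or_gt_of_ne (fun hh => h (Fin.ext hh) : (i : ℕ) ≠ j) with hlt | hgt
    · apply s.zero
      · have := i.2; have := j.2; omega
      · have := i.2; have := j.2; omega
    · have e : (i : ℕ) + (n - j) = ((i : ℕ) - j) + n := by have := i.2; have := j.2; omega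
      simp only [e, iter_tau_add_n d]
      apply s.zero
      · omega
      · have := i.2; omega

/-- the projections -/
lemma proj_eq (a : A) (j : Fin n) :
    ∑ k, d.D (s.x k) * a * d.D (d.τ^[n - j] (s.y k)) = d.D (d.row a j) * d.u ^ (j : ℕ) := by
  conv_lhs => rw [← d.sum_row a]
  have h1 : ∀ k, d.D (s.x k) * (∑ i : Fin n, d.D (d.row a i) * d.u ^ (i : ℕ)) *
      d.D (d.τ^[n - j] (s.y k)) =
      ∑ i : Fin n, d.D (s.x k * d.τ^[(i : ℕ) + (n - j)] (s.y k)) * (d.D (d.row a i) * d.u ^ (i : ℕ)) := by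
    intro k
    rw [Finset.mul_sum, Finset.sum_mul]
    refine Finset.sum_congr rfl fun i _ => ?_
    rw [mul_assoc (d.D (s.x k)), mul_assoc (d.D (d.row a i)), d.pow_comm,
      ← Function.iterate_add_apply, ← mul_assoc, ← mul_assoc, ← mul_assoc, ← map_mul, ← map_mul,
      ← map_mul]
    congr 2
    ring
  simp only [h1]
  rw [Finset.sum_comm]
  simp only [← Finset.sum_mul, ← map_sum, sep_delta d s]
  rw [Finset.sum_eq_single j]
  · simp
  · intro i _ hi
    simp [hi]
  · simp

include s in
/-- elementary operators are in the range -/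
lemma elem_mem (c : C) (m : ℕ) (i j : Fin n) :
    ∃ f ∈ (AlgHom.mulLeftRight R A).range, ∀ a : A,
      f a = d.D (c * d.τ^[m] (d.row a j)) * d.u ^ (i : ℕ) := by
  have hL : ∀ a b : A, ∃ f ∈ (AlgHom.mulLeftRight R A).range, ∀ z : A, f z = a * z * b := by
    intro a b
    exact ⟨AlgHom.mulLeftRight R A (a ⊗ₜ op b), ⟨_, rfl⟩, fun z => by simp⟩
  -- choose t, q
  obtain ⟨t, q, htq⟩ : ∃ t q : ℕ, m + j + t = i + n * q := by
    refine ⟨i + n * (m + j) - (m + j), m + j, ?_⟩
    have : m + j ≤ n * (m + j) := Nat.le_mul_of_pos_left _ d.npos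
    omega
  choose F hF hF' using fun k => hL (d.D (c * algebraMap R C ((d.g⁻¹ : Rˣ) : R) ^ q) * d.u ^ m * d.D (s.x k))
    (d.D (d.τ^[n - j] (s.y k)) * d.u ^ t)
  refine ⟨∑ k, F k, Subalgebra.sum_mem _ fun k _ => hF k, fun a => ?_⟩
  rw [LinearMap.sum_apply]
  simp only [hF']
  have h2 : ∀ k, d.D (c * algebraMap R C ((d.g⁻¹ : Rˣ) : R) ^ q) * d.u ^ m * d.D (s.x k) * a *
      (d.D (d.τ^[n - j] (s.y k)) * d.u ^ t) =
      d.D (c * algebraMap R C ((d.g⁻¹ : Rˣ) : R) ^ q) * d.u ^ m * (d.D (s.x k) * a *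
      d.D (d.τ^[n - j] (s.y k))) * d.u ^ t := by
    intro k
    simp only [mul_assoc]
  simp only [h2]
  rw [← Finset.sum_mul, ← Finset.mul_sum, proj_eq d s]
  have h3 : d.D (c * algebraMap R C ((d.g⁻¹ : Rˣ) : R) ^ q) * d.u ^ m *
      (d.D (d.row a j) * d.u ^ (j : ℕ)) * d.u ^ t =
      d.D (c * algebraMap R C ((d.g⁻¹ : Rˣ) : R) ^ q) * d.D (d.τ^[m] (d.row a j)) * d.u ^ (m + j + t) := by
    rw [pow_add, pow_add]
    have := d.pow_comm m (d.row a j)
    simp only [mul_assoc] at *
    rw [← mul_assoc (d.u ^ m), this]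
    simp only [mul_assoc]
  rw [h3, htq, pow_add, d.upow_mul, ← Algebra.commutes, ← mul_assoc, ← map_mul]
  congr 1
  have h4 : algebraMap R A ((d.g : R) ^ q) = d.D (algebraMap R C ((d.g : R) ^ q)) := by simp
  rw [h4, ← map_mul]
  congr 1
  have h5 : algebraMap R C ((d.g⁻¹ : Rˣ) : R) ^ q * algebraMap R C ((d.g : R) ^ q) = 1 := by
    rw [← map_pow, ← map_mul, ← mul_pow]
    simp
  calc c * algebraMap R C ((d.g⁻¹ : Rˣ) : R) ^ q * d.τ^[m] (d.row a j) * algebraMap R C ((d.g : R) ^ q)
      = c * d.τ^[m] (d.row a j) * (algebraMap R C ((d.g⁻¹ : Rˣ) : R) ^ q * algebraMap R C ((d.g : R) ^ q)) := by ring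
    _ = _ := by rw [h5, mul_one]

include s in
lemma dual_basis (z : C) :
    z = ∑ k, s.x k * ∑ i ∈ Finset.range n, d.τ^[i] (s.y k * z) := by
  simp only [Finset.mul_sum]
  rw [Finset.sum_comm]
  rw [Finset.sum_eq_single_of_mem 0 (Finset.mem_range.2 d.npos)]
  · simp only [Function.iterate_zero, id_eq]
    simp only [← mul_assoc]
    rw [← Finset.sum_mul, s.one, one_mul]
  · intro i hi h0
    simp only [iter_mul, ← mul_assoc]
    rw [← Finset.sum_mul, s.zero i (Nat.pos_of_ne_zero h0) (Finset.mem_range.1 hi), zero_mul]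

include s in
theorem surj : Function.Surjective (AlgHom.mulLeftRight R A) := by
  intro f
  change f ∈ Set.range (AlgHom.mulLeftRight R A)
  suffices h : f ∈ (AlgHom.mulLeftRight R A).range by simpa using h
  choose E hE hE' using fun (c : C) (m : ℕ) (i j : Fin n) => elem_mem d s c m i j
  let h : Fin n → Fin n → C →ₗ[R] C := fun i j =>
    (LinearMap.proj i) ∘ₗ d.row.toLinearMap ∘ₗ f ∘ₗ d.row.symm.toLinearMap ∘ₗ
      (LinearMap.single R (fun _ => C) j)
  have key : f = ∑ i, ∑ j, ∑ k, ∑ m ∈ Finset.range n, E (h i j (s.x k) * d.τ^[m] (s.y k)) m i j := by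
    refine LinearMap.ext fun a => ?_
    simp only [LinearMap.sum_apply, hE']
    have h1 : ∀ i j : Fin n, ∑ k, ∑ m ∈ Finset.range n,
        d.D (h i j (s.x k) * d.τ^[m] (s.y k) * d.τ^[m] (d.row a j)) * d.u ^ (i : ℕ)
        = d.D (h i j (d.row a j)) * d.u ^ (i : ℕ) := by
      intro i j
      simp only [← Finset.sum_mul, ← map_sum]
      congr 2
      conv_rhs => rw [dual_basis d s (d.row a j)]
      rw [map_sum]
      refine Finset.sum_congr rfl fun k _ => ?_
      obtain ⟨r, hr⟩ := s.tr (s.y k * d.row a j)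
      rw [hr]
      have e1 : s.x k * algebraMap R C r = r • s.x k := by rw [Algebra.smul_def, mul_comm]
      rw [e1, map_smul, Algebra.smul_def, ← hr, Finset.sum_mul]
      refine Finset.sum_congr rfl fun m _ => ?_
      rw [iter_mul]
      ring
    simp only [h1]
    simp only [← Finset.sum_mul, ← map_sum]
    conv_lhs => rw [← d.sum_row (f a)]
    refine Finset.sum_congr rfl fun i _ => ?_
    congr 2
    have h2 : a = ∑ j, d.row.symm (Pi.single j (d.row a j)) := by
      rw [← map_sum]
      apply d.row.injective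
      rw [LinearEquiv.apply_symm_apply]
      ext j
      simp
    conv_lhs => rw [h2]
    simp only [map_sum, Finset.sum_apply]
    rfl
  rw [key]
  exact Subalgebra.sum_mem _ fun i _ => Subalgebra.sum_mem _ fun j _ => Subalgebra.sum_mem _ fun k _ =>
    Subalgebra.sum_mem _ fun m _ => hE _ _ _ _

include s in
theorem isAzumaya [Nontrivial R] [Module.Free R C] [Module.Finite R C] [Nontrivial C] : IsAzumaya R A := by
  have : Module.Free R A := Module.Free.of_equiv d.row.symm
  have : Module.Finite R A := Module.Finite.equiv d.row.symm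
  have : Nonempty (Fin n) := ⟨⟨0, d.npos⟩⟩
  have : Nontrivial A := d.row.symm.injective.nontrivial
  have : FaithfulSMul R A := by
    have := Module.Free.instFaithfulSMulOfNontrivial R A
    infer_instance
  have : Module.Free R Aᵐᵒᵖ := Module.Free.of_equiv (MulOpposite.opLinearEquiv R)
  have : Module.Finite R Aᵐᵒᵖ := Module.Finite.equiv (MulOpposite.opLinearEquiv R)
  refine { bij := ⟨?_, surj d s⟩ }
  have e : (A ⊗[R] Aᵐᵒᵖ) ≃ₗ[R] Module.End R A := by
    apply LinearEquiv.ofFinrankEq
    rw [Module.finrank_tensorProduct]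
    change _ = Module.finrank R (A →ₗ[R] A)
    rw [Module.finrank_linearMap,
      (MulOpposite.opLinearEquiv R : A ≃ₗ[R] Aᵐᵒᵖ).finrank_eq]
  have := OrzechProperty.injective_of_surjective_endomorphism
    (e.symm.toLinearMap ∘ₗ (AlgHom.mulLeftRight R A).toLinearMap)
    (e.symm.surjective.comp (surj d s))
  intro a b hab
  apply this
  simp only [LinearMap.comp_apply, AlgHom.toLinearMap_apply, hab]

end CycData

end Pool.Agent.TH952
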