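import Mathlib
import Pool.Agent.TH952.CycAz

set_option autoImplicit false

namespace Pool.Agent.TH952

section CycMat

variable {R C : Type} [CommRing R] [CommRing C] [Algebra R C] (n : ℕ)

/-- The weighted cyclic shift. -/
def Umat (g : C) : Matrix (Fin n) (Fin n) C :=
  Matrix.of fun i j => if (i : ℕ) + 1 = j then 1 else if (i : ℕ) + 1 = n + j then g else 0

lemma Umat_apply (g : C) (i j : Fin n) :
    Umat n g i j = if (i : ℕ) + 1 = j then 1 else if (i : ℕ) + 1 = n + j then g else 0 := rfl

lemma Umat_pow (g : C) (k : ℕ) (hk : k ≤ n) (i j : Fin n) :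
    (Umat n g ^ k) i j = if (i : ℕ) + k = j then 1 else if (i : ℕ) + k = n + j then g else 0 := by
  induction k generalizing i j with
  | zero =>
    simp only [pow_zero, add_zero, Matrix.one_apply]
    by_cases h : i = j
    · simp [h]
    · have h1 : ¬ ((i : ℕ) = j) := fun hh => h (Fin.ext hh)
      have h2 : ¬ ((i : ℕ) = n + j) := by have := i.2; omega
      simp [h, h1, h2]
  | succ k ih =>
    rw [pow_succ, Matrix.mul_apply]
    by_cases hj : (j : ℕ) = 0
    · rw [Finset.sum_eq_single (⟨n - 1, by have := j.2; omega⟩ : Fin n)]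
      · rw [ih (by omega), Umat_apply]
        have hn := j.2
        have hi := i.2
        simp only [hj]
        split_ifs <;> first | (exfalso; omega) | simp
      · intro m _ hm
        have hm' : (m : ℕ) ≠ n - 1 := fun hh => hm (Fin.ext hh)
        have := m.2
        rw [Umat_apply, if_neg (by omega), if_neg (by omega), mul_zero]
      · simp
    · rw [Finset.sum_eq_single (⟨j - 1, by have := j.2; omega⟩ : Fin n)]
      · rw [ih (by omega), Umat_apply]
        have hn := j.2
        have hi := i.2
        simp only []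
        rw [if_pos (show (j : ℕ) - 1 + 1 = j by omega), mul_one]
        by_cases h1 : (i : ℕ) + k = j - 1
        · rw [if_pos h1, if_pos (by omega)]
        · rw [if_neg h1, if_neg (show ¬ ((i : ℕ) + (k + 1) = j) by omega)]
          by_cases h2 : (i : ℕ) + k = n + (j - 1)
          · rw [if_pos h2, if_pos (by omega)]
          · rw [if_neg h2, if_neg (by omega)]
      · intro m _ hm
        have hm' : (m : ℕ) ≠ j - 1 := fun hh => hm (Fin.ext hh)
        have := m.2
        rw [Umat_apply, if_neg (by omega), if_neg (by omega), mul_zero]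
      · simp

lemma Umat_pow_n (g : C) : Umat n g ^ n = Matrix.scalar (Fin n) g := by
  ext i j
  rw [Umat_pow n g n le_rfl]
  have := i.2; have := j.2
  rw [if_neg (by omega)]
  by_cases h : i = j
  · subst h; simp [add_comm]
  · have h1 : ¬ ((i : ℕ) = j) := fun hh => h (Fin.ext hh)
    rw [if_neg (by omega)]
    simp [h]

variable (τ : C →ₐ[R] C) (g : Rˣ)

/-- The cyclic algebra attached to `τ` and `g`, inside the matrices over `C`. -/
def cycAlg : Subalgebra R (Matrix (Fin n) (Fin n) C) where
  carrier := {M | τ.mapMatrix M * Umat n (algebraMap R C g) = Umat n (algebraMap R C g) * M}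
  mul_mem' := by
    intro a b ha hb
    simp only [Set.mem_ofPred_eq] at *
    rw [map_mul, mul_assoc, hb, ← mul_assoc, ha, mul_assoc]
  add_mem' := by
    intro a b ha hb
    simp only [Set.mem_ofPred_eq] at *
    rw [map_add, add_mul, ha, hb, mul_add]
  algebraMap_mem' := by
    intro r
    simp only [Set.mem_ofPred_eq]
    rw [AlgHom.commutes, Algebra.commutes]

lemma mem_cycAlg {M : Matrix (Fin n) (Fin n) C} : M ∈ cycAlg n τ g ↔
    τ.mapMatrix M * Umat n (algebraMap R C g) = Umat n (algebraMap R C g) * M := Iff.rfl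

lemma mapMatrix_Umat : τ.mapMatrix (Umat n (algebraMap R C g)) = Umat n (algebraMap R C g) := by
  ext i j
  simp only [AlgHom.mapMatrix_apply, Matrix.map_apply, Umat_apply]
  split_ifs <;> simp

/-- the diagonal embedding -/
def diagHom (hτ : ∀ c, τ^[n] c = c) : C →ₐ[R] cycAlg n τ g where
  toFun c := ⟨Matrix.diagonal fun i => τ^[(i : ℕ)] c, by
    rw [mem_cycAlg]
    ext i j
    rw [AlgHom.mapMatrix_apply, Matrix.diagonal_map (map_zero _), Matrix.diagonal_mul,
      Matrix.mul_diagonal, Umat_apply]
    by_cases h1 : (i : ℕ) + 1 = j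
    · rw [if_pos h1, ← h1, Function.iterate_succ_apply']
      ring
    · rw [if_neg h1]
      by_cases h2 : (i : ℕ) + 1 = n + j
      · have hj : (j : ℕ) = 0 := by have := i.2; omega
        have hi : (i : ℕ) + 1 = n := by omega
        rw [if_pos h2, hj]
        have : τ (τ^[(i : ℕ)] c) = c := by
          rw [← Function.iterate_succ_apply' τ, Nat.succ_eq_add_one, hi, hτ]
        simp only [Function.iterate_zero, id_eq]
        rw [this]
        ring
      · rw [if_neg h2]; simp⟩
  map_one' := by
    apply Subtype.ext
    have : ∀ k : ℕ, τ^[k] (1 : C) = 1 := fun k => Function.iterate_fixed (map_one τ) k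
    simp [this]
  map_zero' := by
    apply Subtype.ext
    have : ∀ k : ℕ, τ^[k] (0 : C) = 0 := fun k => Function.iterate_fixed (map_zero τ) k
    simp [this]
  map_mul' a b := by
    apply Subtype.ext
    have : ∀ k : ℕ, τ^[k] (a * b) = τ^[k] a * τ^[k] b := by
      intro k
      induction k with
      | zero => rfl
      | succ k ih => simp only [Function.iterate_succ', Function.comp, ih, map_mul]
    simp [this, Matrix.diagonal_mul_diagonal]
  map_add' a b := by
    apply Subtype.ext
    have : ∀ k : ℕ, τ^[k] (a + b) = τ^[k] a + τ^[k] b := by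
      intro k
      induction k with
      | zero => rfl
      | succ k ih => simp only [Function.iterate_succ', Function.comp, ih, map_add]
    simp [this, Matrix.diagonal_add]
  commutes' r := by
    apply Subtype.ext
    have : ∀ k : ℕ, τ^[k] (algebraMap R C r) = algebraMap R C r :=
      fun k => Function.iterate_fixed (AlgHom.commutes τ r) k
    simp only [this]
    rfl

/-- the element `u` -/
def uElt : cycAlg n τ g := ⟨Umat n (algebraMap R C g), by rw [mem_cycAlg, mapMatrix_Umat]⟩

lemma zero_of_row (hn : 0 < n) (M : Matrix (Fin n) (Fin n) C) (hM : M ∈ cycAlg n τ g)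
    (h0 : ∀ k, M ⟨0, hn⟩ k = 0) : M = 0 := by
  have key : ∀ (i : ℕ) (hi : i < n) (k : Fin n), M ⟨i, hi⟩ k = 0 := by
    intro i
    induction i with
    | zero => intro hi k; exact h0 k
    | succ i ih =>
      intro hi k
      rw [mem_cycAlg] at hM
      have h1 := congrFun (congrFun hM ⟨i, by omega⟩) k
      rw [Matrix.mul_apply, Matrix.mul_apply] at h1
      rw [Finset.sum_eq_zero (fun j _ => by simp [ih (by omega) j]),
        Finset.sum_eq_single (⟨i + 1, hi⟩ : Fin n)] at h1
      · rw [Umat_apply, if_pos rfl, one_mul] at h1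
        exact h1.symm
      · intro j _ hj
        have : (j : ℕ) ≠ i + 1 := fun hh => hj (Fin.ext hh)
        rw [Umat_apply, if_neg (fun hh => this hh.symm), if_neg (by dsimp; omega), zero_mul]
      · simp
  ext i k
  exact key i i.2 k

/-- The cyclic data. -/
noncomputable def cycData (hn : 0 < n) (hτ : ∀ c, τ^[n] c = c) :
    CycData R C (cycAlg n τ g) n where
  D := diagHom n τ g hτ
  u := uElt n τ g
  g := g
  τ := τ
  npos := hn
  comm c := by
    apply Subtype.ext
    have h := (diagHom n τ g hτ c).2
    rw [mem_cycAlg] at h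
    change Umat n (algebraMap R C g) * (diagHom n τ g hτ c).1 = (diagHom n τ g hτ (τ c)).1 * Umat n (algebraMap R C g)
    rw [← h]
    congr 1
    ext i j
    change τ (Matrix.diagonal (fun i : Fin n => τ^[(i : ℕ)] c) i j) =
      Matrix.diagonal (fun i : Fin n => τ^[(i : ℕ)] (τ c)) i j
    by_cases hij : i = j
    · subst hij
      simp only [Matrix.diagonal_apply_eq]
      rw [← Function.iterate_succ_apply, ← Function.iterate_succ_apply' τ]
    · simp [Matrix.diagonal_apply_ne _ hij]
  upow := by
    apply Subtype.ext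
    change (Umat n (algebraMap R C g)) ^ n = _
    rw [Umat_pow_n]
    rfl
  tpow := hτ
  bij := by
    have hrow : ∀ (b : Fin n → C) (k : Fin n),
        ((∑ j, diagHom n τ g hτ (b j) * uElt n τ g ^ (j : ℕ) : cycAlg n τ g) :
          Matrix (Fin n) (Fin n) C) ⟨0, hn⟩ k = b k := by
      intro b k
      rw [AddSubmonoidClass.coe_finsetSum, Matrix.sum_apply]
      rw [Finset.sum_eq_single k]
      · change (Matrix.diagonal (fun i : Fin n => τ^[(i : ℕ)] (b k)) *
          (Umat n (algebraMap R C g)) ^ (k : ℕ)) ⟨0, hn⟩ k = _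
        rw [Matrix.diagonal_mul, Umat_pow n _ _ (by have := k.2; omega)]
        simp
      · intro j _ hj
        change (Matrix.diagonal (fun i : Fin n => τ^[(i : ℕ)] (b j)) *
          (Umat n (algebraMap R C g)) ^ (j : ℕ)) ⟨0, hn⟩ k = _
        have : (j : ℕ) ≠ k := fun hh => hj (Fin.ext hh)
        rw [Matrix.diagonal_mul, Umat_pow n _ _ (by have := j.2; omega),
          if_neg (by dsimp; omega), if_neg (by have := j.2; dsimp; omega), mul_zero]
      · simp
    constructor
    · intro b b' hbb
      ext k
      rw [← hrow b k, ← hrow b' k]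
      exact congrArg (fun z : cycAlg n τ g => (z : Matrix (Fin n) (Fin n) C) ⟨0, hn⟩ k) hbb
    · intro M
      refine ⟨fun j => (M : Matrix (Fin n) (Fin n) C) ⟨0, hn⟩ j, ?_⟩
      apply Subtype.ext
      rw [← sub_eq_zero]
      refine zero_of_row n τ g hn _ ?_ ?_
      · exact Subalgebra.sub_mem _ (Subtype.prop _) M.2
      · intro k
        rw [Matrix.sub_apply, hrow, sub_self]

end CycMat

end Pool.Agent.TH952
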