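import Mathlib
import Pool.Agent.TH952.CycMat

set_option autoImplicit false

namespace Pool.Agent.TH952

open Polynomial

section root

/-- A root of the `ℓ`-th cyclotomic polynomial, in the elementary form. -/
def IsCycRoot (ℓ : ℕ) {T : Type} [CommRing T] (z : T) : Prop :=
  ∑ k ∈ Finset.range ℓ, z ^ k = 0

variable {ℓ : ℕ} [Fact ℓ.Prime] {T : Type} [CommRing T] {z : T}

lemma IsCycRoot.pow_eq_one (h : IsCycRoot ℓ z) : z ^ ℓ = 1 := by
  have := mul_geom_sum z ℓ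
  rw [h, mul_zero] at this
  exact (sub_eq_zero.1 this.symm)

lemma IsCycRoot.eval (h : IsCycRoot ℓ z) {S : Type} [CommRing S] (f : S →+* T) :
    (cyclotomic ℓ S).eval₂ f z = 0 := by
  rw [cyclotomic_prime, eval₂_finsetSum]
  unfold IsCycRoot at h
  simpa using h

/-- the additive character `a ↦ z^a` -/
noncomputable def IsCycRoot.ch (h : IsCycRoot ℓ z) : AddChar (ZMod ℓ) T :=
  AddChar.zmodChar ℓ h.pow_eq_one

lemma IsCycRoot.ch_apply (h : IsCycRoot ℓ z) (a : ZMod ℓ) : h.ch a = z ^ a.val := rfl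

lemma IsCycRoot.ch_natCast (h : IsCycRoot ℓ z) (a : ℕ) : h.ch (a : ZMod ℓ) = z ^ a :=
  AddChar.zmodChar_apply' _ _

lemma IsCycRoot.sum_ch (h : IsCycRoot ℓ z) : ∑ a : ZMod ℓ, h.ch a = 0 := by
  have h1 : ∑ a : ZMod ℓ, h.ch a = ∑ k ∈ Finset.range ℓ, z ^ k := by
    symm
    apply Finset.sum_bij (fun (k : ℕ) _ => (k : ZMod ℓ))
    · intro a _; exact Finset.mem_univ _
    · intro a ha b hb hab
      rw [ZMod.natCast_eq_natCast_iff, Nat.ModEq, Nat.mod_eq_of_lt (Finset.mem_range.1 ha),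
        Nat.mod_eq_of_lt (Finset.mem_range.1 hb)] at hab
      exact hab
    · intro b _
      exact ⟨b.val, Finset.mem_range.2 (ZMod.val_lt b), ZMod.natCast_zmod_val b⟩
    · intro a _
      exact (h.ch_natCast a).symm
  rw [h1]; exact h

lemma IsCycRoot.sum_ch_mul (h : IsCycRoot ℓ z) {c : ZMod ℓ} (hc : c ≠ 0) :
    ∑ a : ZMod ℓ, h.ch (c * a) = 0 := by
  rw [← h.sum_ch]
  exact Fintype.sum_bijective (fun a : ZMod ℓ => c * a) (mulLeft_bijective₀ c hc) _ _ fun a => rfl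

lemma IsCycRoot.pow (h : IsCycRoot ℓ z) (c : (ZMod ℓ)ˣ) : IsCycRoot ℓ (h.ch c) := by
  have h1 := h.sum_ch_mul (Units.ne_zero c)
  have h2 : ∑ a : ZMod ℓ, h.ch (c * a) = ∑ k ∈ Finset.range ℓ, h.ch c ^ k := by
    symm
    apply Finset.sum_bij (fun (k : ℕ) _ => (k : ZMod ℓ))
    · intro a _; exact Finset.mem_univ _
    · intro a ha b hb hab
      rw [ZMod.natCast_eq_natCast_iff, Nat.ModEq, Nat.mod_eq_of_lt (Finset.mem_range.1 ha),
        Nat.mod_eq_of_lt (Finset.mem_range.1 hb)] at hab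
      exact hab
    · intro b _
      exact ⟨b.val, Finset.mem_range.2 (ZMod.val_lt b), ZMod.natCast_zmod_val b⟩
    · intro a _
      rw [mul_comm, ← nsmul_eq_mul, AddChar.map_nsmul_eq_pow]
  unfold IsCycRoot
  rw [← h2, h1]

end root

variable (ℓ : ℕ) [Fact ℓ.Prime]

/-- `S[ζ_ℓ]` -/
abbrev Cy (S : Type) [CommRing S] : Type := AdjoinRoot (cyclotomic ℓ S)

section CyS

variable (S : Type) [CommRing S]

/-- `ζ_ℓ` -/
noncomputable def zeta : Cy ℓ S := AdjoinRoot.root _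

lemma zeta_isCycRoot : IsCycRoot ℓ (zeta ℓ S) := by
  have h := AdjoinRoot.eval₂_root (cyclotomic ℓ S)
  have h2 : ∀ (T : Type) [CommRing T] (f : S →+* T) (z : T), eval₂ f z (cyclotomic ℓ S) =
      ∑ k ∈ Finset.range ℓ, z ^ k := by
    intro T _ f z
    rw [cyclotomic_prime, eval₂_finsetSum]
    simp
  rw [h2] at h
  exact h

/-- powers of `ζ` -/
noncomputable def ee : AddChar (ZMod ℓ) (Cy ℓ S) := (zeta_isCycRoot ℓ S).ch

variable {S}

/-- evaluation at a root -/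
noncomputable def evalHom {T : Type} [CommRing T] (f : S →+* T) {z : T} (hz : IsCycRoot ℓ z) :
    Cy ℓ S →+* T := AdjoinRoot.lift f z (hz.eval f)

@[simp] lemma evalHom_zeta {T : Type} [CommRing T] (f : S →+* T) {z : T} (hz : IsCycRoot ℓ z) :
    evalHom ℓ f hz (zeta ℓ S) = z := AdjoinRoot.lift_root _

@[simp] lemma evalHom_alg {T : Type} [CommRing T] (f : S →+* T) {z : T} (hz : IsCycRoot ℓ z) (r : S) :
    evalHom ℓ f hz (algebraMap S _ r) = f r := AdjoinRoot.lift_of _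

lemma evalHom_ee {T : Type} [CommRing T] (f : S →+* T) {z : T} (hz : IsCycRoot ℓ z) (a : ZMod ℓ) :
    evalHom ℓ f hz (ee ℓ S a) = hz.ch a := by
  change evalHom ℓ f hz (zeta ℓ S ^ a.val) = _
  rw [map_pow, evalHom_zeta]; rfl

lemma cy_hom_ext {T : Type} [Semiring T] {f g : Cy ℓ S →+* T}
    (h1 : ∀ r, f (algebraMap S _ r) = g (algebraMap S _ r)) (h2 : f (zeta ℓ S) = g (zeta ℓ S)) : f = g := by
  ext x
  · exact h1 x
  · exact h2

/-- the automorphism `ζ ↦ ζ^c` -/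
noncomputable def sig (c : (ZMod ℓ)ˣ) : Cy ℓ S →ₐ[S] Cy ℓ S :=
  { evalHom ℓ (algebraMap S (Cy ℓ S)) ((zeta_isCycRoot ℓ S).pow c) with
    commutes' := fun r => evalHom_alg ℓ _ ((zeta_isCycRoot ℓ S).pow c) r }

lemma sig_zeta (c : (ZMod ℓ)ˣ) : sig ℓ c (zeta ℓ S) = ee ℓ S c :=
  evalHom_zeta ℓ _ ((zeta_isCycRoot ℓ S).pow c)

lemma sig_ee (c : (ZMod ℓ)ˣ) (a : ZMod ℓ) : sig ℓ c (ee ℓ S a) = ee ℓ S (c * a) := by
  change sig ℓ c (zeta ℓ S ^ a.val) = _
  rw [map_pow, sig_zeta, mul_comm, ← AddChar.map_nsmul_eq_pow]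
  congr 1
  rw [nsmul_eq_mul, ZMod.natCast_zmod_val]

lemma sig_mul (c c' : (ZMod ℓ)ˣ) (x : Cy ℓ S) : sig ℓ (c * c') x = sig ℓ c (sig ℓ c' x) := by
  have : ((sig ℓ (c * c') : Cy ℓ S →ₐ[S] Cy ℓ S) : Cy ℓ S →+* Cy ℓ S) = ((sig ℓ c : Cy ℓ S →ₐ[S] Cy ℓ S) : Cy ℓ S →+* Cy ℓ S).comp ((sig ℓ c' : Cy ℓ S →ₐ[S] Cy ℓ S) : Cy ℓ S →+* Cy ℓ S) := by
    apply cy_hom_ext
    · intro r
      simp only [RingHom.coe_comp, RingHom.coe_coe, Function.comp, AlgHom.commutes]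
    · simp only [RingHom.coe_comp, RingHom.coe_coe, Function.comp, sig_zeta, sig_ee, Units.val_mul]
  exact congrArg (fun f : Cy ℓ S →+* Cy ℓ S => f x) this

lemma sig_one (x : Cy ℓ S) : sig ℓ 1 x = x := by
  have : ((sig ℓ 1 : Cy ℓ S →ₐ[S] Cy ℓ S) : Cy ℓ S →+* Cy ℓ S) = RingHom.id _ := by
    apply cy_hom_ext
    · intro r
      simp only [RingHom.coe_coe, AlgHom.commutes, RingHom.id_apply]
    · simp only [RingHom.coe_coe, RingHom.id_apply, sig_zeta, Units.val_one]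
      have := (zeta_isCycRoot ℓ S).ch_natCast 1
      rw [Nat.cast_one, pow_one] at this
      exact this
  exact congrArg (fun f : Cy ℓ S →+* Cy ℓ S => f x) this

lemma sig_iter (c : (ZMod ℓ)ˣ) (k : ℕ) (x : Cy ℓ S) : (sig ℓ c)^[k] x = sig ℓ (c ^ k) x := by
  induction k with
  | zero => simp [sig_one]
  | succ k ih => rw [Function.iterate_succ_apply', ih, pow_succ', sig_mul]

lemma units_pow_card (γ : (ZMod ℓ)ˣ) : γ ^ (ℓ - 1) = 1 := by
  have := pow_card_eq_one (G := (ZMod ℓ)ˣ) (x := γ)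
  rwa [ZMod.card_units] at this

lemma sig_iter_card (γ : (ZMod ℓ)ˣ) (x : Cy ℓ S) : (sig ℓ γ)^[ℓ - 1] x = x := by
  rw [sig_iter, units_pow_card, sig_one]

end CyS

section Alg

variable {R : Type} [CommRing R]

/-- The cyclic algebra `(ℚ(ζ_ℓ)/ℚ, γ, g)` over `R`. -/
noncomputable abbrev CAlg (γ : (ZMod ℓ)ˣ) (g : Rˣ) : Subalgebra R (Matrix (Fin (ℓ - 1)) (Fin (ℓ - 1)) (Cy ℓ R)) :=
  cycAlg (ℓ - 1) (sig ℓ γ) g

lemma ell_sub_pos : 0 < ℓ - 1 := by
  have := (Fact.out : ℓ.Prime).two_le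
  omega

/-- its cyclic data -/
noncomputable def cData (γ : (ZMod ℓ)ˣ) (g : Rˣ) : CycData R (Cy ℓ R) (CAlg ℓ γ g) (ℓ - 1) :=
  cycData (ℓ - 1) (sig ℓ γ) g (ell_sub_pos ℓ) (sig_iter_card ℓ γ)

/-- separability -/
noncomputable def cSep (γ : (ZMod ℓ)ˣ) (hγ : ∀ x : (ZMod ℓ)ˣ, x ∈ Subgroup.zpowers γ) (g : Rˣ)
    (hℓ : IsUnit (ℓ : R)) : CycData.Sep (cData ℓ γ g) (ZMod ℓ) where
  x k := algebraMap R (Cy ℓ R) ((hℓ.unit⁻¹ : Rˣ) : R) * ee ℓ R (-k)
  y k := ee ℓ R k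
  one := by
    simp only [mul_assoc, ← AddChar.map_add_eq_mul, neg_add_cancel, AddChar.map_zero_eq_one, mul_one,
      Finset.sum_const, Finset.card_univ, ZMod.card, nsmul_eq_mul]
    have : ((ℓ : ℕ) : Cy ℓ R) = algebraMap R (Cy ℓ R) (ℓ : R) := by simp
    rw [this, ← map_mul, IsUnit.mul_val_inv, map_one]
  zero := by
    intro i hi hn
    change ∑ k, algebraMap R (Cy ℓ R) ((hℓ.unit⁻¹ : Rˣ) : R) * ee ℓ R (-k) * (sig ℓ γ)^[i] (ee ℓ R k) = 0
    simp only [sig_iter, sig_ee, mul_assoc, ← AddChar.map_add_eq_mul]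
    rw [← Finset.mul_sum]
    have h1 : ∀ k : ZMod ℓ, -k + ((γ ^ i : (ZMod ℓ)ˣ) : ZMod ℓ) * k = (((γ ^ i : (ZMod ℓ)ˣ) : ZMod ℓ) - 1) * k := by
      intro k; ring
    simp only [h1]
    have h2 : (((γ ^ i : (ZMod ℓ)ˣ) : ZMod ℓ) - 1) ≠ 0 := by
      intro h
      rw [sub_eq_zero] at h
      have h3 : γ ^ i = 1 := by ext; rw [h]; rfl
      have h4 := orderOf_dvd_of_pow_eq_one h3
      rw [orderOf_eq_card_of_forall_mem_zpowers hγ, Nat.card_eq_fintype_card, ZMod.card_units] at h4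
      exact absurd (Nat.le_of_dvd hi h4) (by omega)
    have h5 := (zeta_isCycRoot ℓ R).sum_ch_mul h2
    change _ * ∑ k, (zeta_isCycRoot ℓ R).ch _ = 0
    rw [h5, mul_zero]
  tr := by
    intro c
    change ∃ r : R, ∑ i ∈ Finset.range (ℓ - 1), (sig ℓ γ)^[i] c = algebraMap R (Cy ℓ R) r
    have hz : ∀ a : ZMod ℓ, ∃ r : R, ∑ i ∈ Finset.range (ℓ - 1), (sig ℓ γ)^[i] (ee ℓ R a) = algebraMap R (Cy ℓ R) r := by
      intro a
      simp only [sig_iter, sig_ee]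
      have h1 : ∑ i ∈ Finset.range (ℓ - 1), ee ℓ R (((γ ^ i : (ZMod ℓ)ˣ) : ZMod ℓ) * a) =
          ∑ u : (ZMod ℓ)ˣ, ee ℓ R ((u : ZMod ℓ) * a) := by
        apply Finset.sum_bij (fun i _ => γ ^ i)
        · intro i _; exact Finset.mem_univ _
        · intro i hi j hj hij
          have ho : orderOf γ = ℓ - 1 := by
            rw [orderOf_eq_card_of_forall_mem_zpowers hγ, Nat.card_eq_fintype_card, ZMod.card_units]
          exact pow_injOn_Iio_orderOf (by simpa [ho] using hi) (by simpa [ho] using hj) hij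
        · intro u _
          have ho : orderOf γ = ℓ - 1 := by
            rw [orderOf_eq_card_of_forall_mem_zpowers hγ, Nat.card_eq_fintype_card, ZMod.card_units]
          obtain ⟨k, hk, hk'⟩ := (mem_zpowers_iff_mem_range_orderOf.1 (hγ u) : _ ∈ Finset.image _ _) |> Finset.mem_image.1
          exact ⟨k, by simpa [ho] using hk, hk'⟩
        · intro i _; rfl
      rw [h1]
      by_cases ha : a = 0
      · subst ha
        refine ⟨(Fintype.card (ZMod ℓ)ˣ : R), ?_⟩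
        simp
      · refine ⟨-1, ?_⟩
        have h2 : ∑ u : (ZMod ℓ)ˣ, ee ℓ R ((u : ZMod ℓ) * a) + ee ℓ R 0 = 0 := by
          have h3 := (zeta_isCycRoot ℓ R).sum_ch_mul ha
          have h4 : ∑ b : ZMod ℓ, ee ℓ R (a * b) = ∑ b ∈ Finset.univ.erase (0 : ZMod ℓ), ee ℓ R (a * b) + ee ℓ R (a * 0) := by
            rw [Finset.sum_erase_add _ _ (Finset.mem_univ _)]
          have h5 : ∑ u : (ZMod ℓ)ˣ, ee ℓ R ((u : ZMod ℓ) * a) = ∑ b ∈ Finset.univ.erase (0 : ZMod ℓ), ee ℓ R (a * b) := by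
            apply Finset.sum_bij (fun (u : (ZMod ℓ)ˣ) _ => (u : ZMod ℓ))
            · intro u _; simp
            · intro u _ v _ huv; exact Units.ext huv
            · intro b hb; exact ⟨Units.mk0 b (by simpa using hb), Finset.mem_univ _, rfl⟩
            · intro u _; rw [mul_comm]
          rw [h5, show ee ℓ R (0 : ZMod ℓ) = ee ℓ R (a * 0) by rw [mul_zero], ← h4]
          exact h3
        rw [AddChar.map_zero_eq_one] at h2
        rw [map_neg, map_one]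
        exact eq_neg_of_add_eq_zero_left h2
    obtain ⟨p, rfl⟩ := AdjoinRoot.mk_surjective c
    induction p using Polynomial.induction_on' with
    | add p q hp hq =>
      obtain ⟨r, hr⟩ := hp
      obtain ⟨r', hr'⟩ := hq
      refine ⟨r + r', ?_⟩
      rw [map_add, map_add, ← hr, ← hr', ← Finset.sum_add_distrib]
      refine Finset.sum_congr rfl fun i _ => ?_
      simp only [sig_iter, map_add]
    | monomial k a =>
      obtain ⟨r, hr⟩ := hz (k : ZMod ℓ)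
      refine ⟨a * r, ?_⟩
      have h1 : AdjoinRoot.mk (cyclotomic ℓ R) (monomial k a) = a • ee ℓ R (k : ZMod ℓ) := by
        have h2 : ee ℓ R (k : ZMod ℓ) = zeta ℓ R ^ k := (zeta_isCycRoot ℓ R).ch_natCast k
        rw [h2, ← C_mul_X_pow_eq_monomial, map_mul, map_pow, Algebra.smul_def]
        rfl
      rw [h1, map_mul, ← hr, Finset.mul_sum]
      refine Finset.sum_congr rfl fun i _ => ?_
      rw [sig_iter, map_smul, Algebra.smul_def, sig_iter]

theorem CAlg_isAzumaya [IsDomain R] (γ : (ZMod ℓ)ˣ) (hγ : ∀ x : (ZMod ℓ)ˣ, x ∈ Subgroup.zpowers γ) (g : Rˣ)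
    (hℓ : IsUnit (ℓ : R)) : IsAzumaya R (CAlg ℓ γ g) := by
  have hm := cyclotomic.monic ℓ R
  have : Module.Free R (Cy ℓ R) := hm.free_adjoinRoot
  have : Module.Finite R (Cy ℓ R) := hm.finite_adjoinRoot
  have : Nontrivial (Cy ℓ R) := by
    apply AdjoinRoot.nontrivial
    rw [degree_cyclotomic]
    have := (Fact.out : ℓ.Prime).pos
    simp only [ne_eq, Nat.cast_eq_zero]
    exact (Nat.totient_pos.2 this).ne'
  exact CycData.isAzumaya (cData ℓ γ g) (cSep ℓ γ hγ g hℓ)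

end Alg

end Pool.Agent.TH952
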