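import Mathlib
import Pool.Agent.TH952.Cyclo
import Pool.Agent.TH952.BMDefs

set_option autoImplicit false
set_option linter.style.haveILetI false

namespace Pool.Agent.TH952

open scoped TensorProduct
open Polynomial

section iota

variable (p : ℕ) [Fact p.Prime]

lemma iota_int (x : ℤ_[p]) : iota p (x : ℚ_[p]) = algebraMap (Wur p) (Fur p) (iotaInt p x) := by
  have := IsFractionRing.lift_algebraMap (A := ℤ_[p]) (K := ℚ_[p])
    (g := (algebraMap (Wur p) (Fur p)).comp (iotaInt p))
    ((IsFractionRing.injective (Wur p) (Fur p)).comp (iotaInt_injective p)) x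
  exact this

lemma frob_alg (x : Wur p) :
    frob p (algebraMap (Wur p) (Fur p) x) = algebraMap (Wur p) (Fur p) (WittVector.frobenius x) := by
  unfold frob WittVector.FractionRing.frobenius
  rw [IsFractionRing.ringEquivOfRingEquiv_algebraMap]
  rfl

lemma frob_iotaInt (x : ℤ_[p]) : WittVector.frobenius (iotaInt p x) = iotaInt p x := by
  ext n
  rw [WittVector.coeff_frobenius_charP]
  change (algebraMap (ZMod p) (AlgebraicClosure (ZMod p)) _) ^ p = algebraMap (ZMod p) (AlgebraicClosure (ZMod p)) _
  rw [← map_pow, ZMod.pow_card]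

lemma frob_iota (x : ℚ_[p]) : frob p (iota p x) = iota p x := by
  have : ((frob p : Fur p →+* Fur p).comp (iota p)) = iota p := by
    apply IsFractionRing.ringHom_ext (A := ℤ_[p])
    intro x
    change frob p (iota p (x : ℚ_[p])) = iota p (x : ℚ_[p])
    rw [iota_int, frob_alg, frob_iotaInt]
  exact congrArg (fun f : ℚ_[p] →+* Fur p => f x) this

end iota

section extend

variable {R K F A : Type} [CommRing R] [Field K] [Field F] [Ring A] [Algebra R A]
  (P : R →+* K) (ι : K →+* F)

/-- extension of representations to the specialisation -/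
lemma exists_extend {d : ℕ} (φ : F →+* F) (hφ : ∀ a, φ (ι a) = ι a)
    (r : A →+* Matrix (Fin d) (Fin d) F)
    (hr : ∀ x : R, r (algebraMap R A x) = Matrix.scalar (Fin d) (ι (P x)))
    (T : Matrix (Fin d) (Fin d) F) (hT : ∀ a, (r a).map φ * T = T * r a) :
    ∃ ρ : Special P A →+* Matrix (Fin d) (Fin d) F,
      (∀ a : K, ρ (algebraMap K (Special P A) a) = Matrix.scalar (Fin d) (ι a)) ∧
      ∀ b, (ρ b).map φ * T = T * ρ b := by
  let _ : Algebra R K := P.toAlgebra
  let _ : Algebra K F := ι.toAlgebra
  let _ : Algebra R F := (ι.comp P).toAlgebra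
  have : IsScalarTower R K F := IsScalarTower.of_algebraMap_eq fun x => rfl
  have hc : ∀ x : R, r (algebraMap R A x) = algebraMap R (Matrix (Fin d) (Fin d) F) x := by
    intro x
    rw [hr]; rfl
  let g : A →ₐ[R] Matrix (Fin d) (Fin d) F := { r with commutes' := hc }
  let f : K →ₐ[K] Matrix (Fin d) (Fin d) F := Algebra.ofId K _
  let L : K ⊗[R] A →ₐ[K] Matrix (Fin d) (Fin d) F :=
    Algebra.TensorProduct.lift f g (fun x y => Algebra.commutes _ _)
  refine ⟨(L : K ⊗[R] A →+* Matrix (Fin d) (Fin d) F), ?_, ?_⟩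
  · intro a
    change L (algebraMap K (K ⊗[R] A) a) = _
    rw [AlgHom.commutes]
    rfl
  · intro b
    change (L b).map φ * T = T * L b
    have hb : ∀ b : K ⊗[R] A, φ.mapMatrix (L b) * T = T * L b := by
      intro b
      induction b using TensorProduct.induction_on with
      | zero => simp
      | tmul x y =>
        have h1 : L (x ⊗ₜ y) = algebraMap K (Matrix (Fin d) (Fin d) F) x * r y :=
          Algebra.TensorProduct.lift_tmul f g (fun x y => Algebra.commutes _ _) x y
        have h2 : φ.mapMatrix (algebraMap K (Matrix (Fin d) (Fin d) F) x) =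
            algebraMap K (Matrix (Fin d) (Fin d) F) x := by
          ext i j
          simp only [Matrix.algebraMap_eq_diagonal, RingHom.mapMatrix_apply, Matrix.map_apply, Matrix.diagonal_apply]
          split_ifs
          · exact hφ x
          · simp
        rw [h1, map_mul, h2, mul_assoc]
        have h3 := hT y
        rw [RingHom.mapMatrix_apply, h3, ← mul_assoc, ← mul_assoc, Algebra.commutes]
      | add x y hx hy => rw [map_add, map_add, add_mul, hx, hy, mul_add]
    exact hb b

lemma finrank_special [Nontrivial R] [Module.Free R A] [Module.Finite R A] :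
    Module.finrank K (Special P A) = Module.finrank R A := by
  let _ : Algebra R K := P.toAlgebra
  exact Module.finrank_baseChange

end extend

section rank

variable (ℓ : ℕ) [Fact ℓ.Prime] {R : Type} [CommRing R] [IsDomain R]

lemma CAlg_free (γ : (ZMod ℓ)ˣ) (g : Rˣ) : Module.Free R (CAlg ℓ γ g) := by
  have hm := cyclotomic.monic ℓ R
  have : Module.Free R (Cy ℓ R) := hm.free_adjoinRoot
  have : Module.Finite R (Cy ℓ R) := hm.finite_adjoinRoot
  exact Module.Free.of_equiv (cData ℓ γ g).row.symm

lemma CAlg_finite (γ : (ZMod ℓ)ˣ) (g : Rˣ) : Module.Finite R (CAlg ℓ γ g) := by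
  have hm := cyclotomic.monic ℓ R
  have : Module.Free R (Cy ℓ R) := hm.free_adjoinRoot
  have : Module.Finite R (Cy ℓ R) := hm.finite_adjoinRoot
  exact Module.Finite.equiv (cData ℓ γ g).row.symm

lemma CAlg_finrank (γ : (ZMod ℓ)ˣ) (g : Rˣ) : Module.finrank R (CAlg ℓ γ g) = (ℓ - 1) ^ 2 := by
  have hm := cyclotomic.monic ℓ R
  have : Module.Free R (Cy ℓ R) := hm.free_adjoinRoot
  have : Module.Finite R (Cy ℓ R) := hm.finite_adjoinRoot
  rw [(cData ℓ γ g).row.finrank_eq, Module.finrank_pi_fintype]
  have h : Module.finrank R (Cy ℓ R) = ℓ - 1 := by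
    rw [(AdjoinRoot.powerBasis' hm).finrank, AdjoinRoot.powerBasis'_dim, natDegree_cyclotomic,
      Nat.totient_prime Fact.out]
  simp [h, sq]

end rank

end Pool.Agent.TH952
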