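import Mathlib
import Pool.Agent.TH952.LocInv

set_option autoImplicit false
set_option linter.style.haveILetI false

namespace Pool.Agent.TH952

open scoped TensorProduct
open Polynomial

section det

lemma map_Umat {C C' : Type} [CommRing C] [CommRing C'] (n : ℕ) (f : C →+* C') (g : C) :
    f.mapMatrix (Umat n g) = Umat n (f g) := by
  ext i j
  simp only [RingHom.mapMatrix_apply, Matrix.map_apply, Umat_apply]
  split_ifs <;> simp

lemma det_Umat_one_int (n : ℕ) : IsUnit (Umat n (1 : ℤ)).det := by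
  have h := Umat_pow_n n (1 : ℤ)
  have h2 : (Umat n (1 : ℤ)).det ^ n = 1 := by
    rw [← Matrix.det_pow, h]; simp
  rcases Nat.eq_zero_or_pos n with h0 | h0
  · subst h0; simp
  · exact IsUnit.of_pow_eq_one h2 h0.ne'

lemma det_Umat {C : Type} [CommRing C] (n : ℕ) (hn : 0 < n) (g : C) :
    (Umat n g).det = g * ((Umat n (1 : ℤ)).det : ℤ) := by
  have h1 : Umat n g = (Umat n (1 : C)).updateRow ⟨n - 1, by omega⟩ (g • Umat n (1 : C) ⟨n - 1, by omega⟩) := by
    ext i j
    by_cases hi : i = ⟨n - 1, by omega⟩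
    · subst hi
      rw [Matrix.updateRow_self, Pi.smul_apply, Umat_apply, Umat_apply]
      have hj := j.2
      have hv : ((⟨n - 1, by omega⟩ : Fin n) : ℕ) + 1 = n := by
        change n - 1 + 1 = n
        omega
      rw [hv]
      split_ifs <;> first | (exfalso; omega) | simp
    · rw [Matrix.updateRow_ne hi, Umat_apply, Umat_apply]
      have h2 : (i : ℕ) ≠ n - 1 := fun hh => hi (Fin.ext hh)
      have := i.2
      split_ifs <;> first | rfl | (exfalso; omega)
  rw [h1, Matrix.det_updateRow_smul, Matrix.updateRow_eq_self]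
  congr 1
  have h3 := map_Umat n (Int.castRingHom C) 1
  rw [map_one] at h3
  rw [← h3, ← RingHom.map_det]
  rfl

end det

section place

variable (ℓ : ℕ) [Fact ℓ.Prime] {R K F : Type} [CommRing R] [Field K] [Field F]
  (P : R →+* K) (ι : K →+* F)

lemma iter_mem (γ : (ZMod ℓ)ˣ) (g : Rˣ) (M : CAlg ℓ γ g) (s : ℕ) :
    (M.1.map (sig ℓ γ)^[s]) * Umat (ℓ - 1) (algebraMap R (Cy ℓ R) g) ^ s =
      Umat (ℓ - 1) (algebraMap R (Cy ℓ R) g) ^ s * M.1 := by
  induction s with
  | zero => simp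
  | succ s ih =>
    have h1 : M.1.map (sig ℓ γ)^[s + 1] = (sig ℓ γ).mapMatrix (M.1.map (sig ℓ γ)^[s]) := by
      ext i j
      simp only [Matrix.map_apply, AlgHom.mapMatrix_apply, Function.iterate_succ_apply']
    have h2 := congrArg (fun X => (sig ℓ γ).mapMatrix X) ih
    simp only [map_mul, map_pow, mapMatrix_Umat] at h2
    have h3 := M.2
    rw [mem_cycAlg] at h3
    rw [h1, pow_succ, ← mul_assoc, h2, mul_assoc, h3, ← mul_assoc]

/-- The representation at a place which is not `ℓ`. -/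
lemma exists_rep (γ : (ZMod ℓ)ˣ) (g : Rˣ) (φ : F →+* F) (hφ : ∀ a, φ (ι a) = ι a)
    {z : F} (hz : IsCycRoot ℓ z) (s : ℕ) (hs : φ z = hz.ch ((γ ^ s : (ZMod ℓ)ˣ) : ZMod ℓ)) :
    ∃ r : CAlg ℓ γ g →+* Matrix (Fin (ℓ - 1)) (Fin (ℓ - 1)) F,
      (∀ x : R, r (algebraMap R _ x) = Matrix.scalar _ (ι (P x))) ∧
      ∀ a, (r a).map φ * Umat (ℓ - 1) (ι (P g)) ^ s = Umat (ℓ - 1) (ι (P g)) ^ s * r a := by
  let θ : Cy ℓ R →+* F := evalHom ℓ (ι.comp P) hz
  have hθ : ∀ x, φ (θ x) = θ ((sig ℓ γ)^[s] x) := by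
    intro x
    rw [sig_iter]
    have : φ.comp θ = θ.comp ((sig ℓ (γ ^ s) : Cy ℓ R →ₐ[R] Cy ℓ R) : Cy ℓ R →+* Cy ℓ R) := by
      apply cy_hom_ext
      · intro r
        simp only [RingHom.coe_comp, Function.comp, RingHom.coe_coe, AlgHom.commutes]
        change φ (evalHom ℓ (ι.comp P) hz _) = evalHom ℓ (ι.comp P) hz _
        rw [evalHom_alg]
        exact hφ _
      · simp only [RingHom.coe_comp, Function.comp, RingHom.coe_coe]
        change φ (evalHom ℓ (ι.comp P) hz _) = evalHom ℓ (ι.comp P) hz _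
        rw [evalHom_zeta, sig_zeta, evalHom_ee, hs]
    exact congrArg (fun f : Cy ℓ R →+* F => f x) this
  refine ⟨θ.mapMatrix.comp (CAlg ℓ γ g).val.toRingHom, ?_, ?_⟩
  · intro x
    change θ.mapMatrix (algebraMap R (Matrix (Fin (ℓ - 1)) (Fin (ℓ - 1)) (Cy ℓ R)) x) = _
    rw [Matrix.algebraMap_eq_diagonal]
    ext i j
    simp only [RingHom.mapMatrix_apply, Matrix.map_apply, Matrix.diagonal_apply, Matrix.scalar_apply,
      Pi.algebraMap_apply]
    split_ifs
    · exact evalHom_alg ℓ (ι.comp P) hz x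
    · simp
  · intro M
    have h1 := congrArg (fun X => θ.mapMatrix X) (iter_mem ℓ γ g M s)
    simp only [map_mul, map_pow, map_Umat] at h1
    have h2 : θ (algebraMap R (Cy ℓ R) g) = ι (P g) := evalHom_alg ℓ (ι.comp P) hz _
    rw [h2] at h1
    have h3 : θ.mapMatrix (M.1.map (sig ℓ γ)^[s]) = (θ.mapMatrix M.1).map φ := by
      ext i j
      simp only [RingHom.mapMatrix_apply, Matrix.map_apply]
      exact (hθ _).symm
    rw [h3] at h1
    exact h1

end place

end Pool.Agent.TH952
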