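import Mathlib
import Pool.Agent.TH952.Place

set_option autoImplicit false
set_option linter.style.haveILetI false

namespace Pool.Agent.TH952

open scoped TensorProduct
open Polynomial

section basis

variable (ℓ : ℕ) [Fact ℓ.Prime] (S : Type) [CommRing S] [Nontrivial S]

lemma pb_dim : (AdjoinRoot.powerBasis' (cyclotomic.monic ℓ S)).dim = ℓ - 1 := by
  rw [AdjoinRoot.powerBasis'_dim, natDegree_cyclotomic, Nat.totient_prime Fact.out]

/-- the basis `ζ^i` -/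
noncomputable def cb : Module.Basis (Fin (ℓ - 1)) S (Cy ℓ S) :=
  (AdjoinRoot.powerBasis' (cyclotomic.monic ℓ S)).basis.reindex (finCongr (pb_dim ℓ S))

lemma cb_apply (i : Fin (ℓ - 1)) : cb ℓ S i = zeta ℓ S ^ (i : ℕ) := by
  unfold cb
  rw [Module.Basis.reindex_apply, PowerBasis.basis_eq_pow]
  rfl

variable {S} {S' : Type} [CommRing S'] [Nontrivial S'] (f : S →+* S')

/-- functoriality -/
noncomputable def cyMap : Cy ℓ S →+* Cy ℓ S' :=
  evalHom ℓ ((algebraMap S' (Cy ℓ S')).comp f) (zeta_isCycRoot ℓ S')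

omit [Nontrivial S] [Nontrivial S'] in
lemma cyMap_zeta : cyMap ℓ f (zeta ℓ S) = zeta ℓ S' := evalHom_zeta ℓ _ _

omit [Nontrivial S] [Nontrivial S'] in
lemma cyMap_alg (x : S) : cyMap ℓ f (algebraMap S _ x) = algebraMap S' _ (f x) := evalHom_alg ℓ _ _ _

omit [Nontrivial S] [Nontrivial S'] in
lemma cyMap_smul (x : S) (c : Cy ℓ S) : cyMap ℓ f (x • c) = f x • cyMap ℓ f c := by
  rw [Algebra.smul_def, map_mul, cyMap_alg, Algebra.smul_def]

omit [Nontrivial S] [Nontrivial S'] in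
lemma cyMap_ee (a : ZMod ℓ) : cyMap ℓ f (ee ℓ S a) = ee ℓ S' a := evalHom_ee ℓ _ _ _

omit [Nontrivial S] [Nontrivial S'] in
lemma cyMap_sig (c : (ZMod ℓ)ˣ) (x : Cy ℓ S) : cyMap ℓ f (sig ℓ c x) = sig ℓ c (cyMap ℓ f x) := by
  have : (cyMap ℓ f).comp ((sig ℓ c : Cy ℓ S →ₐ[S] Cy ℓ S) : Cy ℓ S →+* Cy ℓ S) =
      ((sig ℓ c : Cy ℓ S' →ₐ[S'] Cy ℓ S') : Cy ℓ S' →+* Cy ℓ S').comp (cyMap ℓ f) := by
    apply cy_hom_ext
    · intro r
      simp only [RingHom.coe_comp, Function.comp, RingHom.coe_coe, AlgHom.commutes, cyMap_alg]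
    · simp only [RingHom.coe_comp, Function.comp, RingHom.coe_coe, sig_zeta, cyMap_zeta, cyMap_ee]
  exact congrArg (fun f : Cy ℓ S →+* Cy ℓ S' => f x) this

lemma cyMap_cb (i : Fin (ℓ - 1)) : cyMap ℓ f (cb ℓ S i) = cb ℓ S' i := by
  rw [cb_apply, cb_apply, map_pow, cyMap_zeta]

lemma cb_repr_map (y : Cy ℓ S) (i : Fin (ℓ - 1)) :
    (cb ℓ S').repr (cyMap ℓ f y) i = f ((cb ℓ S).repr y i) := by
  conv_lhs => rw [← (cb ℓ S).sum_repr y]
  rw [map_sum]
  simp only [cyMap_smul, cyMap_cb]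
  rw [Module.Basis.repr_sum_self]

lemma norm_cyMap (y : Cy ℓ S) : Algebra.norm S' (cyMap ℓ f y) = f (Algebra.norm S y) := by
  rw [Algebra.norm_eq_matrix_det (cb ℓ S'), Algebra.norm_eq_matrix_det (cb ℓ S), RingHom.map_det]
  congr 1
  ext i j
  have h : cyMap ℓ f y * cb ℓ S' j = cyMap ℓ f (y * cb ℓ S j) := by rw [map_mul, cyMap_cb]
  rw [RingHom.mapMatrix_apply, Matrix.map_apply, Algebra.leftMulMatrix_eq_repr_mul,
    Algebra.leftMulMatrix_eq_repr_mul, h, cb_repr_map]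

end basis

lemma norm_one_sub_zeta (ℓ : ℕ) [Fact ℓ.Prime] (F : Type) [Field F] :
    Algebra.norm F (1 - zeta ℓ F) = (ℓ : F) := by
  have hm := cyclotomic.monic ℓ F
  have h1 := charpoly_leftMulMatrix (AdjoinRoot.powerBasis' hm)
  rw [Algebra.norm_eq_matrix_det (AdjoinRoot.powerBasis' hm).basis]
  have hgen : (AdjoinRoot.powerBasis' hm).gen = zeta ℓ F := AdjoinRoot.powerBasis'_gen hm
  rw [hgen] at h1
  have h2 : minpoly F (zeta ℓ F) = cyclotomic ℓ F := by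
    have := AdjoinRoot.minpoly_root hm.ne_zero
    rw [hm.leadingCoeff, inv_one, C_1, mul_one] at this
    exact this
  rw [h2] at h1
  rw [map_sub, map_one]
  have h3 := congrArg (Polynomial.eval 1) h1
  rw [Matrix.eval_charpoly] at h3
  simp only [map_one] at h3
  rw [h3, eval_one_cyclotomic_prime]

end Pool.Agent.TH952
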