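import Mathlib
import Pool.Agent.TH952.Place

set_option autoImplicit false
set_option linter.style.haveILetI false

namespace Pool.Agent.TH952

open scoped TensorProduct
open Polynomial

section witt

variable (p : ℕ) [Fact p.Prime]

lemma frobenius_teich (x : AlgebraicClosure (ZMod p)) :
    WittVector.frobenius (WittVector.teichmuller p x) = WittVector.teichmuller p (x ^ p) := by
  ext n
  rw [WittVector.coeff_frobenius_charP]
  rcases Nat.eq_zero_or_pos n with h | h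
  · subst h; rw [WittVector.teichmuller_coeff_zero, WittVector.teichmuller_coeff_zero]
  · rw [WittVector.teichmuller_coeff_pos _ _ _ h, WittVector.teichmuller_coeff_pos _ _ _ h,
      zero_pow (Fact.out : p.Prime).ne_zero]

lemma exists_cycRoot (ℓ : ℕ) [Fact ℓ.Prime] (h : p ≠ ℓ) :
    ∃ z : Fur p, ∃ hz : IsCycRoot ℓ z, frob p z = hz.ch (p : ZMod ℓ) := by
  obtain ⟨x, hx⟩ := IsAlgClosed.exists_root (cyclotomic ℓ (AlgebraicClosure (ZMod p))) (by
    rw [degree_cyclotomic]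
    have := (Fact.out : ℓ.Prime).pos
    exact_mod_cast (Nat.totient_pos.2 this).ne')
  have hx' : ∑ k ∈ Finset.range ℓ, x ^ k = 0 := by
    rw [IsRoot, cyclotomic_prime, eval_finsetSum] at hx
    simpa using hx
  have hx1 : x ≠ 1 := by
    rintro rfl
    simp only [one_pow, Finset.sum_const, Finset.card_range, nsmul_eq_mul, mul_one] at hx'
    have h2 : (p : ℕ) ∣ ℓ := (CharP.cast_eq_zero_iff (AlgebraicClosure (ZMod p)) p ℓ).1 hx'
    exact h ((Nat.prime_dvd_prime_iff_eq Fact.out Fact.out).1 h2)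
  have hxl : x ^ ℓ = 1 := by
    have := mul_geom_sum x ℓ
    rw [hx', mul_zero] at this
    exact sub_eq_zero.1 this.symm
  set z0 : Wur p := WittVector.teichmuller p x with hz0
  have hz1 : z0 ≠ 1 := by
    intro hh
    have h3 := congrArg (fun w : Wur p => w.coeff 0) hh
    simp only [hz0, WittVector.teichmuller_coeff_zero, WittVector.one_coeff_zero] at h3
    exact hx1 h3
  have hzl : z0 ^ ℓ = 1 := by rw [hz0, ← map_pow, hxl, map_one]
  have hzs : ∑ k ∈ Finset.range ℓ, z0 ^ k = 0 := by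
    have h4 := mul_geom_sum z0 ℓ
    rw [hzl, sub_self] at h4
    exact (mul_eq_zero.1 h4).resolve_left (sub_ne_zero.2 hz1)
  have hz : IsCycRoot ℓ (algebraMap (Wur p) (Fur p) z0) := by
    unfold IsCycRoot
    have h5 := congrArg (algebraMap (Wur p) (Fur p)) hzs
    simpa using h5
  refine ⟨_, hz, ?_⟩
  have h6 : WittVector.frobenius z0 = z0 ^ p := by rw [hz0, frobenius_teich, map_pow]
  rw [frob_alg, h6, hz.ch_natCast, map_pow]

lemma padic_decomp (x : ℚ_[p]) (hx : x ≠ 0) :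
    ∃ u : ℤ_[p]ˣ, x = (p : ℚ_[p]) ^ x.valuation * ((u : ℤ_[p]) : ℚ_[p]) := by
  have hp : (p : ℚ_[p]) ≠ 0 := by
    exact_mod_cast (Fact.out : p.Prime).ne_zero
  have hn : ‖x * (p : ℚ_[p]) ^ (-x.valuation)‖ = 1 := by
    rw [norm_mul, Padic.norm_eq_zpow_neg_valuation hx, norm_zpow, Padic.norm_p, inv_zpow', neg_neg,
      ← zpow_add₀]
    · simp
    · exact_mod_cast (Fact.out : p.Prime).ne_zero
  refine ⟨PadicInt.mkUnits hn, ?_⟩
  rw [PadicInt.mkUnits_eq]
  rw [mul_comm x, ← mul_assoc, ← zpow_add₀ hp]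
  simp

end witt

section main

variable (p : ℕ) [Fact p.Prime] (ℓ : ℕ) [Fact ℓ.Prime] {R : Type} [CommRing R] [IsDomain R]

theorem hasInv_of_ne (h : p ≠ ℓ) (P : R →+* ℚ_[p]) (γ : (ZMod ℓ)ˣ) (g : Rˣ) (s : ℕ)
    (hs : ((γ ^ s : (ZMod ℓ)ˣ) : ZMod ℓ) = p) :
    HasInv p (Special P (CAlg ℓ γ g)) ((((P g).valuation * s : ℤ) : ℚ) / ((ℓ - 1 : ℕ) : ℚ)) := by
  obtain ⟨z, hz, hz2⟩ := exists_cycRoot p ℓ h
  obtain ⟨r, hr1, hr2⟩ := exists_rep ℓ P (iota p) γ g (frob p : Fur p →+* Fur p)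
    (fun a => frob_iota p a) hz s (by rw [hs]; exact hz2)
  obtain ⟨ρ, hρ1, hρ2⟩ := exists_extend P (iota p) (frob p : Fur p →+* Fur p)
    (fun a => frob_iota p a) r hr1 _ hr2
  have hg : P g ≠ 0 := (g.isUnit.map P).ne_zero
  obtain ⟨u, hu⟩ := padic_decomp p (P g) hg
  obtain ⟨e, he⟩ := det_Umat_one_int (ℓ - 1)
  have : Module.Free R (CAlg ℓ γ g) := CAlg_free ℓ γ g
  have : Module.Finite R (CAlg ℓ γ g) := CAlg_finite ℓ γ g
  refine ⟨ℓ - 1, ρ, _, (P g).valuation * s, (Units.map (iotaInt p).toMonoidHom u *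
    Units.map (Int.castRingHom (Wur p)).toMonoidHom e) ^ s, ?_, hρ1, hρ2, ?_, rfl⟩
  · rw [finrank_special, CAlg_finrank]
  · rw [Matrix.det_pow, det_Umat _ (ell_sub_pos ℓ), zpow_mul, zpow_natCast]
    conv_lhs => rw [hu]
    rw [Units.val_pow_eq_pow_val, map_pow, ← mul_pow]
    congr 1
    rw [map_mul, map_zpow₀, iota_int, Units.val_mul, map_mul]
    have h1 : iota p (p : ℚ_[p]) = (p : Fur p) := map_natCast _ _
    rw [h1, mul_assoc]
    congr 2
    rw [← he]
    simp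

end main

end Pool.Agent.TH952
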