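import Mathlib
import Pool.Agent.TH952.PlaceNe
import Pool.Agent.TH952.CyBasis

set_option autoImplicit false
set_option linter.style.haveILetI false

namespace Pool.Agent.TH952

open scoped TensorProduct
open Polynomial

section rep

variable (ℓ : ℕ) [Fact ℓ.Prime] {R F : Type} [CommRing R] [Field F] (Q : R →+* F)
  (γ : (ZMod ℓ)ˣ) (g : Rˣ)

/-- the vectors `(v^i σ^i c)` -/
noncomputable def kap (v : F) (c : Cy ℓ F) : Fin (ℓ - 1) → Cy ℓ F :=
  fun i => v ^ (i : ℕ) • (sig ℓ γ)^[(i : ℕ)] c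

lemma kap_spec (v : F) (hv : v ^ (ℓ - 1) = Q g) (c : Cy ℓ F) (i : Fin (ℓ - 1)) :
    (Umat (ℓ - 1) (algebraMap F (Cy ℓ F) (Q g))).mulVec (kap ℓ γ v c) i =
      v • sig ℓ γ (kap ℓ γ v c i) := by
  have hpos := ell_sub_pos ℓ
  have h1 : v • sig ℓ γ (kap ℓ γ v c i) = v ^ ((i : ℕ) + 1) • (sig ℓ γ)^[(i : ℕ) + 1] c := by
    unfold kap
    rw [map_smul, smul_smul, ← pow_succ', Function.iterate_succ_apply']
  rw [h1, Matrix.mulVec, dotProduct]
  by_cases hi : (i : ℕ) + 1 < ℓ - 1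
  · rw [Finset.sum_eq_single (⟨(i : ℕ) + 1, hi⟩ : Fin (ℓ - 1))]
    · rw [Umat_apply, if_pos rfl, one_mul]
      rfl
    · intro j _ hj
      have hj' : (j : ℕ) ≠ (i : ℕ) + 1 := fun hh => hj (Fin.ext hh)
      rw [Umat_apply, if_neg (fun hh => hj' hh.symm), if_neg (by omega), zero_mul]
    · simp
  · have hi' : (i : ℕ) + 1 = ℓ - 1 := by have := i.2; omega
    rw [Finset.sum_eq_single (⟨0, hpos⟩ : Fin (ℓ - 1))]
    · rw [Umat_apply, if_neg (by dsimp; omega), if_pos (by dsimp; omega), hi', hv, sig_iter_card]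
      unfold kap
      simp [Algebra.smul_def]
    · intro j _ hj
      have hj' : (j : ℕ) ≠ 0 := fun hh => hj (Fin.ext hh)
      have := j.2
      rw [Umat_apply, if_neg (by omega), if_neg (by omega), zero_mul]
    · simp

lemma eq_kap (v : F) (ξ : Fin (ℓ - 1) → Cy ℓ F)
    (h : ∀ i, (Umat (ℓ - 1) (algebraMap F (Cy ℓ F) (Q g))).mulVec ξ i = v • sig ℓ γ (ξ i)) :
    ξ = kap ℓ γ v (ξ ⟨0, ell_sub_pos ℓ⟩) := by
  have key : ∀ (i : ℕ) (hi : i < ℓ - 1), ξ ⟨i, hi⟩ = kap ℓ γ v (ξ ⟨0, ell_sub_pos ℓ⟩) ⟨i, hi⟩ := by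
    intro i
    induction i with
    | zero => intro hi; simp [kap]
    | succ i ih =>
      intro hi
      have h1 := h ⟨i, by omega⟩
      rw [Matrix.mulVec, dotProduct, Finset.sum_eq_single (⟨i + 1, hi⟩ : Fin (ℓ - 1))] at h1
      · rw [Umat_apply, if_pos rfl, one_mul] at h1
        rw [h1, ih (by omega)]
        unfold kap
        rw [map_smul, smul_smul, ← pow_succ', ← Function.iterate_succ_apply' (sig ℓ γ)]
      · intro j _ hj
        have hj' : (j : ℕ) ≠ i + 1 := fun hh => hj (Fin.ext hh)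
        rw [Umat_apply, if_neg (fun hh => hj' hh.symm), if_neg (by dsimp; omega), zero_mul]
      · simp
  ext ⟨i, hi⟩
  exact key i hi

lemma theta_kap (v : F) (hv : v ^ (ℓ - 1) = Q g) (M : CAlg ℓ γ g) (c : Cy ℓ F) :
    ((cyMap ℓ Q).mapMatrix M.1).mulVec (kap ℓ γ v c) =
      kap ℓ γ v (((cyMap ℓ Q).mapMatrix M.1).mulVec (kap ℓ γ v c) ⟨0, ell_sub_pos ℓ⟩) := by
  apply eq_kap ℓ Q γ g v
  intro i
  have hM := M.2
  rw [mem_cycAlg] at hM
  have h1 := congrArg (fun X => (cyMap ℓ Q).mapMatrix X) hM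
  simp only [map_mul, map_Umat, cyMap_alg] at h1
  have h2 : (cyMap ℓ Q).mapMatrix ((sig ℓ γ).mapMatrix M.1) =
      ((cyMap ℓ Q).mapMatrix M.1).map (sig ℓ γ) := by
    ext i j
    simp only [RingHom.mapMatrix_apply, Matrix.map_apply, AlgHom.mapMatrix_apply, cyMap_sig]
  rw [h2] at h1
  rw [Matrix.mulVec_mulVec, ← h1, ← Matrix.mulVec_mulVec]
  have h3 : (Umat (ℓ - 1) (algebraMap F (Cy ℓ F) (Q g))).mulVec (kap ℓ γ v c) =
      fun i => v • sig ℓ γ (kap ℓ γ v c i) := by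
    ext i; exact kap_spec ℓ Q γ g v hv c i
  rw [h3]
  simp only [Matrix.mulVec, dotProduct, Matrix.map_apply, map_sum, map_mul, Finset.smul_sum,
    mul_smul_comm]

/-- the representation on `C` -/
noncomputable def rhoLin (v : F) (M : CAlg ℓ γ g) : Module.End F (Cy ℓ F) where
  toFun c := ((cyMap ℓ Q).mapMatrix M.1).mulVec (kap ℓ γ v c) ⟨0, ell_sub_pos ℓ⟩
  map_add' a b := by
    have h : kap ℓ γ v (a + b) = kap ℓ γ v a + kap ℓ γ v b := by
      ext i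
      simp only [kap, Pi.add_apply, sig_iter, map_add, smul_add]
    rw [h, Matrix.mulVec_add]; rfl
  map_smul' x a := by
    have h : kap ℓ γ v (x • a) = x • kap ℓ γ v a := by
      ext i
      simp only [kap, Pi.smul_apply, sig_iter, map_smul]
      rw [smul_comm]
    rw [h, Matrix.mulVec_smul]; rfl

lemma rhoLin_apply (v : F) (M : CAlg ℓ γ g) (c : Cy ℓ F) : rhoLin ℓ Q γ g v M c =
    ∑ j, cyMap ℓ Q (M.1 ⟨0, ell_sub_pos ℓ⟩ j) * (v ^ (j : ℕ) • sig ℓ (γ ^ (j : ℕ)) c) := by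
  change ((cyMap ℓ Q).mapMatrix M.1).mulVec (kap ℓ γ v c) ⟨0, ell_sub_pos ℓ⟩ = _
  simp only [Matrix.mulVec, dotProduct, kap, sig_iter]
  rfl

/-- the representation -/
noncomputable def rhoHom (v : F) (hv : v ^ (ℓ - 1) = Q g) : CAlg ℓ γ g →+* Module.End F (Cy ℓ F) where
  toFun M := rhoLin ℓ Q γ g v M
  map_one' := by
    ext c : 1
    change ((cyMap ℓ Q).mapMatrix 1).mulVec (kap ℓ γ v c) ⟨0, ell_sub_pos ℓ⟩ = c
    rw [map_one, Matrix.one_mulVec]
    simp [kap]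
  map_zero' := by
    ext c : 1
    change ((cyMap ℓ Q).mapMatrix 0).mulVec (kap ℓ γ v c) ⟨0, ell_sub_pos ℓ⟩ = 0
    rw [map_zero, Matrix.zero_mulVec]; rfl
  map_add' M M' := by
    ext c : 1
    change ((cyMap ℓ Q).mapMatrix (M.1 + M'.1)).mulVec (kap ℓ γ v c) ⟨0, ell_sub_pos ℓ⟩ = _
    rw [map_add, Matrix.add_mulVec]; rfl
  map_mul' M M' := by
    ext c : 1
    change ((cyMap ℓ Q).mapMatrix (M.1 * M'.1)).mulVec (kap ℓ γ v c) ⟨0, ell_sub_pos ℓ⟩ = _
    rw [map_mul, ← Matrix.mulVec_mulVec, theta_kap ℓ Q γ g v hv M' c]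
    rfl

/-- the matrix representation -/
noncomputable def rhoMat (v : F) (hv : v ^ (ℓ - 1) = Q g) :
    CAlg ℓ γ g →+* Matrix (Fin (ℓ - 1)) (Fin (ℓ - 1)) F :=
  (LinearMap.toMatrixAlgEquiv (cb ℓ F) : _ →+* _).comp (rhoHom ℓ Q γ g v hv)

lemma rhoMat_scalar (v : F) (hv : v ^ (ℓ - 1) = Q g) (x : R) :
    rhoMat ℓ Q γ g v hv (algebraMap R _ x) = Matrix.scalar _ (Q x) := by
  have h : rhoHom ℓ Q γ g v hv (algebraMap R _ x) = algebraMap F _ (Q x) := by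
    ext c : 1
    change ((cyMap ℓ Q).mapMatrix (algebraMap R (Matrix (Fin (ℓ - 1)) (Fin (ℓ - 1)) (Cy ℓ R)) x)).mulVec
      (kap ℓ γ v c) ⟨0, ell_sub_pos ℓ⟩ = _
    have h2 : (cyMap ℓ Q).mapMatrix (algebraMap R (Matrix (Fin (ℓ - 1)) (Fin (ℓ - 1)) (Cy ℓ R)) x) =
        Q x • (1 : Matrix (Fin (ℓ - 1)) (Fin (ℓ - 1)) (Cy ℓ F)) := by
      ext i j
      simp only [RingHom.mapMatrix_apply, Matrix.map_apply, Matrix.algebraMap_eq_diagonal,
        Matrix.diagonal_apply, Matrix.smul_apply, Matrix.one_apply, Pi.algebraMap_apply]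
      split_ifs
      · rw [cyMap_alg, Algebra.smul_def, mul_one]
      · simp
    rw [h2, Matrix.smul_mulVec, Matrix.one_mulVec]
    simp [kap]
  change LinearMap.toMatrixAlgEquiv (cb ℓ F) (rhoHom ℓ Q γ g v hv (algebraMap R _ x)) = _
  rw [h, AlgEquiv.commutes]
  rfl

lemma rhoMat_intertwine (v : F) (hv : v ^ (ℓ - 1) = Q g) (φ : F →+* F) (hφ : ∀ x, φ (Q x) = Q x)
    (w : Cy ℓ F) (hw : φ v • sig ℓ γ w = v • w) (M : CAlg ℓ γ g) :
    (rhoMat ℓ Q γ g v hv M).map φ * Algebra.leftMulMatrix (cb ℓ F) w =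
      Algebra.leftMulMatrix (cb ℓ F) w * rhoMat ℓ Q γ g v hv M := by
  have hφv : (φ v) ^ (ℓ - 1) = Q g := by rw [← map_pow, hv, hφ]
  have h1 : (rhoMat ℓ Q γ g v hv M).map φ = rhoMat ℓ Q γ g (φ v) hφv M := by
    ext i j
    change φ (LinearMap.toMatrixAlgEquiv (cb ℓ F) (rhoLin ℓ Q γ g v M) i j) =
      LinearMap.toMatrixAlgEquiv (cb ℓ F) (rhoLin ℓ Q γ g (φ v) M) i j
    rw [LinearMap.toMatrixAlgEquiv_apply, LinearMap.toMatrixAlgEquiv_apply, ← cb_repr_map]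
    congr 2
    rw [rhoLin_apply, rhoLin_apply, map_sum]
    refine Finset.sum_congr rfl fun k _ => ?_
    rw [map_mul, cyMap_smul, cyMap_sig, cyMap_cb, map_pow]
    congr 1
    have h5 : (cyMap ℓ φ).comp (cyMap ℓ Q) = cyMap ℓ Q := by
      apply cy_hom_ext
      · intro r
        simp only [RingHom.coe_comp, Function.comp, cyMap_alg, hφ]
      · simp only [RingHom.coe_comp, Function.comp, cyMap_zeta]
    exact congrArg (fun f : Cy ℓ R →+* Cy ℓ F => f _) h5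
  rw [h1]
  have hwj : ∀ j : ℕ, (φ v) ^ j • sig ℓ (γ ^ j) w = v ^ j • w := by
    intro j
    induction j with
    | zero => simp [sig_one]
    | succ j ih =>
      rw [pow_succ γ, sig_mul, pow_succ, mul_smul, ← map_smul, hw, map_smul, smul_comm, ih, smul_smul,
        pow_succ, mul_comm]
  have h2 : rhoLin ℓ Q γ g (φ v) M * LinearMap.mulLeft F w = LinearMap.mulLeft F w * rhoLin ℓ Q γ g v M := by
    ext c : 1
    change rhoLin ℓ Q γ g (φ v) M (w * c) = w * rhoLin ℓ Q γ g v M c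
    rw [rhoLin_apply, rhoLin_apply, Finset.mul_sum]
    refine Finset.sum_congr rfl fun j _ => ?_
    rw [map_mul, ← smul_mul_assoc, hwj]
    simp only [smul_mul_assoc, mul_smul_comm]
    ring_nf
  have h3 := congrArg (LinearMap.toMatrixAlgEquiv (cb ℓ F)) h2
  rw [map_mul, map_mul] at h3
  exact h3

end rep

end Pool.Agent.TH952
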