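import Mathlib
import Pool.Agent.TH952.PlaceEll

set_option autoImplicit false
set_option linter.style.haveILetI false

namespace Pool.Agent.TH952

open scoped TensorProduct
open Polynomial

section gauss

variable (ℓ : ℕ) [Fact ℓ.Prime]

/-- Teichmüller character -/
noncomputable def tc (x : (ZMod ℓ)ˣ) : Wur ℓ :=
  WittVector.teichmuller ℓ (algebraMap (ZMod ℓ) (AlgebraicClosure (ZMod ℓ)) (x : ZMod ℓ))

lemma tc_mul (x y : (ZMod ℓ)ˣ) : tc ℓ (x * y) = tc ℓ x * tc ℓ y := by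
  unfold tc
  rw [Units.val_mul, map_mul, map_mul]

lemma tc_coeff (x : (ZMod ℓ)ˣ) : WittVector.constantCoeff (tc ℓ x) =
    algebraMap (ZMod ℓ) (AlgebraicClosure (ZMod ℓ)) (x : ZMod ℓ) :=
  WittVector.teichmuller_coeff_zero (p := ℓ) _

/-- the Gauss sum -/
noncomputable def gs : Cy ℓ (Wur ℓ) :=
  ∑ x : (ZMod ℓ)ˣ, algebraMap (Wur ℓ) (Cy ℓ (Wur ℓ)) (tc ℓ x⁻¹) * ee ℓ (Wur ℓ) x

lemma sig_gs (γ : (ZMod ℓ)ˣ) : sig ℓ γ (gs ℓ) = algebraMap (Wur ℓ) _ (tc ℓ γ) * gs ℓ := by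
  unfold gs
  rw [map_sum, Finset.mul_sum]
  refine Fintype.sum_equiv (Equiv.mulLeft γ) _ _ fun x => ?_
  rw [map_mul, AlgHom.commutes, sig_ee, Equiv.coe_mulLeft, ← mul_assoc, ← map_mul, ← tc_mul,
    Units.val_mul]
  congr 3
  rw [mul_inv, mul_inv_cancel_left]

lemma sum_tc (h2 : ℓ ≠ 2) : ∑ x : (ZMod ℓ)ˣ, tc ℓ x⁻¹ = 0 := by
  have h1 : tc ℓ (-1) * ∑ x : (ZMod ℓ)ˣ, tc ℓ x⁻¹ = ∑ x : (ZMod ℓ)ˣ, tc ℓ x⁻¹ := by
    rw [Finset.mul_sum]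
    refine Fintype.sum_equiv (Equiv.mulLeft (-1)) _ _ fun x => ?_
    rw [← tc_mul]
    congr 1
    simp
  have h3 : tc ℓ (-1) ≠ 1 := by
    intro h
    have h4 := congrArg WittVector.constantCoeff h
    rw [tc_coeff, map_one, ← map_one (algebraMap (ZMod ℓ) (AlgebraicClosure (ZMod ℓ)))] at h4
    have h5 := (algebraMap (ZMod ℓ) (AlgebraicClosure (ZMod ℓ))).injective h4
    rw [Units.val_neg, Units.val_one] at h5
    have : Fact (2 < ℓ) := ⟨lt_of_le_of_ne (Fact.out : ℓ.Prime).two_le (Ne.symm h2)⟩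
    exact ZMod.neg_one_ne_one h5
  have h6 : (tc ℓ (-1) - 1) * ∑ x : (ZMod ℓ)ˣ, tc ℓ x⁻¹ = 0 := by rw [sub_mul, h1, one_mul, sub_self]
  exact (mul_eq_zero.1 h6).resolve_left (sub_ne_zero.2 h3)

/-- the unit part -/
noncomputable def gy : Cy ℓ (Wur ℓ) :=
  - ∑ x : (ZMod ℓ)ˣ, algebraMap (Wur ℓ) (Cy ℓ (Wur ℓ)) (tc ℓ x⁻¹) *
    ∑ k ∈ Finset.range (x : ZMod ℓ).val, zeta ℓ (Wur ℓ) ^ k

lemma gs_eq (h2 : ℓ ≠ 2) : gs ℓ = (1 - zeta ℓ (Wur ℓ)) * gy ℓ := by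
  unfold gy gs
  rw [mul_neg, Finset.mul_sum, ← Finset.sum_neg_distrib]
  have h1 : ∑ x : (ZMod ℓ)ˣ, algebraMap (Wur ℓ) (Cy ℓ (Wur ℓ)) (tc ℓ x⁻¹) * 1 = 0 := by
    simp only [mul_one]
    rw [← map_sum, sum_tc ℓ h2, map_zero]
  rw [← sub_zero (∑ x : (ZMod ℓ)ˣ, algebraMap (Wur ℓ) (Cy ℓ (Wur ℓ)) (tc ℓ x⁻¹) * ee ℓ (Wur ℓ) x), ← h1,
    ← Finset.sum_sub_distrib]
  refine Finset.sum_congr rfl fun x _ => ?_
  rw [mul_left_comm, mul_neg_geom_sum]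
  change _ * zeta ℓ (Wur ℓ) ^ (x : ZMod ℓ).val - _ = _
  ring

lemma gy_red : ∃ q : Cy ℓ (AlgebraicClosure (ZMod ℓ)),
    cyMap ℓ (WittVector.constantCoeff : Wur ℓ →+* AlgebraicClosure (ZMod ℓ)) (gy ℓ) =
      1 + (1 - zeta ℓ (AlgebraicClosure (ZMod ℓ))) * q := by
  set κ := AlgebraicClosure (ZMod ℓ)
  have hd : (1 - zeta ℓ κ) ∣ cyMap ℓ (WittVector.constantCoeff : Wur ℓ →+* κ) (gy ℓ) - 1 := by
    have h1 : cyMap ℓ (WittVector.constantCoeff : Wur ℓ →+* κ) (gy ℓ) - 1 =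
        ∑ x : (ZMod ℓ)ˣ, algebraMap κ (Cy ℓ κ) (algebraMap (ZMod ℓ) κ ((x⁻¹ : (ZMod ℓ)ˣ) : ZMod ℓ)) *
          ∑ k ∈ Finset.range (x : ZMod ℓ).val, (1 - zeta ℓ κ ^ k) := by
      have h2 : ∑ x : (ZMod ℓ)ˣ, algebraMap κ (Cy ℓ κ) (algebraMap (ZMod ℓ) κ ((x⁻¹ : (ZMod ℓ)ˣ) : ZMod ℓ)) *
          ∑ k ∈ Finset.range (x : ZMod ℓ).val, (1 : Cy ℓ κ) = -1 := by
        have h3 : ∀ x : (ZMod ℓ)ˣ, algebraMap κ (Cy ℓ κ) (algebraMap (ZMod ℓ) κ ((x⁻¹ : (ZMod ℓ)ˣ) : ZMod ℓ)) *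
          ∑ k ∈ Finset.range (x : ZMod ℓ).val, (1 : Cy ℓ κ) = 1 := by
          intro x
          have h4 : ∑ k ∈ Finset.range (x : ZMod ℓ).val, (1 : Cy ℓ κ) =
              algebraMap κ (Cy ℓ κ) (algebraMap (ZMod ℓ) κ (x : ZMod ℓ)) := by
            rw [Finset.sum_const, Finset.card_range, nsmul_eq_mul, mul_one]
            conv_rhs => rw [← ZMod.natCast_zmod_val (x : ZMod ℓ)]
            simp only [map_natCast]
          rw [h4, ← map_mul, ← map_mul, ← Units.val_mul, inv_mul_cancel, Units.val_one, map_one, map_one]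
        rw [Finset.sum_congr rfl fun x _ => h3 x, Finset.sum_const, Finset.card_univ, ZMod.card_units,
          nsmul_eq_mul, mul_one]
        have h5 : ((ℓ - 1 : ℕ) : κ) = -1 := by
          rw [Nat.cast_sub (Fact.out : ℓ.Prime).one_le, CharP.cast_eq_zero, Nat.cast_one, zero_sub]
        have h6 := congrArg (algebraMap κ (Cy ℓ κ)) h5
        rwa [map_natCast, map_neg, map_one] at h6
      have h7 : cyMap ℓ (WittVector.constantCoeff : Wur ℓ →+* κ) (gy ℓ) = - ∑ x : (ZMod ℓ)ˣ,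
          algebraMap κ (Cy ℓ κ) (algebraMap (ZMod ℓ) κ ((x⁻¹ : (ZMod ℓ)ˣ) : ZMod ℓ)) *
          ∑ k ∈ Finset.range (x : ZMod ℓ).val, (zeta ℓ κ ^ k) := by
        unfold gy
        rw [map_neg, map_sum]
        congr 1
        refine Finset.sum_congr rfl fun x _ => ?_
        rw [map_mul, cyMap_alg, tc_coeff, map_sum]
        simp only [map_pow, cyMap_zeta]
        rfl
      rw [h7]
      simp only [Finset.sum_sub_distrib, mul_sub]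
      rw [h2]
      ring
    rw [h1]
    refine Finset.dvd_sum fun x _ => Dvd.dvd.mul_left (Finset.dvd_sum fun k _ => ?_) _
    have := sub_dvd_pow_sub_pow (1 : Cy ℓ κ) (zeta ℓ κ) k
    rwa [one_pow] at this
  obtain ⟨q, hq⟩ := hd
  exact ⟨q, by rw [← hq]; ring⟩

lemma norm_gy : ∃ e : (Wur ℓ)ˣ, Algebra.norm (Wur ℓ) (gy ℓ) = e := by
  set κ := AlgebraicClosure (ZMod ℓ)
  obtain ⟨q, hq⟩ := gy_red ℓ
  have hnt : Nontrivial (Cy ℓ κ) := AdjoinRoot.nontrivial _ (by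
    rw [degree_cyclotomic]
    exact_mod_cast (Nat.totient_pos.2 (Fact.out : ℓ.Prime).pos).ne')
  have hchar : CharP (Cy ℓ κ) ℓ := charP_of_injective_algebraMap
    (algebraMap κ (Cy ℓ κ)).injective ℓ
  have hn : (1 - zeta ℓ κ) ^ ℓ = 0 := by
    rw [sub_pow_char, one_pow, (zeta_isCycRoot ℓ κ).pow_eq_one, sub_self]
  have hnil : IsNilpotent ((1 - zeta ℓ κ) * q) := by
    refine ⟨ℓ, ?_⟩
    rw [mul_pow, hn, zero_mul]
  have hu : IsUnit (cyMap ℓ (WittVector.constantCoeff : Wur ℓ →+* κ) (gy ℓ)) := by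
    rw [hq]
    exact hnil.isUnit_one_add
  have h1 : IsUnit (Algebra.norm κ (cyMap ℓ (WittVector.constantCoeff : Wur ℓ →+* κ) (gy ℓ))) :=
    hu.map _
  rw [norm_cyMap] at h1
  have h2 : IsUnit (Algebra.norm (Wur ℓ) (gy ℓ)) := by
    apply WittVector.isUnit_of_coeff_zero_ne_zero
    exact h1.ne_zero
  obtain ⟨e, he⟩ := h2
  exact ⟨e, he.symm⟩

end gauss

end Pool.Agent.TH952
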