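import Mathlib
import Pool.Agent.TH952.Gauss

set_option autoImplicit false
set_option linter.style.haveILetI false

namespace Pool.Agent.TH952

open scoped TensorProduct
open Polynomial

section root

variable (ℓ : ℕ) [Fact ℓ.Prime]

/-- reduction modulo `ℓ` -/
noncomputable def redZ : ℤ_[ℓ] →+* ZMod ℓ := WittVector.constantCoeff.comp (WittVector.fromPadicInt ℓ)

lemma norm_lt_of_redZ (x : ℤ_[ℓ]) (h : redZ ℓ x = 0) : ‖x‖ < 1 := by
  rw [← PadicInt.not_isUnit_iff]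
  intro hu
  exact (hu.map (redZ ℓ)).ne_zero h

lemma exists_root (u : ℤ_[ℓ]ˣ) : ∃ v : Wur ℓ, v ≠ 0 ∧ v ^ (ℓ - 1) = iotaInt ℓ u ∧
    WittVector.frobenius v = tc ℓ (Units.map (redZ ℓ).toMonoidHom u) * v := by
  set ub : (ZMod ℓ)ˣ := Units.map (redZ ℓ).toMonoidHom u with hub
  set κ := AlgebraicClosure (ZMod ℓ)
  have hpos := ell_sub_pos ℓ
  set τ : ℤ_[ℓ] := WittVector.toPadicInt ℓ (WittVector.teichmuller ℓ ((ub⁻¹ : (ZMod ℓ)ˣ) : ZMod ℓ)) with hτ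
  have hτ1 : WittVector.fromPadicInt ℓ τ = WittVector.teichmuller ℓ ((ub⁻¹ : (ZMod ℓ)ˣ) : ZMod ℓ) :=
    WittVector.fromPadicInt_comp_toPadicInt_ext ℓ _
  have hτ2 : redZ ℓ τ = ((ub⁻¹ : (ZMod ℓ)ˣ) : ZMod ℓ) := by
    change WittVector.constantCoeff (WittVector.fromPadicInt ℓ τ) = _
    rw [hτ1]
    exact WittVector.teichmuller_coeff_zero (p := ℓ) _
  have hτ3 : iotaInt ℓ τ = tc ℓ ub⁻¹ := by
    change WittVector.map _ (WittVector.fromPadicInt ℓ τ) = _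
    rw [hτ1, WittVector.map_teichmuller]
    rfl
  set u₁ : ℤ_[ℓ] := u * τ with hu₁
  have hu1 : redZ ℓ (1 - u₁) = 0 := by
    rw [map_sub, map_one, hu₁, map_mul, hτ2]
    have : redZ ℓ u = (ub : ZMod ℓ) := rfl
    rw [this, ← Units.val_mul, mul_inv_cancel, Units.val_one, sub_self]
  have hn1 := norm_lt_of_redZ ℓ _ hu1
  have hcop : ‖((ℓ - 1 : ℕ) : ℤ_[ℓ])‖ = 1 := by
    rw [PadicInt.norm_natCast_eq_one_iff]
    exact (Nat.coprime_self_sub_right (Fact.out : ℓ.Prime).one_le).2 (Nat.coprime_one_right ℓ)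
  obtain ⟨t, ht, -⟩ := hensels_lemma (p := ℓ) (F := (X : ℤ_[ℓ][X]) ^ (ℓ - 1) - C u₁) (a := (1 : ℤ_[ℓ])) (by
    simp only [map_sub, map_pow, aeval_X, one_pow, aeval_C, derivative_X_pow, derivative_C,
      sub_zero, map_mul, map_natCast, Algebra.algebraMap_self, RingHom.id_apply, mul_one]
    rw [hcop, one_pow]
    exact hn1)
  have ht' : t ^ (ℓ - 1) = u₁ := by
    simp only [map_sub, map_pow, aeval_X, aeval_C, Algebra.algebraMap_self, RingHom.id_apply] at ht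
    exact sub_eq_zero.1 ht
  obtain ⟨b, hb⟩ := IsAlgClosed.exists_pow_nat_eq (algebraMap (ZMod ℓ) κ (ub : ZMod ℓ)) hpos
  have hb0 : b ≠ 0 := by
    rintro rfl
    rw [zero_pow hpos.ne'] at hb
    have h0 : algebraMap (ZMod ℓ) κ (ub : ZMod ℓ) ≠ 0 := by
      rw [Ne, map_eq_zero]
      exact ub.ne_zero
    exact h0 hb.symm
  have ht0 : t ≠ 0 := by
    rintro rfl
    rw [zero_pow hpos.ne'] at ht'
    rw [← ht', sub_zero, norm_one] at hn1
    exact lt_irrefl _ hn1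
  refine ⟨WittVector.teichmuller ℓ b * iotaInt ℓ t, ?_, ?_, ?_⟩
  · refine mul_ne_zero ?_ ?_
    · intro h
      have h1 := congrArg WittVector.constantCoeff h
      rw [map_zero] at h1
      exact hb0 h1
    · intro h
      exact ht0 (iotaInt_injective ℓ (by rw [h, map_zero]))
  · rw [mul_pow, ← map_pow, ← map_pow, ht', hb, hu₁, map_mul, hτ3]
    change tc ℓ ub * _ = _
    rw [mul_left_comm, ← tc_mul, mul_inv_cancel]
    unfold tc
    simp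
  · rw [map_mul, frobenius_teich, frob_iotaInt]
    have h5 : b ^ ℓ = algebraMap (ZMod ℓ) κ (ub : ZMod ℓ) * b := by
      rw [← hb, ← pow_succ, Nat.sub_add_cancel (Fact.out : ℓ.Prime).one_le]
    rw [h5, map_mul, mul_assoc]
    rfl

end root

section main

variable (ℓ : ℕ) [Fact ℓ.Prime] {R : Type} [CommRing R] [IsDomain R]

theorem hasInv_of_eq (h2 : ℓ ≠ 2) (P : R →+* ℚ_[ℓ]) (γ : (ZMod ℓ)ˣ) (g : Rˣ) (u : ℤ_[ℓ]ˣ)
    (hu : P g = ((u : ℤ_[ℓ]) : ℚ_[ℓ])) (m : ℕ)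
    (hm : (((γ ^ m : (ZMod ℓ)ˣ) : ZMod ℓ)) * redZ ℓ u = 1) :
    HasInv ℓ (Special P (CAlg ℓ γ g)) (((m : ℤ) : ℚ) / ((ℓ - 1 : ℕ) : ℚ)) := by
  obtain ⟨v₀, hv0, hv1, hv2⟩ := exists_root ℓ u
  set v : Fur ℓ := algebraMap (Wur ℓ) (Fur ℓ) v₀ with hv
  set Q : R →+* Fur ℓ := (iota ℓ).comp P with hQ
  have hQg : v ^ (ℓ - 1) = Q g := by
    rw [hv, ← map_pow, hv1, hQ, RingHom.comp_apply, hu, iota_int]
  have hφQ : ∀ x, (frob ℓ : Fur ℓ →+* Fur ℓ) (Q x) = Q x := fun x => frob_iota ℓ _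
  set w₀ : Cy ℓ (Fur ℓ) := cyMap ℓ (algebraMap (Wur ℓ) (Fur ℓ)) (gs ℓ) with hw₀
  have hsw : sig ℓ γ w₀ = algebraMap (Wur ℓ) (Fur ℓ) (tc ℓ γ) • w₀ := by
    rw [hw₀, ← cyMap_sig, sig_gs, map_mul, cyMap_alg, Algebra.smul_def]
  set w := w₀ ^ m with hw
  have hub : γ ^ m * Units.map (redZ ℓ).toMonoidHom u = 1 := by
    ext; exact hm
  have hww : (frob ℓ : Fur ℓ →+* Fur ℓ) v • sig ℓ γ w = v • w := by
    have h3 : (frob ℓ : Fur ℓ →+* Fur ℓ) v =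
        algebraMap (Wur ℓ) (Fur ℓ) (tc ℓ (Units.map (redZ ℓ).toMonoidHom u)) * v := by
      change frob ℓ v = _
      rw [hv, frob_alg, hv2, map_mul]
    have h4 : tc ℓ (Units.map (redZ ℓ).toMonoidHom u) * tc ℓ γ ^ m = 1 := by
      have h5 : ∀ k : ℕ, tc ℓ γ ^ k = tc ℓ (γ ^ k) := by
        intro k
        induction k with
        | zero => simp [tc]
        | succ k ih => rw [pow_succ, ih, pow_succ, tc_mul]
      rw [h5, ← tc_mul, mul_comm, hub]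
      simp [tc]
    rw [hw, map_pow, hsw, _root_.smul_pow, smul_smul, h3]
    congr 1
    have h6 := congrArg (algebraMap (Wur ℓ) (Fur ℓ)) h4
    rw [map_mul, map_pow, map_one] at h6
    linear_combination v * h6
  obtain ⟨ρ, hρ1, hρ2⟩ := exists_extend P (iota ℓ) (frob ℓ : Fur ℓ →+* Fur ℓ)
    (fun a => frob_iota ℓ a) (rhoMat ℓ Q γ g v hQg) (fun x => rhoMat_scalar ℓ Q γ g v hQg x)
    (Algebra.leftMulMatrix (cb ℓ (Fur ℓ)) w)
    (fun a => rhoMat_intertwine ℓ Q γ g v hQg (frob ℓ : Fur ℓ →+* Fur ℓ) hφQ w hww a)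
  obtain ⟨e, he⟩ := norm_gy ℓ
  have : Module.Free R (CAlg ℓ γ g) := CAlg_free ℓ γ g
  have : Module.Finite R (CAlg ℓ γ g) := CAlg_finite ℓ γ g
  refine ⟨ℓ - 1, ρ, _, m, e ^ m, ?_, hρ1, hρ2, ?_, rfl⟩
  · rw [finrank_special, CAlg_finrank]
  · rw [← Algebra.norm_eq_matrix_det, hw, map_pow, hw₀, gs_eq ℓ h2, map_mul, map_mul, map_sub, map_one,
      cyMap_zeta, norm_one_sub_zeta, norm_cyMap, he, mul_pow, Units.val_pow_eq_pow_val, map_pow, zpow_natCast]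

end main

end Pool.Agent.TH952
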