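import Mathlib
import Pool.Agent.TH952.Place

set_option autoImplicit false
set_option linter.style.haveILetI false

namespace Pool.Agent.TH952

open scoped TensorProduct
open Polynomial

section main

variable (ℓ : ℕ) [Fact ℓ.Prime] {R : Type} [CommRing R] [IsDomain R]

lemma gen_pow_half (h2 : ℓ ≠ 2) (γ : (ZMod ℓ)ˣ) (hγ : ∀ x : (ZMod ℓ)ˣ, x ∈ Subgroup.zpowers γ) :
    γ ^ ((ℓ - 1) / 2) = -1 := by
  have ho : orderOf γ = ℓ - 1 := by
    rw [orderOf_eq_card_of_forall_mem_zpowers hγ, Nat.card_eq_fintype_card, ZMod.card_units]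
  have hev : Even (ℓ - 1) := (Fact.out : ℓ.Prime).even_sub_one h2
  obtain ⟨m, hm⟩ := hev
  have hpos := ell_sub_pos ℓ
  have h1 : (γ ^ ((ℓ - 1) / 2)) ^ 2 = 1 := by
    rw [← pow_mul, Nat.div_mul_cancel ⟨m, by omega⟩, units_pow_card]
  have h3 : γ ^ ((ℓ - 1) / 2) ≠ 1 := by
    intro h
    have h4 := orderOf_dvd_of_pow_eq_one h
    rw [ho] at h4
    exact absurd (Nat.le_of_dvd (by omega) h4) (by omega)
  have h5 : (((γ ^ ((ℓ - 1) / 2) : (ZMod ℓ)ˣ) : ZMod ℓ)) ^ 2 = 1 := by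
    rw [← Units.val_pow_eq_pow_val, h1, Units.val_one]
  have h5' : (((γ ^ ((ℓ - 1) / 2) : (ZMod ℓ)ˣ) : ZMod ℓ)) = 1 ∨
      (((γ ^ ((ℓ - 1) / 2) : (ZMod ℓ)ˣ) : ZMod ℓ)) = -1 := sq_eq_one_iff.1 h5
  rcases h5' with h6 | h6
  · exact absurd (Units.ext h6) h3
  · ext; simpa using h6

theorem hasInvReal (h2 : ℓ ≠ 2) (P : R →+* ℝ) (γ : (ZMod ℓ)ˣ)
    (hγ : ∀ x : (ZMod ℓ)ˣ, x ∈ Subgroup.zpowers γ) (g : Rˣ) :
    HasInvReal (Special P (CAlg ℓ γ g)) (if 0 < P g then 0 else 1 / 2) := by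
  have hℓ0 : (ℓ : ℕ) ≠ 0 := (Fact.out : ℓ.Prime).ne_zero
  have hprim := Complex.isPrimitiveRoot_exp ℓ hℓ0
  set z : ℂ := Complex.exp (2 * Real.pi * Complex.I / ℓ) with hzdef
  have hz1 : z ≠ 1 := hprim.ne_one (Fact.out : ℓ.Prime).one_lt
  have hz : IsCycRoot ℓ z := by
    have h4 := mul_geom_sum z ℓ
    rw [hprim.pow_eq_one, sub_self] at h4
    exact (mul_eq_zero.1 h4).resolve_left (sub_ne_zero.2 hz1)
  have hconj : (starRingEnd ℂ) z = hz.ch (((γ ^ ((ℓ - 1) / 2) : (ZMod ℓ)ˣ) : ZMod ℓ)) := by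
    rw [gen_pow_half ℓ h2 γ hγ]
    have h5 : hz.ch ((-1 : (ZMod ℓ)ˣ) : ZMod ℓ) * z = 1 := by
      have h6 : hz.ch (1 : ZMod ℓ) = z := by
        have := hz.ch_natCast 1
        rwa [pow_one, Nat.cast_one] at this
      have h8 := AddChar.map_add_eq_mul hz.ch (-1) 1
      rw [neg_add_cancel, AddChar.map_zero_eq_one, h6] at h8
      rw [Units.val_neg, Units.val_one]
      exact h8.symm
    have h7 : (starRingEnd ℂ) z * z = 1 := by
      rw [mul_comm, Complex.mul_conj, Complex.normSq_eq_norm_sq]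
      have : ‖z‖ = 1 := hprim.norm'_eq_one hℓ0
      rw [this]; simp
    have hz0 : z ≠ 0 := hprim.ne_zero hℓ0
    exact mul_right_cancel₀ hz0 (h7.trans h5.symm)
  obtain ⟨r, hr1, hr2⟩ := exists_rep ℓ P Complex.ofRealHom γ g (starRingEnd ℂ)
    (fun a => Complex.conj_ofReal a) hz _ hconj
  obtain ⟨ρ, hρ1, hρ2⟩ := exists_extend P Complex.ofRealHom (starRingEnd ℂ)
    (fun a => Complex.conj_ofReal a) r hr1 _ hr2
  have : Module.Free R (CAlg ℓ γ g) := CAlg_free ℓ γ g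
  have : Module.Finite R (CAlg ℓ γ g) := CAlg_finite ℓ γ g
  refine ⟨ℓ - 1, ρ, _, P g, ?_, hρ1, hρ2, ?_, ?_⟩
  · rw [finrank_special, CAlg_finrank]
  · have h8 : (Umat (ℓ - 1) (Complex.ofRealHom (P g)) ^ ((ℓ - 1) / 2)).map (starRingEnd ℂ) =
        Umat (ℓ - 1) (Complex.ofRealHom (P g)) ^ ((ℓ - 1) / 2) := by
      have h9 := map_Umat (ℓ - 1) (starRingEnd ℂ) (Complex.ofRealHom (P g))
      have h10 : (starRingEnd ℂ) (Complex.ofRealHom (P g)) = Complex.ofRealHom (P g) := Complex.conj_ofReal _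
      rw [h10] at h9
      rw [← RingHom.mapMatrix_apply, map_pow, h9]
    rw [h8, ← pow_add]
    have hev : Even (ℓ - 1) := (Fact.out : ℓ.Prime).even_sub_one h2
    obtain ⟨m, hm⟩ := hev
    have h11 : (ℓ - 1) / 2 + (ℓ - 1) / 2 = ℓ - 1 := by omega
    rw [h11, Umat_pow_n]
    rfl
  · have hg : P g ≠ 0 := (g.isUnit.map P).ne_zero
    by_cases hpos : 0 < P g
    · left; exact ⟨hpos, if_pos hpos⟩
    · right; exact ⟨lt_of_le_of_ne (not_lt.1 hpos) hg, if_neg hpos⟩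

end main

end Pool.Agent.TH952
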