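import Mathlib
import Pool.Agent.TH952.EllPlace
import Pool.Agent.TH952.PlaceReal

set_option autoImplicit false
set_option linter.style.haveILetI false

namespace Pool.Agent.TH952

open scoped TensorProduct
open Polynomial

section unit

variable {R : Type} [CommRing R] [Algebra ℚ R]

/-- valuations of the components of `g` at an adelic point -/
noncomputable def AdelicPoint.val (P : AdelicPoint R) (g : Rˣ) (p : ℕ) : ℤ :=
  if hp : p.Prime then
    haveI := Fact.mk hp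
    (P.fin p g).valuation
  else 0

lemma AdelicPoint.val_prime (P : AdelicPoint R) (g : Rˣ) (p : ℕ) [hp : Fact p.Prime] :
    P.val g p = (P.fin p g).valuation := by
  unfold AdelicPoint.val
  rw [dif_pos hp.out]

lemma AdelicPoint.exists_bound (P : AdelicPoint R) (g : Rˣ) :
    ∃ N : ℕ, 2 ≤ N ∧ ∀ (p : ℕ) [Fact p.Prime], N < p → ‖P.fin p g‖ = 1 := by
  obtain ⟨N₁, h₁⟩ := P.integral g
  obtain ⟨N₂, h₂⟩ := P.integral (g⁻¹ : Rˣ)
  refine ⟨max 2 (max N₁ N₂), le_max_left _ _, ?_⟩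
  intro p _ hp
  have h3 := h₁ p (lt_of_le_of_lt ((le_max_left _ _).trans (le_max_right _ _)) hp)
  have h4 := h₂ p (lt_of_le_of_lt ((le_max_right _ _).trans (le_max_right _ _)) hp)
  have h5 : ‖P.fin p g‖ * ‖P.fin p ((g⁻¹ : Rˣ) : R)‖ = 1 := by
    rw [← norm_mul, ← map_mul, Units.mul_inv, map_one, norm_one]
  have h6 := norm_nonneg (P.fin p g)
  nlinarith

lemma val_eq_zero_of_norm (p : ℕ) [Fact p.Prime] (x : ℚ_[p]) (h : ‖x‖ = 1) : x.valuation = 0 := by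
  have hx : x ≠ 0 := by
    rintro rfl
    rw [norm_zero] at h
    exact zero_ne_one h
  rw [Padic.norm_eq_zpow_neg_valuation hx] at h
  have hp1 : (1 : ℝ) < p := by exact_mod_cast (Fact.out : p.Prime).one_lt
  have := (zpow_eq_one_iff_right₀ (by linarith) hp1.ne').1 h
  omega

lemma isUnit_prime (ℓ : ℕ) [Fact ℓ.Prime] (p : ℕ) (hp : p.Prime) (h : p ≠ ℓ) :
    IsUnit ((p : ℕ) : ℤ_[ℓ]) := by
  rw [PadicInt.isUnit_iff, PadicInt.norm_natCast_eq_one_iff]
  exact (Nat.coprime_primes Fact.out hp).2 (Ne.symm h)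

variable [IsDomain R]

/-- **Key lemma.** At a point of the Brauer–Manin set, every invertible function `g` takes values
which are congruent to a fixed rational number `c` modulo almost all primes. -/
theorem bm_unit (P : AdelicPoint R) (hP : P ∈ BrauerManinSet R) (g : Rˣ) :
    ∃ (c : ℚ) (N : ℕ), ∀ (ℓ : ℕ) [Fact ℓ.Prime], N < ℓ → ‖P.fin ℓ g - (c : ℚ_[ℓ])‖ < 1 := by
  obtain ⟨N, hN2, hN⟩ := P.exists_bound g
  set S := (Finset.range (N + 1)).filter Nat.Prime with hS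
  set c : ℚ := (if 0 < P.real g then 1 else -1) * ∏ p ∈ S, (p : ℚ) ^ (P.val g p) with hc
  refine ⟨c, N, ?_⟩
  intro ℓ hℓp hℓ
  have hℓ2 : ℓ ≠ 2 := by omega
  have hnorm := hN ℓ hℓ
  set u : ℤ_[ℓ]ˣ := PadicInt.mkUnits hnorm with hu
  have hPu : P.fin ℓ g = ((u : ℤ_[ℓ]) : ℚ_[ℓ]) := (PadicInt.mkUnits_eq hnorm).symm
  obtain ⟨γ, hγ⟩ := IsCyclic.exists_generator (α := (ZMod ℓ)ˣ)
  have hpow : ∀ x : (ZMod ℓ)ˣ, ∃ k : ℕ, γ ^ k = x := by
    intro x
    have := mem_powers_iff_mem_zpowers.2 (hγ x)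
    obtain ⟨k, hk⟩ := this
    exact ⟨k, hk⟩
  obtain ⟨m, hm⟩ := hpow (Units.map (redZ ℓ).toMonoidHom u)⁻¹
  have hs : ∀ p : ℕ, p.Prime → p ≠ ℓ → ∃ k : ℕ, ((γ ^ k : (ZMod ℓ)ˣ) : ZMod ℓ) = p := by
    intro p hp hpℓ
    have h1 := (isUnit_prime ℓ p hp hpℓ).map (redZ ℓ)
    rw [map_natCast] at h1
    obtain ⟨y, hy⟩ := h1
    obtain ⟨k, hk⟩ := hpow y
    exact ⟨k, by rw [hk, hy]⟩
  choose! s hs using hs
  have hℓR : IsUnit (ℓ : R) := by
    have h1 : IsUnit (ℓ : ℚ) := by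
      rw [isUnit_iff_ne_zero]
      exact_mod_cast hℓp.out.ne_zero
    have h2 := h1.map (algebraMap ℚ R)
    rwa [map_natCast] at h2
  have hAz : IsAzumaya R (CAlg ℓ γ g) := CAlg_isAzumaya ℓ γ hγ g hℓR
  have hmu : (((γ ^ m : (ZMod ℓ)ˣ) : ZMod ℓ)) * redZ ℓ u = 1 := by
    rw [hm]
    have : redZ ℓ u = ((Units.map (redZ ℓ).toMonoidHom u : (ZMod ℓ)ˣ) : ZMod ℓ) := rfl
    rw [this, ← Units.val_mul, inv_mul_cancel, Units.val_one]
  -- the invariants
  set q : ℕ → ℚ := fun p => if p = ℓ then ((m : ℤ) : ℚ) / ((ℓ - 1 : ℕ) : ℚ) else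
    ((P.val g p * (s p : ℤ) : ℤ) : ℚ) / ((ℓ - 1 : ℕ) : ℚ) with hq
  have hinv : ∀ (p : ℕ) [Fact p.Prime], HasInv p (Special (P.fin p : R →+* ℚ_[p]) (CAlg ℓ γ g)) (q p) := by
    intro p hp
    by_cases hpℓ : p = ℓ
    · subst hpℓ
      have h1 := hasInv_of_eq p hℓ2 (P.fin p : R →+* ℚ_[p]) γ g u hPu m hmu
      rw [hq]
      simp only [if_true]
      exact h1
    · have h1 := hasInv_of_ne p ℓ hpℓ (P.fin p : R →+* ℚ_[p]) γ g (s p) (hs p hp.out hpℓ)
      rw [hq]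
      simp only [if_neg hpℓ]
      rw [P.val_prime]
      exact h1
  obtain ⟨N', hN'1, k', hk'⟩ := hP (CAlg ℓ γ g) _ q
    (hasInvReal ℓ hℓ2 (P.real : R →+* ℝ) γ hγ g) hinv
  -- enlarge the range of summation
  set M := max N' ℓ with hM
  have hsumM : ∃ k : ℤ, (if 0 < (P.real : R →+* ℝ) g then (0 : ℚ) else 1 / 2) +
      ∑ p ∈ (Finset.range (M + 1)).filter Nat.Prime, q p = k := by
    have hsub : (Finset.range (N' + 1)).filter Nat.Prime ⊆ (Finset.range (M + 1)).filter Nat.Prime := by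
      intro p hp
      simp only [Finset.mem_filter, Finset.mem_range] at hp ⊢
      have := le_max_left N' ℓ
      exact ⟨by omega, hp.2⟩
    rw [← Finset.sum_sdiff hsub]
    have hint : ∃ k : ℤ, ∑ p ∈ (Finset.range (M + 1)).filter Nat.Prime \ (Finset.range (N' + 1)).filter Nat.Prime,
        q p = k := by
      have h1 : ∀ p ∈ (Finset.range (M + 1)).filter Nat.Prime \ (Finset.range (N' + 1)).filter Nat.Prime,
          ∃ k : ℤ, q p = k := by
        intro p hp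
        simp only [Finset.mem_sdiff, Finset.mem_filter, Finset.mem_range, not_and] at hp
        refine hN'1 p hp.1.2 ?_
        by_contra hcon
        exact hp.2 (by omega) hp.1.2
      choose! k hk using h1
      refine ⟨∑ p ∈ (Finset.range (M + 1)).filter Nat.Prime \ (Finset.range (N' + 1)).filter Nat.Prime, k p, ?_⟩
      rw [Int.cast_sum]
      exact Finset.sum_congr rfl hk
    obtain ⟨k, hk⟩ := hint
    refine ⟨k + k', ?_⟩
    rw [Int.cast_add, ← hk', ← hk]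
    ring
  obtain ⟨k, hk⟩ := hsumM
  have hsplit : ∑ p ∈ (Finset.range (M + 1)).filter Nat.Prime, q p =
      ((∑ p ∈ S, P.val g p * (s p : ℤ) + m : ℤ) : ℚ) / ((ℓ - 1 : ℕ) : ℚ) := by
    have hsub : insert ℓ S ⊆ (Finset.range (M + 1)).filter Nat.Prime := by
      intro p hp
      have h3 := le_max_right N' ℓ
      rw [Finset.mem_insert] at hp
      rcases hp with rfl | hp
      · simp only [Finset.mem_filter, Finset.mem_range]
        exact ⟨by omega, hℓp.out⟩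
      · simp only [hS, Finset.mem_filter, Finset.mem_range] at hp ⊢
        exact ⟨by omega, hp.2⟩
    have hℓS : ℓ ∉ S := by
      simp only [hS, Finset.mem_filter, Finset.mem_range, not_and]
      intro h; omega
    rw [← Finset.sum_subset hsub, Finset.sum_insert hℓS]
    · rw [Int.cast_add, add_div, add_comm]
      congr 1
      · rw [Int.cast_sum, Finset.sum_div]
        refine Finset.sum_congr rfl fun p hp => ?_
        have hpℓ : p ≠ ℓ := fun h => hℓS (h ▸ hp)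
        simp only [hq, if_neg hpℓ]
      · simp only [hq, if_true]
    · intro p hp hp2
      rw [Finset.mem_insert, not_or] at hp2
      have hpp : p.Prime := (Finset.mem_filter.1 hp).2
      have hpN : N < p := by
        by_contra hcon
        exact hp2.2 (by simp only [hS, Finset.mem_filter, Finset.mem_range]; exact ⟨by omega, hpp⟩)
      haveI := Fact.mk hpp
      simp only [hq, if_neg hp2.1]
      rw [P.val_prime, val_eq_zero_of_norm p _ (hN p hpN)]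
      simp
  rw [hsplit] at hk
  -- multiply by `ℓ - 1`
  have hpos := ell_sub_pos ℓ
  have hposQ : ((ℓ - 1 : ℕ) : ℚ) ≠ 0 := by exact_mod_cast hpos.ne'
  set e : ℕ := if 0 < P.real g then 0 else (ℓ - 1) / 2 with he
  have heq : (e : ℤ) + (∑ p ∈ S, P.val g p * (s p : ℤ) + m) = k * ((ℓ - 1 : ℕ) : ℤ) := by
    have hev : Even (ℓ - 1) := hℓp.out.even_sub_one hℓ2
    obtain ⟨r, hr⟩ := hev
    have h1 : (e : ℚ) = (if 0 < (P.real : R →+* ℝ) g then (0 : ℚ) else 1 / 2) * ((ℓ - 1 : ℕ) : ℚ) := by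
      rw [he]
      by_cases hpos' : 0 < P.real g
      · rw [if_pos hpos', if_pos (show 0 < (P.real : R →+* ℝ) g from hpos')]
        simp
      · rw [if_neg hpos', if_neg (show ¬ 0 < (P.real : R →+* ℝ) g from hpos')]
        have h2 : (ℓ - 1) / 2 = r := by omega
        rw [h2, hr]
        push_cast
        ring
    have h3 : (((e : ℤ) + (∑ p ∈ S, P.val g p * (s p : ℤ) + m) : ℤ) : ℚ) = ((k * ((ℓ - 1 : ℕ) : ℤ) : ℤ) : ℚ) := by
      rw [Int.cast_add, Int.cast_mul, ← hk, add_mul, div_mul_eq_mul_div, Int.cast_natCast, Int.cast_natCast,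
        mul_div_assoc, div_self hposQ, mul_one, ← h1]
    exact_mod_cast h3
  have hpowγ : γ ^ (e : ℤ) * (∏ p ∈ S, (γ ^ (s p : ℤ)) ^ (P.val g p)) * γ ^ (m : ℤ) = 1 := by
    have h1 : ∏ p ∈ S, (γ ^ (s p : ℤ)) ^ (P.val g p) = γ ^ (∑ p ∈ S, P.val g p * (s p : ℤ)) := by
      have h2 : ∀ T : Finset ℕ, ∏ p ∈ T, (γ ^ (s p : ℤ)) ^ (P.val g p) =
          γ ^ (∑ p ∈ T, P.val g p * (s p : ℤ)) := by
        intro T
        induction T using Finset.induction_on with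
        | empty => simp
        | insert a T ha ih =>
          rw [Finset.prod_insert ha, Finset.sum_insert ha, ih, zpow_add, ← zpow_mul, mul_comm (s a : ℤ)]
      exact h2 S
    rw [h1, mul_assoc, ← zpow_add, ← zpow_add, heq, mul_comm, zpow_mul, zpow_natCast, units_pow_card,
      one_zpow]
  -- the comparison in `ℤ_ℓˣ`
  have hℓS : ∀ p ∈ S, p ≠ ℓ := by
    intro p hp
    simp only [hS, Finset.mem_filter, Finset.mem_range] at hp
    omega
  have hex : ∀ p : ℕ, ∃ y : ℤ_[ℓ]ˣ, p ∈ S → ((y : ℤ_[ℓ]) = (p : ℤ_[ℓ])) := by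
    intro p
    by_cases hp : p ∈ S
    · have hpp : p.Prime := (Finset.mem_filter.1 hp).2
      obtain ⟨y, hy⟩ := isUnit_prime ℓ p hpp (hℓS p hp)
      exact ⟨y, fun _ => hy⟩
    · exact ⟨1, fun h => absurd h hp⟩
  choose y hy using hex
  set cu : ℤ_[ℓ]ˣ := (if 0 < P.real g then 1 else -1) * ∏ p ∈ S, (y p) ^ (P.val g p) with hcu
  have hcuc : (((cu : ℤ_[ℓ]ˣ) : ℤ_[ℓ]) : ℚ_[ℓ]) = (c : ℚ_[ℓ]) := by
    let coeH : ℤ_[ℓ]ˣ →* ℚ_[ℓ]ˣ := Units.map (algebraMap ℤ_[ℓ] ℚ_[ℓ]).toMonoidHom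
    have h1 : (((cu : ℤ_[ℓ]ˣ) : ℤ_[ℓ]) : ℚ_[ℓ]) = ((coeH cu : ℚ_[ℓ]ˣ) : ℚ_[ℓ]) := rfl
    rw [h1, hcu, map_mul, Units.val_mul, map_prod, Units.coe_prod, hc]
    rw [Rat.cast_mul, Rat.cast_prod]
    congr 1
    · split_ifs
      · simp
      · change (algebraMap ℤ_[ℓ] ℚ_[ℓ]) ((-1 : ℤ_[ℓ]ˣ) : ℤ_[ℓ]) = ((-1 : ℚ) : ℚ_[ℓ])
        simp
    · refine Finset.prod_congr rfl fun p hp => ?_
      rw [map_zpow, Units.val_zpow_eq_zpow_val, Rat.cast_zpow, Rat.cast_natCast]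
      congr 1
      change ((y p : ℤ_[ℓ]) : ℚ_[ℓ]) = _
      rw [hy p hp, PadicInt.coe_natCast]
  have hcur : Units.map (redZ ℓ).toMonoidHom cu = Units.map (redZ ℓ).toMonoidHom u := by
    have h1 : Units.map (redZ ℓ).toMonoidHom cu = γ ^ (e : ℤ) * (∏ p ∈ S, (γ ^ (s p : ℤ)) ^ (P.val g p)) := by
      rw [hcu, map_mul, map_prod]
      congr 1
      · rw [he]
        split_ifs
        · simp
        · rw [zpow_natCast, gen_pow_half ℓ hℓ2 γ hγ]
          ext; simp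
      · refine Finset.prod_congr rfl fun p hp => ?_
        rw [map_zpow]
        congr 1
        ext
        have hpp : p.Prime := (Finset.mem_filter.1 hp).2
        rw [zpow_natCast, hs p hpp (hℓS p hp)]
        change redZ ℓ (y p) = _
        rw [hy p hp, map_natCast]
    rw [h1]
    rw [zpow_natCast γ m, hm] at hpowγ
    exact (mul_inv_eq_one.1 hpowγ)
  rw [hPu, ← hcuc, ← PadicInt.coe_sub]
  have h9 : redZ ℓ ((u : ℤ_[ℓ]) - (cu : ℤ_[ℓ])) = 0 := by
    rw [map_sub, sub_eq_zero]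
    exact (congrArg Units.val hcur).symm
  exact norm_lt_of_redZ ℓ _ h9

lemma rat_eq_zero_of_norm (r : ℚ) (N : ℕ)
    (h : ∀ (ℓ : ℕ) [Fact ℓ.Prime], N < ℓ → ‖(r : ℚ_[ℓ])‖ < 1) : r = 0 := by
  by_contra hr
  obtain ⟨ℓ, hℓ1, hℓ2⟩ := Nat.exists_infinite_primes (N + r.num.natAbs + r.den + 1)
  haveI := Fact.mk hℓ2
  have h1 := h ℓ (by omega)
  have hnum : ‖((r.num : ℤ) : ℚ_[ℓ])‖ = 1 := by
    by_contra hcon
    have h2 : ‖((r.num : ℤ) : ℚ_[ℓ])‖ < 1 := lt_of_le_of_ne (Padic.norm_int_le_one _) hcon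
    rw [Padic.norm_intCast_lt_one_iff] at h2
    have h3 : ℓ ∣ r.num.natAbs := Int.natCast_dvd.1 h2
    have h4 : r.num.natAbs ≠ 0 := by
      rw [Ne, Int.natAbs_eq_zero, Rat.num_eq_zero]; exact hr
    have := Nat.le_of_dvd (Nat.pos_of_ne_zero h4) h3
    omega
  have hden : ‖((r.den : ℕ) : ℚ_[ℓ])‖ ≤ 1 := by
    have := Padic.norm_int_le_one (p := ℓ) (r.den : ℤ)
    simpa using this
  have hden0 : ((r.den : ℕ) : ℚ_[ℓ]) ≠ 0 := by exact_mod_cast r.den_ne_zero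
  have h5 : (r : ℚ_[ℓ]) * ((r.den : ℕ) : ℚ_[ℓ]) = ((r.num : ℤ) : ℚ_[ℓ]) := by
    rw [Rat.cast_def, div_mul_cancel₀ _ hden0]
  have h6 := congrArg norm h5
  rw [norm_mul, hnum] at h6
  have h7 := norm_nonneg (r : ℚ_[ℓ])
  have h8 := norm_nonneg ((r.den : ℕ) : ℚ_[ℓ])
  nlinarith

end unit

end Pool.Agent.TH952
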