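import Mathlib
import Pool.Agent.TH952.BMEmpty

set_option autoImplicit false
set_option linter.style.haveILetI false

namespace Pool.Agent.TH952

lemma no_rat_quartic (c y : ℚ) (hc : c ≠ 0) (h : y ^ 2 = c ^ 4 + 1) : False := by
  have hden : (c.den : ℚ) ≠ 0 := by exact_mod_cast c.den_ne_zero
  have hcc : c * c.den = c.num := Rat.mul_den_eq_num c
  have h1 : (y * (c.den : ℚ) ^ 2) ^ 2 = (((c.num) ^ 4 + (c.den : ℤ) ^ 4 : ℤ) : ℚ) := by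
    push_cast
    rw [← hcc]
    linear_combination (c.den : ℚ) ^ 4 * h
  have h2 : IsSquare ((((c.num) ^ 4 + (c.den : ℤ) ^ 4 : ℤ) : ℚ)) := ⟨y * (c.den : ℚ) ^ 2, by rw [← h1]; ring⟩
  rw [Rat.isSquare_intCast_iff] at h2
  obtain ⟨r, hr⟩ := h2
  refine not_fermat_42 (a := c.num) (b := (c.den : ℤ)) (c := r) ?_ ?_ ?_
  · rwa [Ne, Rat.num_eq_zero]
  · exact_mod_cast c.den_ne_zero
  · rw [hr]; ring

section norms

variable {ℓ : ℕ} [Fact ℓ.Prime]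

lemma lt1_mul {x y : ℚ_[ℓ]} (hx : ‖x‖ < 1) (hy : ‖y‖ ≤ 1) : ‖x * y‖ < 1 := by
  rw [norm_mul]
  have := norm_nonneg x
  have := norm_nonneg y
  nlinarith

lemma le1_mul {x y : ℚ_[ℓ]} (hx : ‖x‖ ≤ 1) (hy : ‖y‖ ≤ 1) : ‖x * y‖ ≤ 1 := by
  rw [norm_mul]
  have := norm_nonneg x
  have := norm_nonneg y
  nlinarith

lemma lt1_add {x y : ℚ_[ℓ]} (hx : ‖x‖ < 1) (hy : ‖y‖ < 1) : ‖x + y‖ < 1 :=
  lt_of_le_of_lt (Padic.nonarchimedean x y) (max_lt hx hy)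

lemma le1_add {x y : ℚ_[ℓ]} (hx : ‖x‖ ≤ 1) (hy : ‖y‖ ≤ 1) : ‖x + y‖ ≤ 1 :=
  (Padic.nonarchimedean x y).trans (max_le hx hy)

end norms

/-- The Brauer–Manin set of `Spec R` is empty if `R` has units `x`, `z` with `2x²z = z² - 1`. -/
theorem bm_empty {R : Type} [CommRing R] [Algebra ℚ R] [IsDomain R] (x z : Rˣ)
    (h : 2 * (x : R) ^ 2 * z = (z : R) ^ 2 - 1) : BrauerManinSet R = ∅ := by
  rw [Set.eq_empty_iff_forall_notMem]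
  intro P hP
  obtain ⟨c, N₁, hc⟩ := bm_unit P hP x
  obtain ⟨d, N₂, hd⟩ := bm_unit P hP z
  obtain ⟨N₃, -, hx⟩ := P.exists_bound x
  obtain ⟨N₄, -, hz⟩ := P.exists_bound z
  have hc0 : c ≠ 0 := by
    rintro rfl
    obtain ⟨ℓ, hℓ1, hℓ2⟩ := Nat.exists_infinite_primes (N₁ + N₃ + 1)
    haveI := Fact.mk hℓ2
    have h1 := hc ℓ (by omega)
    have h2 := hx ℓ (by omega)
    rw [Rat.cast_zero, sub_zero, h2] at h1
    exact lt_irrefl _ h1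
  have hr : 2 * c ^ 2 * d - d ^ 2 + 1 = 0 := by
    apply rat_eq_zero_of_norm _ (max (max N₁ N₂) (max N₃ N₄))
    intro ℓ _ hℓ
    simp only [max_lt_iff] at hℓ
    obtain ⟨⟨hℓ1, hℓ2⟩, hℓ3, hℓ4⟩ := hℓ
    set a := P.fin ℓ x with ha
    set b := P.fin ℓ z with hb
    have h1 : ‖a - (c : ℚ_[ℓ])‖ < 1 := hc ℓ hℓ1
    have h2 : ‖b - (d : ℚ_[ℓ])‖ < 1 := hd ℓ hℓ2
    have h3 : ‖a‖ ≤ 1 := (hx ℓ hℓ3).le
    have h4 : ‖b‖ ≤ 1 := (hz ℓ hℓ4).le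
    have h1' : ‖(c : ℚ_[ℓ]) - a‖ < 1 := by rwa [norm_sub_rev]
    have h2' : ‖(d : ℚ_[ℓ]) - b‖ < 1 := by rwa [norm_sub_rev]
    have h5 : ‖(c : ℚ_[ℓ])‖ ≤ 1 := by
      have : (c : ℚ_[ℓ]) = (c - a) + a := by ring
      rw [this]; exact le1_add h1'.le h3
    have h6 : ‖(d : ℚ_[ℓ])‖ ≤ 1 := by
      have : (d : ℚ_[ℓ]) = (d - b) + b := by ring
      rw [this]; exact le1_add h2'.le h4
    have h7 : 2 * a ^ 2 * b = b ^ 2 - 1 := by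
      rw [ha, hb]
      have := congrArg (P.fin ℓ) h
      simpa [map_ofNat] using this
    have h8 : (((2 * c ^ 2 * d - d ^ 2 + 1 : ℚ)) : ℚ_[ℓ]) =
        (((c : ℚ_[ℓ]) - a) * ((c + a) * (d + d))) + ((d - b) * (a * (a + a))) + ((b - d) * (b + d)) := by
      push_cast
      linear_combination h7
    rw [h8]
    refine lt1_add (lt1_add ?_ ?_) ?_
    · exact lt1_mul h1' (le1_mul (le1_add h5 h3) (le1_add h6 h6))
    · exact lt1_mul h2' (le1_mul h3 (le1_add h3 h3))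
    · exact lt1_mul h2 (le1_add h4 h6)
  refine no_rat_quartic c (d - c ^ 2) hc0 ?_
  linear_combination -hr

end Pool.Agent.TH952
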