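import Mathlib

set_option autoImplicit false
set_option linter.style.haveILetI false

namespace Pool.Agent.TH952

open Polynomial

section norm

variable (K : Type) [Field K]

/-- the field of Hahn series with exponents in `ℚ` -/
abbrev Hah : Type := HahnSeries ℚ K

variable {K}

open Classical in
/-- the absolute value -/
noncomputable def hn (x : Hah K) : ℝ := if x = 0 then 0 else Real.exp (-(x.order : ℝ))

lemma hn_zero : hn (0 : Hah K) = 0 := if_pos rfl

lemma hn_of_ne {x : Hah K} (hx : x ≠ 0) : hn x = Real.exp (-(x.order : ℝ)) := if_neg hx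

lemma hn_nonneg (x : Hah K) : 0 ≤ hn x := by
  unfold hn
  split_ifs
  · exact le_rfl
  · exact (Real.exp_pos _).le

lemma hn_eq_zero (x : Hah K) : hn x = 0 ↔ x = 0 := by
  constructor
  · intro h
    by_contra hx
    rw [hn_of_ne hx] at h
    exact (Real.exp_pos _).ne' h
  · rintro rfl; exact hn_zero

lemma hn_mul (x y : Hah K) : hn (x * y) = hn x * hn y := by
  by_cases hx : x = 0
  · subst hx; rw [zero_mul, hn_zero, zero_mul]
  by_cases hy : y = 0
  · subst hy; rw [mul_zero, hn_zero, mul_zero]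
  rw [hn_of_ne hx, hn_of_ne hy, hn_of_ne (mul_ne_zero hx hy), HahnSeries.order_mul hx hy, ← Real.exp_add]
  congr 1
  push_cast
  ring

lemma hn_add (x y : Hah K) : hn (x + y) ≤ max (hn x) (hn y) := by
  by_cases hx : x = 0
  · subst hx; rw [zero_add]; exact le_max_right _ _
  by_cases hy : y = 0
  · subst hy; rw [add_zero]; exact le_max_left _ _
  by_cases hxy : x + y = 0
  · rw [hxy, hn_zero]; exact (hn_nonneg _).trans (le_max_left _ _)
  have h := HahnSeries.min_order_le_order_add hxy
  rw [hn_of_ne hx, hn_of_ne hy, hn_of_ne hxy]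
  rcases min_le_iff.1 h with h1 | h1
  · refine le_max_of_le_left (Real.exp_le_exp.2 (neg_le_neg ?_))
    exact_mod_cast h1
  · refine le_max_of_le_right (Real.exp_le_exp.2 (neg_le_neg ?_))
    exact_mod_cast h1

lemma hn_lt_iff (x : Hah K) (r : ℚ) : hn x < Real.exp (-(r : ℝ)) ↔ ∀ q ≤ r, x.coeff q = 0 := by
  by_cases hx : x = 0
  · subst hx
    rw [hn_zero]
    simp [Real.exp_pos]
  rw [hn_of_ne hx, Real.exp_lt_exp, neg_lt_neg_iff]
  constructor
  · intro h q hq
    have h1 : r < x.order := by exact_mod_cast h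
    exact HahnSeries.coeff_eq_zero_of_lt_order (lt_of_le_of_lt hq h1)
  · intro h
    by_contra hcon
    have h1 : x.order ≤ r := by exact_mod_cast not_lt.1 hcon
    exact HahnSeries.coeff_order_eq_zero.not.2 hx (h _ h1)

variable (K) in
/-- the absolute value -/
noncomputable def hAbs : AbsoluteValue (Hah K) ℝ where
  toFun := hn
  map_mul' := hn_mul
  nonneg' := hn_nonneg
  eq_zero' := hn_eq_zero
  add_le' x y := (hn_add x y).trans (max_le (le_add_of_nonneg_right (hn_nonneg y))
    (le_add_of_nonneg_left (hn_nonneg x)))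

variable (K) in
/-- the normed field structure -/
@[instance_reducible]
noncomputable def hNF : NormedField (Hah K) := (hAbs K).toNormedField

lemma hn_single {q : ℚ} {a : K} (ha : a ≠ 0) : hn (HahnSeries.single q a) = Real.exp (-(q : ℝ)) := by
  rw [hn_of_ne (by simpa using ha), HahnSeries.order_single ha]

lemma hn_C {a : K} (ha : a ≠ 0) : hn (HahnSeries.C a : Hah K) = 1 := by
  rw [HahnSeries.C_apply, hn_single ha]; simp

variable (K) in
/-- the nontrivially normed field structure -/
@[instance_reducible]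
noncomputable def hNNF : NontriviallyNormedField (Hah K) where
  __ := hNF K
  non_trivial := by
    refine ⟨HahnSeries.single (-1) 1, ?_⟩
    change 1 < hn (HahnSeries.single (-1) 1 : Hah K)
    rw [hn_single one_ne_zero]
    simp

lemma h_ultra : letI := hNNF K; IsUltrametricDist (Hah K) := by
  letI := hNNF K
  exact IsUltrametricDist.isUltrametricDist_of_forall_norm_add_le_max_norm hn_add

/-- glueing Hahn series whose truncations are compatible -/
lemma exists_lim (u : ℕ → Hah K) (hu : ∀ N n m : ℕ, N ≤ n → N ≤ m → hn (u n - u m) < Real.exp (-(N : ℝ))) :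
    ∃ x : Hah K, ∀ n : ℕ, ∀ q : ℚ, q ≤ n → x.coeff q = (u n).coeff q := by
  have hu' : ∀ N n m : ℕ, N ≤ n → N ≤ m → ∀ q : ℚ, q ≤ N → (u n).coeff q = (u m).coeff q := by
    intro N n m hn' hm q hq
    have h1 := hu N n m hn' hm
    have h2 := (hn_lt_iff (u n - u m) (N : ℚ)).1 (by simpa using h1) q hq
    rw [HahnSeries.coeff_sub] at h2
    exact sub_eq_zero.1 h2
  set c : ℚ → K := fun q => (u ⌈q⌉₊).coeff q with hc
  have hcn : ∀ n : ℕ, ∀ q : ℚ, q ≤ n → c q = (u n).coeff q := by
    intro n q hq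
    rw [hc]
    refine hu' ⌈q⌉₊ ⌈q⌉₊ n le_rfl ?_ q (Nat.le_ceil q)
    exact Nat.ceil_le.2 hq
  have hpwo : (Function.support c).IsPWO := by
    rw [Set.isPWO_iff_isWF]
    rw [Set.isWF_iff_no_descending_seq]
    intro f hf hmem
    set N := ⌈f 0⌉₊
    have h1 : ∀ n, f n ∈ Function.support (u N).coeff := by
      intro n
      have h2 : f n ≤ N := (hf.antitone (Nat.zero_le n)).trans (Nat.le_ceil _)
      have h3 := hmem n
      rw [Function.mem_support] at h3 ⊢
      rwa [← hcn N _ h2]
    have h4 := (u N).isPWO_support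
    have h5 : (u N).support.IsWF := h4.isWF
    rw [Set.isWF_iff_no_descending_seq] at h5
    exact h5 f hf h1
  exact ⟨⟨c, hpwo⟩, hcn⟩

lemma h_complete : letI := hNNF K; CompleteSpace (Hah K) := by
  letI := hNNF K
  refine Metric.complete_of_convergent_controlled_sequences (fun n => Real.exp (-(n : ℝ)))
    (fun n => Real.exp_pos _) ?_
  intro u hu
  have hu' : ∀ N n m : ℕ, N ≤ n → N ≤ m → hn (u n - u m) < Real.exp (-(N : ℝ)) := by
    intro N n m h1 h2
    have := hu N n m h1 h2
    rwa [dist_eq_norm] at this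
  obtain ⟨x, hx⟩ := exists_lim u hu'
  refine ⟨x, ?_⟩
  rw [Metric.tendsto_atTop]
  intro ε hε
  obtain ⟨N, hN⟩ : ∃ N : ℕ, Real.exp (-(N : ℝ)) < ε := by
    obtain ⟨N, hN⟩ := exists_nat_gt (-Real.log ε)
    refine ⟨N, ?_⟩
    rw [← Real.lt_log_iff_exp_lt hε]
    linarith
  refine ⟨N, fun n hn' => ?_⟩
  rw [dist_eq_norm]
  refine lt_of_lt_of_le ?_ hN.le
  change hn (u n - x) < _
  have h3 := (hn_lt_iff (u n - x) (N : ℚ)).2 (by
    intro q hq
    rw [HahnSeries.coeff_sub, hx n q (hq.trans (by exact_mod_cast hn')), sub_self])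
  simpa using h3

end norm

end Pool.Agent.TH952
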