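import Mathlib
import Pool.Agent.TH952.Hahn

set_option autoImplicit false
set_option linter.style.haveILetI false

namespace Pool.Agent.TH952

open Polynomial

section general

variable {Ω K : Type} [NontriviallyNormedField Ω] [IsUltrametricDist Ω] [CompleteSpace Ω]
  [CharZero Ω] [Field K] [IsAlgClosed K] [CharZero K]

omit [CompleteSpace Ω] [CharZero Ω] in
lemma sum_lt_one {ι : Type} (s : Finset ι) (f : ι → Ω) (h : ∀ i ∈ s, ‖f i‖ < 1) :
    ‖∑ i ∈ s, f i‖ < 1 := by
  classical
  induction s using Finset.induction_on with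
  | empty => simp
  | insert a s ha ih =>
    rw [Finset.sum_insert ha]
    exact lt_of_le_of_lt (IsUltrametricDist.norm_add_le_max _ _)
      (max_lt (h a (Finset.mem_insert_self _ _)) (ih fun i hi => h i (Finset.mem_insert_of_mem hi)))

/-- A complete ultrametric field of characteristic zero with divisible value group and
algebraically closed residue field of characteristic zero is algebraically closed. -/
theorem isAlgClosed_of_residue (Cc : K →+* Ω) (c0 : Ω → K)
    (h1 : ∀ x, ‖x‖ ≤ 1 → ‖x - Cc (c0 x)‖ < 1) (h2 : ∀ a : K, a ≠ 0 → ‖Cc a‖ = 1)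
    (h3 : ∀ x : Ω, x ≠ 0 → ∀ n : ℕ, 0 < n → ∃ t : Ω, ‖t‖ ^ n = ‖x‖) : IsAlgClosed Ω := by
  have hCle : ∀ a : K, ‖Cc a‖ ≤ 1 := by
    intro a
    by_cases ha : a = 0
    · subst ha; simp
    · exact (h2 a ha).le
  -- the key claim
  have key : ∀ β : AlgebraicClosure Ω, Algebra.normalizedTrace Ω (AlgebraicClosure Ω) β = 0 → β = 0 := by
    intro β hβ
    by_contra hβ0
    have hint : IsIntegral Ω β := Algebra.IsIntegral.isIntegral β
    have hn := minpoly.natDegree_pos hint
    have ha0 : (minpoly Ω β).coeff 0 ≠ 0 := minpoly.coeff_zero_ne_zero hint hβ0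
    obtain ⟨t, ht⟩ := h3 _ ha0 _ hn
    have ht0 : t ≠ 0 := by
      rintro rfl
      rw [norm_zero, zero_pow hn.ne'] at ht
      exact ha0 (norm_eq_zero.1 ht.symm)
    have hsβ : spectralNorm Ω (AlgebraicClosure Ω) β = ‖t‖ := by
      rw [spectralNorm.spectralNorm_eq_norm_coeff_zero_rpow, ← ht, one_div,
        Real.pow_rpow_inv_natCast (norm_nonneg t) hn.ne']
    set γ := t⁻¹ • β with hγ
    have hsγ : spectralNorm Ω (AlgebraicClosure Ω) γ = 1 := by
      rw [hγ, spectralNorm_smul _ (Algebra.IsAlgebraic.isAlgebraic β), hsβ]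
      rw [coe_nnnorm, norm_inv, inv_mul_cancel₀ (norm_ne_zero_iff.2 ht0)]
    have htγ : Algebra.normalizedTrace Ω (AlgebraicClosure Ω) γ = 0 := by
      rw [hγ, map_smul, hβ, smul_zero]
    have hintγ : IsIntegral Ω γ := Algebra.IsIntegral.isIntegral γ
    set p := minpoly Ω γ with hp
    have hpm : p.Monic := minpoly.monic hintγ
    have hN : 0 < p.natDegree := minpoly.natDegree_pos hintγ
    have hcoef : ∀ i, ‖p.coeff i‖ ≤ 1 := (spectralValue_le_one_iff hpm).1 hsγ.le
    -- the reduction
    set r : K[X] := ∑ i ∈ Finset.range (p.natDegree + 1), monomial i (c0 (p.coeff i)) with hr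
    have hrc : r.coeff p.natDegree = c0 1 := by
      rw [hr, finsetSum_coeff, Finset.sum_eq_single p.natDegree]
      · rw [coeff_monomial, if_pos rfl, hpm.coeff_natDegree]
      · intro b _ hb
        rw [coeff_monomial, if_neg hb]
      · intro h
        exact absurd (Finset.mem_range.2 (Nat.lt_succ_self _)) h
    have hc01 : c0 1 ≠ 0 := by
      intro h
      have := h1 1 (by rw [norm_one])
      rw [h, map_zero, sub_zero, norm_one] at this
      exact lt_irrefl _ this
    have hrd : r.degree ≠ 0 := by
      intro h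
      have h4 : r.coeff p.natDegree = 0 := coeff_eq_zero_of_degree_lt (by rw [h]; exact_mod_cast hN)
      exact hc01 (hrc.symm.trans h4)
    obtain ⟨a, ha⟩ := IsAlgClosed.exists_root r hrd
    have ha' : ∑ i ∈ Finset.range (p.natDegree + 1), c0 (p.coeff i) * a ^ i = 0 := by
      rw [IsRoot, hr, eval_finsetSum] at ha
      simpa [eval_monomial] using ha
    have heval : ‖p.eval (Cc a)‖ < 1 := by
      have h5 : p.eval (Cc a) = ∑ i ∈ Finset.range (p.natDegree + 1),
          (p.coeff i - Cc (c0 (p.coeff i))) * (Cc a) ^ i := by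
        rw [eval_eq_sum_range]
        have h6 := congrArg Cc ha'
        rw [map_sum, map_zero] at h6
        rw [← sub_zero (∑ i ∈ Finset.range (p.natDegree + 1), p.coeff i * (Cc a) ^ i), ← h6,
          ← Finset.sum_sub_distrib]
        refine Finset.sum_congr rfl fun i _ => ?_
        rw [map_mul, map_pow]; ring
      rw [h5]
      refine sum_lt_one _ _ fun i _ => ?_
      rw [norm_mul, norm_pow]
      have h7 := h1 _ (hcoef i)
      have h8 : ‖Cc a‖ ^ i ≤ 1 := pow_le_one₀ (norm_nonneg _) (hCle a)
      have h9 := norm_nonneg (p.coeff i - Cc (c0 (p.coeff i)))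
      have h10 : 0 ≤ ‖Cc a‖ ^ i := pow_nonneg (norm_nonneg _) _
      nlinarith
    set γ' := γ - algebraMap Ω (AlgebraicClosure Ω) (Cc a) with hγ'
    have hmin : minpoly Ω γ' = p.comp (X + C (Cc a)) := by
      rw [hγ', minpoly.sub_algebraMap]
    have hdeg : (minpoly Ω γ').natDegree = p.natDegree := by
      rw [hmin, natDegree_comp, natDegree_X_add_C, mul_one]
    have hc0' : (minpoly Ω γ').coeff 0 = p.eval (Cc a) := by
      rw [hmin, coeff_zero_eq_eval_zero, eval_comp]; simp
    have hsγ' : spectralNorm Ω (AlgebraicClosure Ω) γ' < 1 := by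
      rw [spectralNorm.spectralNorm_eq_norm_coeff_zero_rpow, hc0', hdeg]
      exact Real.rpow_lt_one (norm_nonneg _) heval (by positivity)
    have hnext : ‖(minpoly Ω γ').nextCoeff‖ < 1 := by
      rw [nextCoeff_of_natDegree_pos (by rw [hdeg]; exact hN), hdeg]
      refine lt_of_le_of_lt ?_ hsγ'
      have h11 : spectralValueTerms (minpoly Ω γ') (p.natDegree - 1) ≤ spectralNorm Ω (AlgebraicClosure Ω) γ' :=
        le_ciSup (spectralValueTerms_bddAbove _) _
      rw [spectralValueTerms_of_lt_natDegree _ (by omega), hdeg] at h11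
      have h12 : (1 / ((p.natDegree : ℝ) - ((p.natDegree - 1 : ℕ) : ℝ))) = 1 := by
        rw [Nat.cast_sub hN]
        simp
      rwa [h12, Real.rpow_one] at h11
    have htr : (minpoly Ω γ').nextCoeff = Cc ((p.natDegree : K) * a) := by
      have h13 := Algebra.normalizedTrace_minpoly Ω γ'
      have h14 : Algebra.normalizedTrace Ω (AlgebraicClosure Ω) γ' = - Cc a := by
        rw [hγ', map_sub, htγ, Algebra.normalizedTrace_algebraMap_apply Ω Ω (AlgebraicClosure Ω),
          Algebra.normalizedTrace_self_apply, zero_sub]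
      rw [h14, hdeg, smul_eq_mul] at h13
      have h15 : (p.natDegree : Ω) ≠ 0 := by exact_mod_cast hN.ne'
      field_simp at h13
      rw [map_mul, map_natCast]
      linear_combination h13
    have ha0' : a = 0 := by
      by_contra hane
      have h16 : (p.natDegree : K) * a ≠ 0 := mul_ne_zero (by exact_mod_cast hN.ne') hane
      rw [htr, h2 _ h16] at hnext
      exact lt_irrefl _ hnext
    rw [hγ', ha0', map_zero, map_zero, sub_zero, hsγ] at hsγ'
    exact lt_irrefl _ hsγ'
  refine IsAlgClosed.of_exists_root Ω fun p hpm hpi => ?_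
  obtain ⟨α, hα⟩ := IsAlgClosed.exists_aeval_eq_zero (AlgebraicClosure Ω) p
    hpi.degree_pos.ne'
  set c := Algebra.normalizedTrace Ω (AlgebraicClosure Ω) α with hc
  have h := key (α - algebraMap Ω _ c) (by
    rw [map_sub, Algebra.normalizedTrace_algebraMap_apply Ω Ω (AlgebraicClosure Ω),
      Algebra.normalizedTrace_self_apply, sub_self])
  refine ⟨c, ?_⟩
  rw [sub_eq_zero] at h
  rw [h, aeval_algebraMap_apply, map_eq_zero] at hα
  simpa using hα

end general

section hahn

variable (K : Type) [Field K] [IsAlgClosed K] [CharZero K]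

instance : CharZero (Hah K) := charZero_of_injective_algebraMap (R := K) (algebraMap K (Hah K)).injective

instance hahn_isAlgClosed : IsAlgClosed (Hah K) := by
  letI := hNNF K
  haveI := h_ultra (K := K)
  haveI := h_complete (K := K)
  refine isAlgClosed_of_residue (Ω := Hah K) (K := K) HahnSeries.C (fun x => x.coeff 0) ?_ ?_ ?_
  · intro x hx
    change hn (x - HahnSeries.C (x.coeff 0)) < 1
    have h0 := (hn_lt_iff (x - HahnSeries.C (x.coeff 0)) 0).2 (by
      intro q hq
      rw [HahnSeries.coeff_sub]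
      rcases hq.lt_or_eq with h | h
      · rw [HahnSeries.C_apply, HahnSeries.coeff_single_of_ne h.ne, sub_zero]
        by_cases hx0 : x = 0
        · subst hx0; simp
        have h3 : hn x ≤ 1 := hx
        rw [hn_of_ne hx0, Real.exp_le_one_iff] at h3
        have h4 : (0 : ℝ) ≤ (x.order : ℝ) := by linarith
        have h5 : (0 : ℚ) ≤ x.order := by exact_mod_cast h4
        exact HahnSeries.coeff_eq_zero_of_lt_order (lt_of_lt_of_le h h5)
      · subst h
        rw [HahnSeries.C_apply, HahnSeries.coeff_single_same, sub_self])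
    simpa using h0
  · intro a ha
    exact hn_C ha
  · intro x hx n hn'
    refine ⟨HahnSeries.single (x.order / n) 1, ?_⟩
    change hn (HahnSeries.single (x.order / n) 1 : Hah K) ^ n = hn x
    rw [hn_single one_ne_zero, hn_of_ne hx, ← Real.exp_nat_mul]
    congr 1
    have : (n : ℝ) ≠ 0 := by exact_mod_cast hn'.ne'
    push_cast
    field_simp

end hahn

end Pool.Agent.TH952
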