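import Mathlib

set_option autoImplicit false

/-!
# The étale fundamental group of a scheme and the splitting condition
-/

namespace Pool.Agent.TH952

open CategoryTheory AlgebraicGeometry

/-- The algebraic closure of `ℚ`. -/
abbrev Qbar : Type := AlgebraicClosure ℚ

/-- The absolute Galois group of `ℚ`, with its Krull topology. -/
abbrev GQ : Type := Qbar ≃ₐ[ℚ] Qbar

/-- The category of finite étale covers of a scheme `S`: a full subcategory of the category of
schemes over `S`. -/
abbrev Cov (S : Scheme.{0}) : Type 1 :=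
  ObjectProperty.FullSubcategory (C := Over S) (fun Y => IsFinite Y.hom ∧ Etale Y.hom)

/-- The fibre functor of the geometric point `s` of `S` defined over `ℚ̄`: it sends a finite étale
cover `Y` of `S` to the set of `ℚ̄`-points of `Y` above `s`. -/
noncomputable def fib {S : Scheme.{0}} (s : Spec (CommRingCat.of Qbar) ⟶ S) : Cov S ⥤ Type where
  obj Y := {y : Spec (CommRingCat.of Qbar) ⟶ Y.obj.left // y ≫ Y.obj.hom = s}
  map {Y Y'} f := ↾ fun y => ⟨y.1 ≫ f.hom.left, by
    rw [Category.assoc, Over.w, y.2]⟩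

/-- The étale fundamental group `π₁(S, s)`: the automorphism group of the fibre functor. -/
abbrev Pi1 {S : Scheme.{0}} (s : Spec (CommRingCat.of Qbar) ⟶ S) : Type 1 := Aut (fib s)

/-- The action of `π₁(S, s)` on the fibres. -/
noncomputable def Pi1.act {S : Scheme.{0}} {s : Spec (CommRingCat.of Qbar) ⟶ S} (γ : Pi1 s) {Y : Cov S}
    (y : (fib s).obj Y) : (fib s).obj Y :=
  γ.hom.app Y y

/-- The topology of `π₁(S, s)`: the coarsest topology for which `γ ↦ γ y` is continuous (for the
discrete topology on the fibre) for every point `y` of every fibre. -/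
noncomputable instance {S : Scheme.{0}} (s : Spec (CommRingCat.of Qbar) ⟶ S) : TopologicalSpace (Pi1 s) :=
  ⨅ (Y : Cov S) (y : (fib s).obj Y), TopologicalSpace.induced (fun γ : Pi1 s => γ.act y) ⊥

/-- `γ ∈ π₁(S, s)` is mapped to `σ ∈ Gal(ℚ̄/ℚ)` by the homomorphism `π₁(S, s) → Gal(ℚ̄/ℚ)` induced by
the structure morphism `S → Spec ℚ`: for every finite étale `ℚ`-scheme `Z`, every finite étale cover
`Y` of `S` and every morphism `f : Y → Z`, the elements `γ` and `σ` act compatibly on the fibres of
`Y` and `Z`. -/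
def LiesOver {S : Scheme.{0}} {s : Spec (CommRingCat.of Qbar) ⟶ S} (γ : Pi1 s) (σ : GQ) : Prop :=
  ∀ (Z : Cov (Spec (CommRingCat.of ℚ))) (Y : Cov S) (f : Y.obj.left ⟶ Z.obj.left)
    (y : (fib s).obj Y),
    (γ.act y).1 ≫ f = Spec.map (CommRingCat.ofHom (σ : Qbar →+* Qbar)) ≫ y.1 ≫ f

/-- The splitting condition for a variety `X` over `ℚ`: for every dense open subset `U` and every
geometric point `u` of `U` defined over `ℚ̄`, the homomorphism `π₁(U, u) → Gal(ℚ̄/ℚ)` has a
continuous section. -/
def SplittingCondition (X : Scheme.{0}) : Prop :=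
  ∀ (U : X.Opens), Dense (U : Set X) → ∀ u : Spec (CommRingCat.of Qbar) ⟶ U.toScheme,
    ∃ s : GQ →* Pi1 u, Continuous s ∧ ∀ σ : GQ, LiesOver (s σ) σ

end Pool.Agent.TH952
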