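import Mathlib
import Pool.Agent.TH952.HahnClosed
import Pool.Agent.TH952.Pi1Defs

set_option autoImplicit false
set_option linter.style.haveILetI false

namespace Pool.Agent.TH952

open Polynomial

section hmap

variable {K : Type} [Field K]

/-- coefficientwise action on Hahn series -/
noncomputable def hmap (f : K →+* K) : Hah K →+* Hah K where
  toFun x := x.map f
  map_one' := by
    ext q
    simp only [HahnSeries.map_coeff, HahnSeries.coeff_one]
    split_ifs <;> simp
  map_zero' := by ext q; simp
  map_add' x y := by ext q; simp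
  map_mul' x y := by
    ext q
    exact congrArg (fun z : Hah K => z.coeff q) (HahnSeries.map_mul (f : K →ₙ+* K))

lemma hmap_coeff (f : K →+* K) (x : Hah K) (q : ℚ) : (hmap f x).coeff q = f (x.coeff q) := rfl

lemma hmap_single (f : K →+* K) (q : ℚ) (c : K) :
    hmap f (HahnSeries.single q c) = HahnSeries.single q (f c) := by
  ext r
  rw [hmap_coeff]
  by_cases h : r = q
  · subst h; simp
  · rw [HahnSeries.coeff_single_of_ne h, HahnSeries.coeff_single_of_ne h, map_zero]

lemma hmap_C (f : K →+* K) (c : K) : hmap f (HahnSeries.C c) = HahnSeries.C (f c) :=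
  hmap_single f 0 c

end hmap

section action

instance Qbar_isAlgebraic : Algebra.IsAlgebraic ℚ Qbar := AlgebraicClosure.isAlgebraic ℚ

/-- The action of the Galois group on Hahn series. -/
noncomputable def ga (σ : GQ) : Hah Qbar →+* Hah Qbar := hmap (σ : Qbar →+* Qbar)

lemma ga_coeff (σ : GQ) (x : Hah Qbar) (q : ℚ) : (ga σ x).coeff q = σ (x.coeff q) := rfl

lemma ga_one (x : Hah Qbar) : ga 1 x = x := by
  ext q; rw [ga_coeff]; rfl

lemma ga_mul (σ τ : GQ) (x : Hah Qbar) : ga (σ * τ) x = ga σ (ga τ x) := by
  ext q; rw [ga_coeff, ga_coeff, ga_coeff]; rfl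

lemma ga_C (σ : GQ) (c : Qbar) : ga σ (HahnSeries.C c) = HahnSeries.C (σ c) := hmap_C _ c

/-- the stabiliser of a Hahn series -/
def gstab (x : Hah Qbar) : Subgroup GQ where
  carrier := {σ | ga σ x = x}
  one_mem' := ga_one x
  mul_mem' := by
    intro σ τ hσ hτ
    simp only [Set.mem_ofPred_eq] at *
    rw [ga_mul, hτ, hσ]
  inv_mem' := by
    intro σ hσ
    simp only [Set.mem_ofPred_eq] at *
    conv_lhs => rw [← hσ]
    rw [← ga_mul, inv_mul_cancel, ga_one]

lemma mem_gstab {x : Hah Qbar} {σ : GQ} : σ ∈ gstab x ↔ ga σ x = x := Iff.rfl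

lemma gstab_isClosed (x : Hah Qbar) : IsClosed (gstab x : Set GQ) := by
  have h : (gstab x : Set GQ) = ⋂ q : ℚ, (MulAction.stabilizer GQ (x.coeff q) : Set GQ) := by
    ext σ
    simp only [SetLike.mem_coe, mem_gstab, Set.mem_iInter, MulAction.mem_stabilizer_iff]
    constructor
    · intro h q
      have := congrArg (fun z : Hah Qbar => z.coeff q) h
      exact this
    · intro h
      ext q
      exact h q
  rw [h]
  refine isClosed_iInter fun q => ?_
  exact Subgroup.isClosed_of_isOpen _ (stabilizer_isOpen_of_isIntegral _)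

open Classical in
/-- The stabiliser of an element which is algebraic over the fixed field is open. -/
lemma gstab_isOpen {B : Type} [CommRing B] [Algebra B (Hah Qbar)]
    (hB : ∀ (σ : GQ) (b : B), ga σ (algebraMap B (Hah Qbar) b) = algebraMap B (Hah Qbar) b)
    (x : Hah Qbar) (hx : IsIntegral B x) : IsOpen (gstab x : Set GQ) := by
  obtain ⟨p, hpm, hp⟩ := hx
  have hne : p.map (algebraMap B (Hah Qbar)) ≠ 0 := (hpm.map _).ne_zero
  have hroot : ∀ σ : GQ, ga σ x ∈ ((p.map (algebraMap B (Hah Qbar))).roots.toFinset : Set (Hah Qbar)) := by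
    intro σ
    simp only [Finset.mem_coe, Multiset.mem_toFinset]
    rw [mem_roots hne, IsRoot, eval_map]
    have h1 := congrArg (ga σ) hp
    rw [hom_eval₂, map_zero] at h1
    have h2 : (ga σ).comp (algebraMap B (Hah Qbar)) = algebraMap B (Hah Qbar) := by
      ext1 b; exact hB σ b
    rwa [h2] at h1
  have hfin : (gstab x).FiniteIndex := by
    have hinj : Function.Injective (fun c : GQ ⧸ gstab x => (⟨Quotient.lift (fun σ : GQ => ga σ x) (by
        intro σ τ hστ
        have h3 : σ⁻¹ * τ ∈ gstab x := QuotientGroup.leftRel_apply.1 hστ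
        rw [mem_gstab, ga_mul] at h3
        change ga σ x = ga τ x
        conv_lhs => rw [← h3]
        rw [← ga_mul, mul_inv_cancel, ga_one]) c, by
          induction c using QuotientGroup.induction_on with
          | H σ => exact hroot σ⟩ :
        ((p.map (algebraMap B (Hah Qbar))).roots.toFinset : Set (Hah Qbar)))) := by
      intro c d h
      induction c using QuotientGroup.induction_on with
      | H σ =>
        induction d using QuotientGroup.induction_on with
        | H τ =>
          have h4 : ga σ x = ga τ x := congrArg Subtype.val h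
          rw [QuotientGroup.eq, mem_gstab, ga_mul, ← h4, ← ga_mul, inv_mul_cancel, ga_one]
    haveI : Finite ((p.map (algebraMap B (Hah Qbar))).roots.toFinset : Set (Hah Qbar)) :=
      Finset.finite_toSet _
    haveI : Finite (GQ ⧸ gstab x) := Finite.of_injective _ hinj
    exact Subgroup.finiteIndex_of_finite_quotient
  exact Subgroup.isOpen_of_isClosed_of_finiteIndex _ (gstab_isClosed x)

end action

end Pool.Agent.TH952
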