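import Mathlib

set_option autoImplicit false
set_option linter.style.haveILetI false

namespace Pool.Agent.TH952

open TensorProduct

section card

lemma card_homs (k : Type) [Field k] [IsAlgClosed k] (S : Type) [CommRing S] [Algebra k S]
    [Module.Finite k S] [Algebra.Etale k S] :
    Finite (S →ₐ[k] k) ∧ Nat.card (S →ₐ[k] k) = Module.finrank k S := by
  obtain ⟨n, ⟨e⟩⟩ := Algebra.IsFiniteSplit.nonempty_algEquiv_fun k S
  have e1 : (S →ₐ[k] k) ≃ PrimeSpectrum S := Algebra.IsFiniteSplit.algHomEquivPrimeSpectrum k S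
  have e2 : PrimeSpectrum S ≃ PrimeSpectrum (Fin n → k) :=
    (PrimeSpectrum.homeomorphOfRingEquiv e.toRingEquiv).toEquiv
  have e3 : (Σ _ : Fin n, PrimeSpectrum k) ≃ PrimeSpectrum (Fin n → k) :=
    (PrimeSpectrum.sigmaToPiHomeo (fun _ : Fin n => k)).toEquiv
  have e4 : (Σ _ : Fin n, PrimeSpectrum k) ≃ Fin n := Equiv.sigmaUnique _ _
  have e5 : (S →ₐ[k] k) ≃ Fin n := ((e1.trans e2).trans e3.symm).trans e4
  refine ⟨Finite.of_equiv _ e5.symm, ?_⟩
  rw [Nat.card_congr e5, Nat.card_eq_fintype_card, Fintype.card_fin, e.toLinearEquiv.finrank_eq,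
    Module.finrank_fin_fun]

variable (A : Type) [CommRing A] (D : Type) [CommRing D] [Algebra A D] [Module.Finite A D]
  [Algebra.Etale A D]

lemma card_homs' (k : Type) [Field k] [IsAlgClosed k] [Algebra A k] :
    Finite (D →ₐ[A] k) ∧ Nat.card (D →ₐ[A] k) =
      Module.rankAtStalk (R := A) D ((⊥ : PrimeSpectrum k).comap (algebraMap A k)) := by
  have e : (D →ₐ[A] k) ≃ (k ⊗[A] D →ₐ[k] k) := Algebra.TensorProduct.liftEquivRight _ _ _ _
  obtain ⟨h1, h2⟩ := card_homs k (k ⊗[A] D)
  refine ⟨Finite.of_equiv _ e.symm, ?_⟩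
  rw [Nat.card_congr e, h2]
  have h3 := Module.rankAtStalk_baseChange (R := A) (M := D) (S := k) ⊥
  rw [← h3, Module.rankAtStalk_eq_finrank_of_free]
  rfl

lemma card_homs_eq [IsDomain A] (k k' : Type) [Field k] [IsAlgClosed k] [Algebra A k] [Field k']
    [IsAlgClosed k'] [Algebra A k'] : Nat.card (D →ₐ[A] k) = Nat.card (D →ₐ[A] k') := by
  rw [(card_homs' A D k).2, (card_homs' A D k').2]
  have h : ∀ p : PrimeSpectrum A, Module.rankAtStalk (R := A) D ⊥ = Module.rankAtStalk (R := A) D p := by
    intro p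
    apply Module.rankAtStalk_eq_of_le_of_finite_of_flat
    exact bot_le
  exact (h _).symm.trans (h _)

end card

section special

variable (A : Type) [CommRing A] [IsDomain A] (D : Type) [CommRing D] [Algebra A D]
  [Module.Finite A D] [Algebra.Etale A D]

omit [Module.Finite A D] in
lemma special_injective (k : Type) [Field k] [Algebra A k] (h₁ h₂ : D →ₐ[A] A)
    (h : (Algebra.ofId A k).comp h₁ = (Algebra.ofId A k).comp h₂) : h₁ = h₂ := by
  set t := Algebra.FormallyUnramified.elem A D with ht
  set H : D ⊗[A] D →ₐ[A] A := Algebra.TensorProduct.lift h₁ h₂ (fun _ _ => Commute.all _ _) with hH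
  have hmul : Algebra.TensorProduct.lmul' A t = 1 := Algebra.FormallyUnramified.lmul_elem
  have hz : ∀ s : D, ((1 : D) ⊗ₜ[A] s - s ⊗ₜ[A] (1 : D)) * t = 0 :=
    fun s => Algebra.FormallyUnramified.one_tmul_sub_tmul_one_mul_elem s
  have hHt : Algebra.ofId A k (H t) = 1 := by
    have h3 : (Algebra.ofId A k).comp H = ((Algebra.ofId A k).comp h₁).comp (Algebra.TensorProduct.lmul' A) := by
      apply Algebra.TensorProduct.ext'
      intro a b
      simp only [AlgHom.comp_apply, hH, Algebra.TensorProduct.lift_tmul, Algebra.TensorProduct.lmul'_apply_tmul,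
        map_mul]
      congr 1
      exact (congrArg (fun f : D →ₐ[A] k => f b) h).symm
    have h4 := congrArg (fun f : D ⊗[A] D →ₐ[A] k => f t) h3
    simp only [AlgHom.comp_apply, hmul, map_one] at h4
    exact h4
  have hH0 : H t ≠ 0 := by
    intro h5
    rw [h5, map_zero] at hHt
    exact zero_ne_one hHt
  ext s
  have h6 := congrArg H (hz s)
  rw [map_mul, map_zero, map_sub, hH, Algebra.TensorProduct.lift_tmul, Algebra.TensorProduct.lift_tmul,
    map_one, map_one, one_mul, mul_one, ← hH] at h6
  have h7 := (mul_eq_zero.1 h6).resolve_right hH0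
  exact (sub_eq_zero.1 h7).symm

/-- Points of a finite étale algebra over an integrally closed domain with algebraically closed
fraction field specialise bijectively. -/
theorem special_bijective (Ω k : Type) [Field Ω] [IsAlgClosed Ω] [Field k] [IsAlgClosed k]
    [Algebra A Ω] [Algebra A k] (hinj : Function.Injective (algebraMap A Ω))
    (hcl : ∀ x : Ω, IsIntegral A x → x ∈ Set.range (algebraMap A Ω)) :
    Function.Bijective (fun h : D →ₐ[A] A => (Algebra.ofId A k).comp h) := by
  have hfin := (card_homs' A D k).1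
  have hfinΩ := (card_homs' A D Ω).1
  -- homs to `A` are the same as homs to `Ω`
  have hΩ : Function.Bijective (fun h : D →ₐ[A] A => (Algebra.ofId A Ω).comp h) := by
    constructor
    · intro h₁ h₂ h
      ext s
      exact hinj (congrArg (fun f : D →ₐ[A] Ω => f s) h)
    · intro f
      have hf : ∀ s, f s ∈ (Algebra.ofId A Ω).range := by
        intro s
        obtain ⟨y, hy⟩ := hcl (f s) ((Algebra.IsIntegral.isIntegral (R := A) s).map f)
        exact ⟨y, hy⟩
      let e : A ≃ₐ[A] (Algebra.ofId A Ω).range := AlgEquiv.ofInjective _ hinj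
      refine ⟨e.symm.toAlgHom.comp (f.codRestrict _ hf), ?_⟩
      ext s
      change algebraMap A Ω (e.symm (f.codRestrict _ hf s)) = f s
      have h5 : ∀ y : (Algebra.ofId A Ω).range, algebraMap A Ω (e.symm y) = y := by
        intro y
        obtain ⟨x, rfl⟩ := e.surjective y
        rw [AlgEquiv.symm_apply_apply]
        rfl
      rw [h5]
      rfl
  have hfinA : Finite (D →ₐ[A] A) := Finite.of_injective _ hΩ.1
  have hcard : Nat.card (D →ₐ[A] A) = Nat.card (D →ₐ[A] k) := by
    rw [Nat.card_congr (Equiv.ofBijective _ hΩ), card_homs_eq A D Ω k]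
  have hinj' : Function.Injective (fun h : D →ₐ[A] A => (Algebra.ofId A k).comp h) :=
    fun h₁ h₂ h => special_injective A D k h₁ h₂ h
  exact (Nat.bijective_iff_injective_and_card _).2 ⟨hinj', hcard⟩

end special

end Pool.Agent.TH952
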