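import Mathlib
import Pool.Agent.TH952.EtSpec

set_option autoImplicit false
set_option linter.style.haveILetI false

namespace Pool.Agent.TH952

open CategoryTheory AlgebraicGeometry Limits

section lift

variable {S : Scheme.{0}} {A : Type} [CommRing A] (a : Spec (CommRingCat.of A) ⟶ S)
  {Y : Scheme.{0}} (p : Y ⟶ S)

/-- a finite étale cover of `S` pulled back to `Spec A` is affine -/
lemma exists_affine [IsFinite p] [Etale p] :
    ∃ (D : Type) (_ : CommRing D) (_ : Algebra A D) (_ : Module.Finite A D) (_ : Algebra.Etale A D)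
      (e : Spec (CommRingCat.of D) ≅ pullback p a),
      e.hom ≫ pullback.snd p a = Spec.map (CommRingCat.ofHom (algebraMap A D)) := by
  haveI : IsAffine (pullback p a) := isAffine_of_isAffineHom (pullback.snd p a)
  set D : CommRingCat := Γ(pullback p a, ⊤) with hD
  set e : Spec D ≅ pullback p a := (pullback p a).isoSpec.symm with he
  set φ : CommRingCat.of A ⟶ D := Spec.preimage (e.hom ≫ pullback.snd p a) with hφ
  have h1 : Spec.map φ = e.hom ≫ pullback.snd p a := Spec.map_preimage _
  letI : Algebra A D := φ.hom.toAlgebra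
  have h2 : IsFinite (Spec.map φ) := by rw [h1]; infer_instance
  have h3 : Etale (Spec.map φ) := by rw [h1]; infer_instance
  have h4 : φ.hom.Finite := (IsFinite.SpecMap_iff φ).1 h2
  have h5 : φ.hom.Etale := (HasRingHomProperty.Spec_iff (P := @Etale)).1 h3
  exact ⟨D, inferInstance, inferInstance, h4, h5, e, h1.symm⟩

variable {T : Type} [CommRing T]

/-- points of a finite étale cover, algebraically -/
lemma exists_alg {D : Type} [CommRing D] [Algebra A D]
    (e : Spec (CommRingCat.of D) ≅ pullback p a)
    (he : e.hom ≫ pullback.snd p a = Spec.map (CommRingCat.ofHom (algebraMap A D)))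
    [Algebra A T] (y : Spec (CommRingCat.of T) ⟶ Y)
    (hy : y ≫ p = Spec.map (CommRingCat.ofHom (algebraMap A T)) ≫ a) :
    ∃ g : D →ₐ[A] T, Spec.map (CommRingCat.ofHom (g : D →+* T)) ≫ e.hom =
      pullback.lift y (Spec.map (CommRingCat.ofHom (algebraMap A T))) hy := by
  set l := pullback.lift y (Spec.map (CommRingCat.ofHom (algebraMap A T))) hy with hl
  set g : CommRingCat.of D ⟶ CommRingCat.of T := Spec.preimage (l ≫ e.inv) with hg
  have h1 : Spec.map g = l ≫ e.inv := Spec.map_preimage _
  have h2 : CommRingCat.ofHom (algebraMap A D) ≫ g = CommRingCat.ofHom (algebraMap A T) := by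
    apply Spec.map_injective
    rw [Spec.map_comp, h1, ← he, Category.assoc, e.inv_hom_id_assoc, hl, pullback.lift_snd]
  refine ⟨{ g.hom with commutes' := fun r => ?_ }, ?_⟩
  · exact congrArg (fun f : CommRingCat.of A ⟶ CommRingCat.of T => f.hom r) h2
  · change Spec.map g ≫ e.hom = l
    rw [h1, Category.assoc, e.inv_hom_id, Category.comp_id]

lemma alg_point {D : Type} [CommRing D] [Algebra A D]
    (e : Spec (CommRingCat.of D) ≅ pullback p a)
    (he : e.hom ≫ pullback.snd p a = Spec.map (CommRingCat.ofHom (algebraMap A D)))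
    [Algebra A T] (g : D →ₐ[A] T) :
    (Spec.map (CommRingCat.ofHom (g : D →+* T)) ≫ e.hom ≫ pullback.fst p a) ≫ p =
      Spec.map (CommRingCat.ofHom (algebraMap A T)) ≫ a := by
  rw [Category.assoc, Category.assoc, pullback.condition, reassoc_of% he, ← Category.assoc,
    ← Spec.map_comp, ← CommRingCat.ofHom_comp, AlgHom.comp_algebraMap]

/-- **Path.** Points over the integrally closed domain `A` are in bijection with geometric
points. -/
theorem lift_bijective [IsDomain A] (Ω k : Type) [Field Ω] [IsAlgClosed Ω] [Field k] [IsAlgClosed k]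
    [Algebra A Ω] [Algebra A k] (hinj : Function.Injective (algebraMap A Ω))
    (hcl : ∀ x : Ω, IsIntegral A x → x ∈ Set.range (algebraMap A Ω))
    (s : Spec (CommRingCat.of k) ⟶ S) (hs : Spec.map (CommRingCat.ofHom (algebraMap A k)) ≫ a = s)
    [IsFinite p] [Etale p] :
    Function.Bijective (fun y : {y : Spec (CommRingCat.of A) ⟶ Y // y ≫ p = a} =>
      (⟨Spec.map (CommRingCat.ofHom (algebraMap A k)) ≫ y.1, by rw [Category.assoc, y.2, hs]⟩ :
        {y : Spec (CommRingCat.of k) ⟶ Y // y ≫ p = s})) := by
  obtain ⟨D, _, _, _, _, e, he⟩ := exists_affine a p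
  have hbij := special_bijective A D Ω k hinj hcl
  have hid : Spec.map (CommRingCat.ofHom (algebraMap A A)) = 𝟙 (Spec (CommRingCat.of A)) := by
    rw [Algebra.algebraMap_self, CommRingCat.ofHom_id, Spec.map_id]
  constructor
  · rintro ⟨y₁, hy₁⟩ ⟨y₂, hy₂⟩ h
    have h0 : Spec.map (CommRingCat.ofHom (algebraMap A k)) ≫ y₁ =
        Spec.map (CommRingCat.ofHom (algebraMap A k)) ≫ y₂ := congrArg Subtype.val h
    obtain ⟨g₁, hg₁⟩ := exists_alg a p e he (T := A) y₁ (by rw [hy₁, hid, Category.id_comp])
    obtain ⟨g₂, hg₂⟩ := exists_alg a p e he (T := A) y₂ (by rw [hy₂, hid, Category.id_comp])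
    have hgg : (Algebra.ofId A k).comp g₁ = (Algebra.ofId A k).comp g₂ := by
      have h3 : Spec.map (CommRingCat.ofHom (algebraMap A k)) ≫
          Spec.map (CommRingCat.ofHom (g₁ : D →+* A)) =
          Spec.map (CommRingCat.ofHom (algebraMap A k)) ≫
          Spec.map (CommRingCat.ofHom (g₂ : D →+* A)) := by
        rw [← cancel_mono e.hom, Category.assoc, Category.assoc, hg₁, hg₂]
        apply pullback.hom_ext
        · rw [Category.assoc, Category.assoc, pullback.lift_fst, pullback.lift_fst, h0]
        · rw [Category.assoc, Category.assoc, pullback.lift_snd, pullback.lift_snd]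
      rw [← Spec.map_comp, ← Spec.map_comp] at h3
      have h4 := Spec.map_injective h3
      ext x
      exact congrArg (fun f : CommRingCat.of D ⟶ CommRingCat.of k => f.hom x) h4
    have h5 : g₁ = g₂ := hbij.1 hgg
    apply Subtype.ext
    have h6 := congrArg (fun f => f ≫ pullback.fst p a) hg₁
    have h7 := congrArg (fun f => f ≫ pullback.fst p a) hg₂
    simp only [pullback.lift_fst] at h6 h7
    change y₁ = y₂
    rw [← h6, ← h7, h5]
  · rintro ⟨y, hy⟩
    obtain ⟨g, hg⟩ := exists_alg a p e he (T := k) y (by rw [hy, hs])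
    obtain ⟨h, hh⟩ := hbij.2 g
    refine ⟨⟨Spec.map (CommRingCat.ofHom (h : D →+* A)) ≫ e.hom ≫ pullback.fst p a, ?_⟩, ?_⟩
    · rw [alg_point a p e he h, hid, Category.id_comp]
    · apply Subtype.ext
      change Spec.map (CommRingCat.ofHom (algebraMap A k)) ≫
        Spec.map (CommRingCat.ofHom (h : D →+* A)) ≫ e.hom ≫ pullback.fst p a = y
      have h6 := congrArg (fun f => f ≫ pullback.fst p a) hg
      simp only [pullback.lift_fst, Category.assoc] at h6
      rw [← h6, ← Category.assoc, ← Spec.map_comp]
      congr 2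
      have hh' : (Algebra.ofId A k).comp h = g := hh
      rw [← hh']
      rfl

end lift

end Pool.Agent.TH952
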