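import Mathlib
import Pool.Agent.TH952.HahnAct
import Pool.Agent.TH952.LiftBij

set_option autoImplicit false
set_option linter.style.haveILetI false

namespace Pool.Agent.TH952

open CategoryTheory AlgebraicGeometry Limits

set_option synthInstance.maxHeartbeats 400000 in
lemma exists_integral_extend {B A k : Type} [CommRing B] [CommRing A] [Algebra B A]
    [Algebra.IsIntegral B A] (hinj : Function.Injective (algebraMap B A)) [Field k] [IsAlgClosed k]
    (u : B →+* k) : ∃ π : A →+* k, π.comp (algebraMap B A) = u := by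
  set P : Ideal B := RingHom.ker u with hP
  haveI : P.IsPrime := RingHom.ker_isPrime u
  obtain ⟨Q, -, hQ, hQP⟩ := Ideal.exists_ideal_over_prime_of_isIntegral P (⊥ : Ideal A) (by
    intro x hx
    rw [Ideal.mem_comap, Ideal.mem_bot] at hx
    rw [hinj (hx.trans (map_zero _).symm)]
    exact P.zero_mem)
  haveI := hQ
  haveI : Q.LiesOver P := ⟨hQP.symm⟩
  letI : Algebra (B ⧸ P) k := (RingHom.kerLift u).toAlgebra
  have hinj' : Function.Injective (algebraMap (B ⧸ P) k) := RingHom.kerLift_injective u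
  haveI : FaithfulSMul (B ⧸ P) k := (faithfulSMul_iff_algebraMap_injective _ _).2 hinj'
  haveI : Algebra.IsAlgebraic (B ⧸ P) (A ⧸ Q) := inferInstance
  have g : (A ⧸ Q) →ₐ[B ⧸ P] k := IsAlgClosed.lift
  refine ⟨(g : (A ⧸ Q) →+* k).comp (Ideal.Quotient.mk Q), ?_⟩
  ext b
  change g (Ideal.Quotient.mk Q (algebraMap B A b)) = u b
  have h1 : Ideal.Quotient.mk Q (algebraMap B A b) = algebraMap (B ⧸ P) (A ⧸ Q) (Ideal.Quotient.mk P b) := rfl
  rw [h1, AlgHom.commutes]
  rfl

lemma const_of_integral {K : Type} [Field K] [IsAlgClosed K] (x : Hah K)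
    (hx : (HahnSeries.C : K →+* Hah K).IsIntegralElem x) : ∃ q, x = HahnSeries.C q := by
  obtain ⟨p, hpm, hp⟩ := hx
  have h1 := (IsAlgClosed.splits p).eq_prod_roots_of_monic hpm
  rw [h1, Polynomial.eval₂_multiset_prod, Multiset.map_map, Multiset.prod_eq_zero_iff] at hp
  obtain ⟨a, ha, h⟩ := Multiset.mem_map.1 hp
  refine ⟨a, ?_⟩
  simp only [Function.comp, Polynomial.eval₂_sub, Polynomial.eval₂_X, Polynomial.eval₂_C] at h
  exact sub_eq_zero.1 h

lemma const_of_integral_rat (x : Hah Qbar) (h1 : IsIntegral ℚ x) : ∃ q, x = HahnSeries.C q := by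
  apply const_of_integral
  obtain ⟨p, hpm, hp⟩ := h1
  refine ⟨p.map (algebraMap ℚ Qbar), hpm.map _, ?_⟩
  rw [Polynomial.eval₂_map]
  have : (HahnSeries.C : Qbar →+* Hah Qbar).comp (algebraMap ℚ Qbar) = algebraMap ℚ (Hah Qbar) := Subsingleton.elim _ _
  rw [this, hp]

section mkHom

/-- A group acting naturally on the values of a functor maps to its automorphism group. -/
def mkHom {C : Type 1} [Category.{0} C] (F : C ⥤ Type) {G : Type} [Group G]
    (act : G → ∀ Y : C, F.obj Y → F.obj Y) (h1 : ∀ Y y, act 1 Y y = y)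
    (hm : ∀ σ τ Y y, act (σ * τ) Y y = act σ Y (act τ Y y))
    (hn : ∀ σ {Y Z : C} (f : Y ⟶ Z) y, F.map f (act σ Y y) = act σ Z (F.map f y)) : G →* Aut F where
  toFun σ :=
    { hom := { app := fun Y => ↾ (act σ Y)
               naturality := fun {Y Z} f => by
                ext y
                exact (hn σ f y).symm }
      inv := { app := fun Y => ↾ (act σ⁻¹ Y)
               naturality := fun {Y Z} f => by
                ext y
                exact (hn σ⁻¹ f y).symm }
      hom_inv_id := by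
        ext Y y
        change act σ⁻¹ Y (act σ Y y) = y
        rw [← hm, inv_mul_cancel, h1]
      inv_hom_id := by
        ext Y y
        change act σ Y (act σ⁻¹ Y y) = y
        rw [← hm, mul_inv_cancel, h1] }
  map_one' := by
    ext Y y
    exact h1 Y y
  map_mul' σ τ := by
    ext Y y
    exact hm σ τ Y y

end mkHom

section sect

variable (B : Type) [CommRing B] [Algebra ℚ B] [Algebra B (Hah Qbar)]

/-- the integral closure -/
abbrev IA : Type := integralClosure B (Hah Qbar)

variable {B}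
variable (hB : ∀ (σ : GQ) (b : B), ga σ (algebraMap B (Hah Qbar) b) = algebraMap B (Hah Qbar) b)

/-- Galois action, `B`-linear -/
noncomputable def gaB (σ : GQ) : Hah Qbar →ₐ[B] Hah Qbar := { ga σ with commutes' := hB σ }

/-- Galois action on the integral closure -/
noncomputable def actA (σ : GQ) : IA B →ₐ[B] IA B := (gaB hB σ).mapIntegralClosure

omit [Algebra ℚ B] in
lemma actA_coe (σ : GQ) (x : IA B) : ((actA hB σ x : IA B) : Hah Qbar) = ga σ x := rfl

omit [Algebra ℚ B] in
lemma actA_one (x : IA B) : actA hB 1 x = x := Subtype.ext (ga_one _)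

omit [Algebra ℚ B] in
lemma actA_mul (σ τ : GQ) (x : IA B) : actA hB (σ * τ) x = actA hB σ (actA hB τ x) :=
  Subtype.ext (ga_mul _ _ _)

variable (B) in
/-- constants -/
noncomputable def cA : Qbar →+* IA B where
  toFun q := ⟨HahnSeries.C q, by
    haveI : IsScalarTower ℚ B (Hah Qbar) := IsScalarTower.of_algebraMap_eq' (Subsingleton.elim _ _)
    have h1 : IsIntegral ℚ q := Algebra.IsIntegral.isIntegral q
    have h2 : IsIntegral ℚ (HahnSeries.C q : Hah Qbar) := by
      have h3 := h1.map (HahnSeries.C : Qbar →+* Hah Qbar).toRatAlgHom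
      exact h3
    exact h2.tower_top⟩
  map_one' := Subtype.ext (map_one _)
  map_zero' := Subtype.ext (map_zero _)
  map_mul' x y := Subtype.ext (map_mul _ _ _)
  map_add' x y := Subtype.ext (map_add _ _ _)

lemma actA_cA (σ : GQ) (q : Qbar) : actA hB σ (cA B q) = cA B (σ q) := Subtype.ext (ga_C σ q)

omit [Algebra ℚ B] in
/-- elements of the integral closure which are algebraic over `ℚ` are constants -/
lemma coe_const (x : IA B) (hx : IsIntegral ℚ (x : Hah Qbar)) : ∃ q : Qbar, (x : Hah Qbar) = HahnSeries.C q :=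
  const_of_integral_rat _ hx

end sect

section main

variable {B : Type} [CommRing B] [Algebra ℚ B] [Algebra B (Hah Qbar)]

set_option synthInstance.maxHeartbeats 400000 in
set_option maxHeartbeats 1000000 in
/-- **Sections at geometric points.** -/
theorem exists_section (hBinj : Function.Injective (algebraMap B (Hah Qbar)))
    (hB : ∀ (σ : GQ) (b : B), ga σ (algebraMap B (Hah Qbar) b) = algebraMap B (Hah Qbar) b)
    {S : Scheme.{0}} (s : Spec (CommRingCat.of Qbar) ⟶ S) (v : Spec (CommRingCat.of B) ⟶ S)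
    (u : B →+* Qbar) (hu : Spec.map (CommRingCat.ofHom u) ≫ v = s) :
    ∃ sec : GQ →* Pi1 s, Continuous sec ∧ ∀ σ : GQ, LiesOver (sec σ) σ := by
  have hinjA : Function.Injective (algebraMap B (IA B)) := by
    intro x y hxy
    exact hBinj (congrArg (fun z : IA B => (z : Hah Qbar)) hxy)
  haveI hintA : Algebra.IsIntegral B (IA B) := integralClosure.AlgebraIsIntegral
  obtain ⟨π, hπ⟩ := exists_integral_extend (A := IA B) hinjA u
  letI : Algebra (IA B) Qbar := π.toAlgebra
  have halg : algebraMap (IA B) Qbar = π := rfl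
  set a : Spec (CommRingCat.of (IA B)) ⟶ S :=
    Spec.map (CommRingCat.ofHom (algebraMap B (IA B))) ≫ v with ha
  have has : Spec.map (CommRingCat.ofHom (algebraMap (IA B) Qbar)) ≫ a = s := by
    rw [ha, ← Category.assoc, ← Spec.map_comp, ← CommRingCat.ofHom_comp, halg, hπ, hu]
  have hsub : Function.Injective (algebraMap (IA B) (Hah Qbar)) := Subtype.val_injective
  have hcl : ∀ x : Hah Qbar, IsIntegral (IA B) x → x ∈ Set.range (algebraMap (IA B) (Hah Qbar)) := by
    intro x hx
    exact ⟨⟨x, isIntegral_trans (A := IA B) x hx⟩, rfl⟩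
  -- the bijection between points over `A` and points over `ℚ̄`
  let FA : Cov S → Type := fun Y => {y : Spec (CommRingCat.of (IA B)) ⟶ Y.obj.left // y ≫ Y.obj.hom = a}
  let E : ∀ Y : Cov S, FA Y ≃ (fib s).obj Y := fun Y =>
    haveI := Y.property.1
    haveI := Y.property.2
    Equiv.ofBijective _ (lift_bijective a Y.obj.hom (Hah Qbar) Qbar hsub hcl s has)
  have hE : ∀ (Y : Cov S) (y : FA Y), ((E Y y).1 : Spec (CommRingCat.of Qbar) ⟶ Y.obj.left) =
      Spec.map (CommRingCat.ofHom π) ≫ y.1 := fun Y y => rfl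
  -- the twist
  let τ₀ : Qbar →ₐ[ℚ] Qbar := (π.comp (cA B)).toRatAlgHom
  let τ : GQ := AlgEquiv.ofBijective τ₀ (Algebra.IsAlgebraic.algHom_bijective τ₀)
  have hτ : ∀ q, τ q = π (cA B q) := fun q => rfl
  let c : GQ →* GQ := (MulAut.conj τ⁻¹).toMonoidHom
  have hc : ∀ σ, c σ = τ⁻¹ * σ * τ := by
    intro σ
    change τ⁻¹ * σ * τ⁻¹⁻¹ = _
    rw [inv_inv]
  -- the action on points over `A`
  have hact : ∀ σ : GQ, (actA hB σ : IA B →+* IA B).comp (algebraMap B (IA B)) = algebraMap B (IA B) :=
    fun σ => AlgHom.comp_algebraMap _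
  let gA : GQ → ∀ Y : Cov S, FA Y → FA Y := fun σ Y y =>
    ⟨Spec.map (CommRingCat.ofHom (actA hB (c σ) : IA B →+* IA B)) ≫ y.1, by
      rw [Category.assoc, y.2, ha, ← Category.assoc, ← Spec.map_comp, ← CommRingCat.ofHom_comp, hact]⟩
  have hgA1 : ∀ Y (y : FA Y), gA 1 Y y = y := by
    intro Y y
    apply Subtype.ext
    change Spec.map (CommRingCat.ofHom (actA hB (c 1) : IA B →+* IA B)) ≫ y.1 = y.1
    have h1 : (actA hB (c 1) : IA B →+* IA B) = RingHom.id _ := by
      rw [map_one]
      ext1 x; exact actA_one hB x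
    rw [h1, CommRingCat.ofHom_id, Spec.map_id, Category.id_comp]
  have hgAm : ∀ σ ρ Y (y : FA Y), gA (σ * ρ) Y y = gA σ Y (gA ρ Y y) := by
    intro σ ρ Y y
    apply Subtype.ext
    change Spec.map (CommRingCat.ofHom (actA hB (c (σ * ρ)) : IA B →+* IA B)) ≫ y.1 =
      Spec.map (CommRingCat.ofHom (actA hB (c σ) : IA B →+* IA B)) ≫
      Spec.map (CommRingCat.ofHom (actA hB (c ρ) : IA B →+* IA B)) ≫ y.1
    have h1 : (actA hB (c (σ * ρ)) : IA B →+* IA B) =
        (actA hB (c σ) : IA B →+* IA B).comp (actA hB (c ρ) : IA B →+* IA B) := by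
      rw [map_mul]
      ext1 x; exact actA_mul hB _ _ x
    rw [h1, ← Category.assoc, ← Spec.map_comp, ← CommRingCat.ofHom_comp]
  let act : GQ → ∀ Y : Cov S, (fib s).obj Y → (fib s).obj Y := fun σ Y y => E Y (gA σ Y ((E Y).symm y))
  have hnat : ∀ {Y Z : Cov S} (f : Y ⟶ Z) (y : FA Y) (h : (y.1 ≫ f.hom.left) ≫ Z.obj.hom = a),
      (fib s).map f (E Y y) = E Z ⟨y.1 ≫ f.hom.left, h⟩ := by
    intro Y Z f y h
    apply Subtype.ext
    change (Spec.map (CommRingCat.ofHom π) ≫ y.1) ≫ f.hom.left = Spec.map (CommRingCat.ofHom π) ≫ y.1 ≫ f.hom.left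
    rw [Category.assoc]
  let sec : GQ →* Pi1 s := mkHom (fib s) act
    (by
      intro Y y
      change E Y (gA 1 Y ((E Y).symm y)) = y
      rw [hgA1, Equiv.apply_symm_apply])
    (by
      intro σ ρ Y y
      change E Y (gA (σ * ρ) Y ((E Y).symm y)) = E Y (gA σ Y ((E Y).symm (E Y (gA ρ Y ((E Y).symm y)))))
      rw [hgAm, Equiv.symm_apply_apply])
    (by
      intro σ Y Z f y
      obtain ⟨y, rfl⟩ := (E Y).surjective y
      have h1 : (y.1 ≫ f.hom.left) ≫ Z.obj.hom = a := by rw [Category.assoc, Over.w, y.2]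
      have h2 : ((gA σ Y y).1 ≫ f.hom.left) ≫ Z.obj.hom = a := by
        rw [Category.assoc, Over.w, (gA σ Y y).2]
      change (fib s).map f (E Y (gA σ Y ((E Y).symm (E Y y)))) =
        E Z (gA σ Z ((E Z).symm ((fib s).map f (E Y y))))
      rw [Equiv.symm_apply_apply, hnat f y h1, hnat f _ h2, Equiv.symm_apply_apply]
      congr 1)
  have hsec : ∀ σ (Y : Cov S) (y : (fib s).obj Y), (sec σ).act y = E Y (gA σ Y ((E Y).symm y)) :=
    fun σ Y y => rfl
  refine ⟨sec, ?_, ?_⟩
  · -- continuity
    refine continuous_iInf_rng.2 fun Y => continuous_iInf_rng.2 fun y => continuous_induced_rng.2 ?_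
    letI : TopologicalSpace ((fib s).obj Y) := ⊥
    haveI : DiscreteTopology ((fib s).obj Y) := ⟨rfl⟩
    change Continuous (fun σ => (sec σ).act y)
    refine IsLocallyConstant.continuous ?_
    -- the stabiliser of `y` contains an open subgroup
    obtain ⟨H, hHo, hH⟩ : ∃ H : Subgroup GQ, IsOpen (H : Set GQ) ∧ ∀ σ ∈ H, (sec σ).act y = y := by
      haveI := Y.property.1
      haveI := Y.property.2
      set ya := (E Y).symm y with hya
      obtain ⟨D, _, _, _, _, e, he⟩ := exists_affine v Y.obj.hom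
      obtain ⟨g, hg⟩ := exists_alg v Y.obj.hom e he (T := IA B) ya.1 ya.2
      obtain ⟨t, ht⟩ := (Module.Finite.fg_top : (⊤ : Submodule B D).FG)
      refine ⟨(⨅ d ∈ t, gstab (g d : Hah Qbar)).comap c, ?_, ?_⟩
      · rw [Subgroup.coe_comap]
        have hcc : Continuous c := by
          change Continuous fun σ => τ⁻¹ * σ * τ⁻¹⁻¹
          fun_prop
        refine IsOpen.preimage hcc ?_
        simp only [Subgroup.coe_iInf]
        refine isOpen_biInter_finset fun d _ => ?_
        exact gstab_isOpen hB _ (g d).2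
      · intro σ hσ
        rw [Subgroup.mem_comap] at hσ
        simp only [Subgroup.mem_iInf] at hσ
        have h1 : (actA hB (c σ)).comp g = g := by
          have h2 : ((actA hB (c σ)).comp g).toLinearMap = g.toLinearMap := by
            apply LinearMap.ext_on_range (v := fun d : t => (d : D))
            · rw [Subtype.range_coe_subtype]
              exact ht
            · intro d
              apply Subtype.ext
              change ga (c σ) (g d) = g d
              exact hσ d d.2
          exact AlgHom.toLinearMap_injective h2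
        have h3 : gA σ Y ya = ya := by
          apply Subtype.ext
          change Spec.map (CommRingCat.ofHom (actA hB (c σ) : IA B →+* IA B)) ≫ ya.1 = ya.1
          have h4 := congrArg (fun f => f ≫ pullback.fst Y.obj.hom v) hg
          simp only [pullback.lift_fst, Category.assoc] at h4
          rw [← h4, ← Category.assoc, ← Spec.map_comp]
          congr 2
          refine CommRingCat.hom_ext (RingHom.ext fun x => ?_)
          exact congrArg (fun f : D →ₐ[B] IA B => f x) h1
        rw [hsec, ← hya, h3, hya, Equiv.apply_symm_apply]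
    rw [IsLocallyConstant.iff_exists_open]
    intro σ₀
    refine ⟨{σ | σ₀⁻¹ * σ ∈ H}, ?_, ?_, ?_⟩
    · exact hHo.preimage (continuous_const_mul σ₀⁻¹)
    · simp only [Set.mem_ofPred_eq]
      rw [inv_mul_cancel]
      exact H.one_mem
    · intro σ hσ
      have h5 : σ = σ₀ * (σ₀⁻¹ * σ) := by group
      have h6 : ∀ (γ γ' : Pi1 s), (γ * γ').act y = γ.act (γ'.act y) := fun γ γ' => rfl
      rw [h5, map_mul, h6, hH _ hσ]
  · -- compatibility with the structure morphism
    intro σ Z Y f y
    obtain ⟨y, rfl⟩ := (E Y).surjective y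
    rw [hsec, Equiv.symm_apply_apply]
    change (Spec.map (CommRingCat.ofHom π) ≫ Spec.map (CommRingCat.ofHom (actA hB (c σ) : IA B →+* IA B)) ≫ y.1) ≫ f =
      Spec.map (CommRingCat.ofHom (σ : Qbar →+* Qbar)) ≫ (Spec.map (CommRingCat.ofHom π) ≫ y.1) ≫ f
    haveI := Z.property.1
    haveI : IsAffine Z.obj.left := isAffine_of_isAffineHom Z.obj.hom
    set e := Z.obj.left.isoSpec with he
    set ε : Γ(Z.obj.left, ⊤) ⟶ CommRingCat.of (IA B) := Spec.preimage ((y.1 ≫ f) ≫ e.hom) with hε
    have hε1 : Spec.map ε = (y.1 ≫ f) ≫ e.hom := Spec.map_preimage _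
    set ψ : CommRingCat.of ℚ ⟶ Γ(Z.obj.left, ⊤) := Spec.preimage (e.inv ≫ Z.obj.hom) with hψ
    have hψ1 : Spec.map ψ = e.inv ≫ Z.obj.hom := Spec.map_preimage _
    have hψ2 : ψ.hom.Finite := (IsFinite.SpecMap_iff ψ).1 (by rw [hψ1]; infer_instance)
    have hint : ∀ x : Γ(Z.obj.left, ⊤), ∃ q : Qbar, ε.hom x = cA B q := by
      intro x
      have h1 : ψ.hom.IsIntegralElem x := hψ2.to_isIntegral x
      obtain ⟨p, hpm, hp⟩ := h1
      obtain ⟨q, hq⟩ := coe_const (ε.hom x) ⟨p, hpm, by
        have h2 := congrArg ((algebraMap (IA B) (Hah Qbar)).comp ε.hom) hp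
        rw [Polynomial.hom_eval₂, map_zero] at h2
        have h3 : (((algebraMap (IA B) (Hah Qbar)).comp ε.hom).comp ψ.hom) = algebraMap ℚ (Hah Qbar) :=
          Subsingleton.elim _ _
        rw [h3] at h2
        exact h2⟩
      exact ⟨q, Subtype.ext hq⟩
    have hring : ε ≫ CommRingCat.ofHom (actA hB (c σ) : IA B →+* IA B) ≫ CommRingCat.ofHom π =
        ε ≫ CommRingCat.ofHom π ≫ CommRingCat.ofHom (σ : Qbar →+* Qbar) := by
      ext x
      obtain ⟨q, hq⟩ := hint x
      change π (actA hB (c σ) (ε.hom x)) = σ (π (ε.hom x))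
      rw [hq, actA_cA, ← hτ, ← hτ, hc]
      change τ ((τ⁻¹ * σ * τ) q) = σ (τ q)
      rw [← AlgEquiv.mul_apply, ← mul_assoc, ← mul_assoc, mul_inv_cancel, one_mul, AlgEquiv.mul_apply]
    have h7 := congrArg Spec.map hring
    simp only [Spec.map_comp, hε1] at h7
    rw [← cancel_mono e.hom]
    simp only [Category.assoc] at h7 ⊢
    exact h7

end main

end Pool.Agent.TH952
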