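import Mathlib
import Pool.Agent.TH952.Section

set_option autoImplicit false
set_option linter.style.haveILetI false

namespace Pool.Agent.TH952

open CategoryTheory AlgebraicGeometry Limits

/-- If `R` embeds into the field of Hahn series by series with rational coefficients, then `Spec R`
satisfies the splitting condition. -/
theorem splitting_of_embedding (R : Type) [CommRing R] [Algebra ℚ R] (j : R →+* Hah Qbar)
    (hj : Function.Injective j) (hfix : ∀ (σ : GQ) (r : R), ga σ (j r) = j r) :
    SplittingCondition (Spec (CommRingCat.of R)) := by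
  intro U _ u
  set u₀ : CommRingCat.of R ⟶ CommRingCat.of Qbar := Spec.preimage (u ≫ U.ι) with hu₀
  have hu₀' : Spec.map u₀ = u ≫ U.ι := Spec.map_preimage _
  -- the image point
  let pt : Spec (CommRingCat.of Qbar) := (⊥ : PrimeSpectrum Qbar)
  have hptU : (Spec.map u₀) pt ∈ U := by
    rw [hu₀']
    exact (u pt).2
  let W : Set (PrimeSpectrum R) := (U : Set (Spec (CommRingCat.of R)))
  have hW : IsOpen W := U.isOpen
  obtain ⟨_, ⟨f, rfl⟩, hf1, hf2⟩ := PrimeSpectrum.isTopologicalBasis_basic_opens.exists_subset_of_mem_open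
    (a := ((Spec.map u₀) pt : PrimeSpectrum R)) (u := W) hptU hW
  have hf0 : u₀.hom f ≠ 0 := by
    intro h
    apply (PrimeSpectrum.mem_basicOpen f _).1 hf1
    change u₀.hom f ∈ (⊥ : Ideal Qbar)
    rw [h]; exact Ideal.zero_mem _
  have hf0' : f ≠ 0 := by
    rintro rfl
    exact hf0 (map_zero _)
  have hjf : j f ≠ 0 := fun h => hf0' (hj (h.trans (map_zero _).symm))
  set B := Localization.Away f with hB
  have hunit : IsUnit (j f) := isUnit_iff_ne_zero.2 hjf
  have hunit' : IsUnit (u₀.hom f) := isUnit_iff_ne_zero.2 hf0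
  let jB : B →+* Hah Qbar := IsLocalization.Away.lift f hunit
  have hjB : ∀ r, jB (algebraMap R B r) = j r := fun r => IsLocalization.Away.lift_eq f hunit r
  let uB : B →+* Qbar := IsLocalization.Away.lift f hunit'
  have huB : ∀ r, uB (algebraMap R B r) = u₀.hom r := fun r => IsLocalization.Away.lift_eq f hunit' r
  letI : Algebra B (Hah Qbar) := jB.toAlgebra
  have hinj : Function.Injective (algebraMap B (Hah Qbar)) := by
    change Function.Injective jB
    rw [injective_iff_map_eq_zero]
    intro b hb
    obtain ⟨n, r, hr⟩ := IsLocalization.Away.surj f b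
    have h1 := congrArg jB hr
    rw [map_mul, hb, zero_mul, hjB] at h1
    have h2 : r = 0 := hj (h1.symm.trans (map_zero _).symm)
    rw [h2, map_zero] at hr
    have h3 : IsUnit (algebraMap R B f ^ n) := (IsLocalization.Away.algebraMap_isUnit f).pow n
    exact h3.mul_left_eq_zero.1 hr
  have hfixB : ∀ (σ : GQ) (b : B), ga σ (algebraMap B (Hah Qbar) b) = algebraMap B (Hah Qbar) b := by
    intro σ b
    have h1 : (ga σ).comp jB = jB := by
      apply IsLocalization.ringHom_ext (Submonoid.powers f)
      ext1 r
      change ga σ (jB (algebraMap R B r)) = jB (algebraMap R B r)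
      rw [hjB, hfix]
    exact congrArg (fun φ : B →+* Hah Qbar => φ b) h1
  have hrange : Set.range (Spec.map (CommRingCat.ofHom (algebraMap R B))) ⊆ Set.range U.ι := by
    rw [Scheme.Opens.range_ι]
    have h1 : Set.range (PrimeSpectrum.comap (algebraMap R B)) = (PrimeSpectrum.basicOpen f : Set (PrimeSpectrum R)) :=
      PrimeSpectrum.localization_away_comap_range B f
    have h2 : Set.range (PrimeSpectrum.comap (algebraMap R B)) ⊆ W := h1.subset.trans hf2
    exact h2
  let v : Spec (CommRingCat.of B) ⟶ U.toScheme :=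
    IsOpenImmersion.lift U.ι (Spec.map (CommRingCat.ofHom (algebraMap R B))) hrange
  have hv : v ≫ U.ι = Spec.map (CommRingCat.ofHom (algebraMap R B)) := IsOpenImmersion.lift_fac _ _ _
  refine exists_section hinj hfixB u v uB ?_
  rw [← cancel_mono U.ι, Category.assoc, hv, ← hu₀', ← Spec.map_comp]
  congr 1
  refine CommRingCat.hom_ext (RingHom.ext fun r => ?_)
  exact huB r

end Pool.Agent.TH952
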