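import Mathlib
import Pool.Agent.TH952.Splitting
import Pool.Agent.TH952.BMFinal

set_option autoImplicit false
set_option linter.style.haveILetI false

namespace Pool.Agent.TH952

section ring

/-- The relations `y² - x⁴ - 1` and `x w - 1`. -/
noncomputable def relV : Fin 2 → MvPolynomial (Fin 3) ℚ :=
  ![MvPolynomial.X 1 ^ 2 - MvPolynomial.X 0 ^ 4 - 1, MvPolynomial.X 0 * MvPolynomial.X 2 - 1]

/-- The ideal of the affine curve `y² = x⁴ + 1`, `x ≠ 0` (with `w = 1/x`). -/
noncomputable def relI : Ideal (MvPolynomial (Fin 3) ℚ) := Ideal.span (Set.range relV)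

/-- The coordinate ring of the affine curve `y² = x⁴ + 1`, `x ≠ 0`. -/
abbrev RR : Type := MvPolynomial (Fin 3) ℚ ⧸ relI

/-- the coordinate functions -/
noncomputable def gen (i : Fin 3) : RR := Ideal.Quotient.mk relI (MvPolynomial.X i)

lemma rel1 : gen 1 ^ 2 = gen 0 ^ 4 + 1 := by
  have h : Ideal.Quotient.mk relI (MvPolynomial.X 1 ^ 2 - MvPolynomial.X 0 ^ 4 - 1) = 0 :=
    Ideal.Quotient.eq_zero_iff_mem.2 (Ideal.subset_span ⟨0, rfl⟩)
  simp only [map_sub, map_pow, map_one] at h
  have h' : gen 1 ^ 2 - gen 0 ^ 4 - 1 = 0 := h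
  linear_combination h'

lemma rel2 : gen 0 * gen 2 = 1 := by
  have h : Ideal.Quotient.mk relI (MvPolynomial.X 0 * MvPolynomial.X 2 - 1) = 0 :=
    Ideal.Quotient.eq_zero_iff_mem.2 (Ideal.subset_span ⟨1, rfl⟩)
  simp only [map_sub, map_mul, map_one] at h
  have h' : gen 0 * gen 2 - 1 = 0 := h
  linear_combination h'

/-- the unit `x` -/
noncomputable def ux : RRˣ := ⟨gen 0, gen 2, rel2, by rw [mul_comm, rel2]⟩

/-- the unit `z = y + x²` -/
noncomputable def uz : RRˣ := ⟨gen 1 + gen 0 ^ 2, gen 1 - gen 0 ^ 2, by linear_combination rel1,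
  by linear_combination rel1⟩

lemma unit_rel : 2 * (ux : RR) ^ 2 * uz = (uz : RR) ^ 2 - 1 := by
  change 2 * gen 0 ^ 2 * (gen 1 + gen 0 ^ 2) = (gen 1 + gen 0 ^ 2) ^ 2 - 1
  linear_combination -rel1

/-- homomorphisms out of the coordinate ring -/
noncomputable def liftR {K : Type} [CommRing K] [Algebra ℚ K] (x y w : K) (h1 : y ^ 2 = x ^ 4 + 1)
    (h2 : x * w = 1) : RR →ₐ[ℚ] K :=
  Ideal.Quotient.liftₐ relI (MvPolynomial.aeval ![x, y, w]) (by
    intro a ha
    have h3 : relI ≤ RingHom.ker (MvPolynomial.aeval ![x, y, w] : MvPolynomial (Fin 3) ℚ →ₐ[ℚ] K) := by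
      unfold relI
      rw [Ideal.span_le]
      rintro b ⟨i, rfl⟩
      rw [SetLike.mem_coe, RingHom.mem_ker]
      fin_cases i
      · simp [relV, h1]
      · simp [relV, h2]
    exact h3 ha)

lemma liftR_gen {K : Type} [CommRing K] [Algebra ℚ K] (x y w : K) (h1 : y ^ 2 = x ^ 4 + 1)
    (h2 : x * w = 1) (i : Fin 3) : liftR x y w h1 h2 (gen i) = ![x, y, w] i := by
  change MvPolynomial.aeval ![x, y, w] (MvPolynomial.X i : MvPolynomial (Fin 3) ℚ) = _
  rw [MvPolynomial.aeval_X]

/-- normal form -/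
lemma normal_form (r : RR) : ∃ (N : ℕ) (a b : Polynomial ℚ),
    gen 0 ^ N * r = Polynomial.aeval (gen 0) a + Polynomial.aeval (gen 0) b * gen 1 := by
  obtain ⟨q, rfl⟩ := Ideal.Quotient.mk_surjective r
  induction q using MvPolynomial.induction_on with
  | C c =>
    refine ⟨0, Polynomial.C c, 0, ?_⟩
    rw [pow_zero, one_mul, Polynomial.aeval_C, map_zero, zero_mul, add_zero]
    rfl
  | add p q hp hq =>
    obtain ⟨N, a, b, h⟩ := hp
    obtain ⟨M, c, d, h'⟩ := hq
    refine ⟨N + M, Polynomial.X ^ M * a + Polynomial.X ^ N * c, Polynomial.X ^ M * b + Polynomial.X ^ N * d, ?_⟩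
    simp only [map_add, map_mul, map_pow, Polynomial.aeval_X]
    linear_combination gen 0 ^ M * h + gen 0 ^ N * h'
  | mul_X p i hp =>
    obtain ⟨N, a, b, h⟩ := hp
    rw [map_mul]
    change ∃ (N : ℕ) (a b : Polynomial ℚ), gen 0 ^ N * (Ideal.Quotient.mk relI p * gen i) = _
    fin_cases i
    · refine ⟨N, Polynomial.X * a, Polynomial.X * b, ?_⟩
      simp only [map_mul, Polynomial.aeval_X, Fin.zero_eta]
      linear_combination gen 0 * h
    · refine ⟨N, b * (Polynomial.X ^ 4 + 1), a, ?_⟩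
      simp only [map_mul, map_add, map_pow, map_one, Polynomial.aeval_X, Fin.mk_one]
      linear_combination gen 1 * h + Polynomial.aeval (gen 0) b * rel1
    · refine ⟨N + 1, a, b, ?_⟩
      change gen 0 ^ (N + 1) * (Ideal.Quotient.mk relI p * gen 2) = _
      rw [← h]
      linear_combination gen 0 ^ N * Ideal.Quotient.mk relI p * rel2

end ring

section embedding

/-- the parameter `t` -/
noncomputable def tt : Hah Qbar := HahnSeries.single 1 1

lemma tt_pow (n : ℕ) : tt ^ n = HahnSeries.single (n : ℚ) 1 := by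
  unfold tt
  rw [HahnSeries.single_pow, one_pow, nsmul_eq_mul, mul_one]

lemma hn_sq_one : hn (1 + tt ^ 4) = 1 := by
  have h0 : ((1 + tt ^ 4 : Hah Qbar)).coeff 0 = 1 := by
    rw [tt_pow, HahnSeries.coeff_add, HahnSeries.coeff_single_of_ne (by norm_num), add_zero]
    simp
  have hne : (1 + tt ^ 4 : Hah Qbar) ≠ 0 := by
    intro h
    rw [h] at h0
    simp at h0
  apply le_antisymm
  · refine (hn_add _ _).trans (max_le ?_ ?_)
    · have := hn_C (K := Qbar) one_ne_zero
      rw [map_one] at this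
      exact this.le
    · rw [tt_pow, hn_single one_ne_zero, Real.exp_le_one_iff]
      norm_num
  · by_contra hcon
    rw [not_le] at hcon
    have h1 := (hn_lt_iff (1 + tt ^ 4 : Hah Qbar) 0).1 (by simpa using hcon) 0 le_rfl
    rw [h0] at h1
    exact one_ne_zero h1

lemma exists_yy : ∃ y : Hah Qbar, y ^ 2 = tt ^ 4 + 1 ∧ ∀ σ : GQ, ga σ y = y := by
  obtain ⟨y, hy⟩ := IsAlgClosed.exists_pow_nat_eq (1 + tt ^ 4 : Hah Qbar) (n := 2) (by norm_num)
  have hy1 : hn y = 1 := by
    have h1 := congrArg hn hy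
    rw [pow_two, hn_mul, hn_sq_one] at h1
    have h2 := hn_nonneg y
    nlinarith
  have hy0 : y ≠ 0 := by
    rintro rfl
    rw [hn_zero] at hy1
    exact zero_ne_one hy1
  have hord : y.order = 0 := by
    rw [hn_of_ne hy0, Real.exp_eq_one_iff] at hy1
    have : (y.order : ℝ) = 0 := by linarith
    exact_mod_cast this
  have hc0 : y.coeff 0 ^ 2 = 1 := by
    have h3 := HahnSeries.coeff_mul_order_add_order y y
    rw [hord, add_zero, ← pow_two, hy, HahnSeries.leadingCoeff_eq, hord] at h3
    rw [pow_two, ← h3, tt_pow, HahnSeries.coeff_add, HahnSeries.coeff_single_of_ne (by norm_num), add_zero]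
    simp
  refine ⟨y, by rw [hy]; ring, ?_⟩
  intro σ
  have htt : ga σ tt = tt := by
    unfold ga tt
    rw [hmap_single, map_one]
  have h4 : (ga σ y) ^ 2 = y ^ 2 := by
    rw [← map_pow, hy, map_add, map_one, map_pow, htt]
  rcases sq_eq_sq_iff_eq_or_eq_neg.1 h4 with h5 | h5
  · exact h5
  · exfalso
    have h6 := congrArg (fun z : Hah Qbar => z.coeff 0) h5
    simp only [ga_coeff, HahnSeries.coeff_neg] at h6
    have h8 : (1 : Qbar) ≠ -1 := by
      intro h9
      have h10 : (2 : Qbar) = 0 := by linear_combination h9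
      exact two_ne_zero h10
    rcases sq_eq_one_iff.1 hc0 with h7 | h7
    · rw [h7, map_one] at h6
      exact h8 h6
    · rw [h7, map_neg, map_one, neg_neg] at h6
      exact h8 h6.symm

lemma aeval_tt_coeff (a : Polynomial ℚ) (j : ℕ) :
    (Polynomial.aeval tt a).coeff (j : ℚ) = algebraMap ℚ Qbar (a.coeff j) := by
  rw [Polynomial.aeval_eq_sum_range]
  have h1 : ∀ i, (a.coeff i • tt ^ i) = HahnSeries.single (i : ℚ) (algebraMap ℚ Qbar (a.coeff i)) := by
    intro i
    have h2 : (HahnSeries.C : Qbar →+* Hah Qbar).comp (algebraMap ℚ Qbar) = algebraMap ℚ (Hah Qbar) :=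
      Subsingleton.elim _ _
    rw [tt_pow, Algebra.smul_def, ← h2, RingHom.comp_apply, HahnSeries.C_apply,
      HahnSeries.single_mul_single, zero_add, mul_one]
  simp only [h1]
  rw [HahnSeries.coeff_sum, Finset.sum_eq_single j]
  · rw [HahnSeries.coeff_single_same]
  · intro i _ hij
    rw [HahnSeries.coeff_single_of_ne]
    exact_mod_cast hij.symm
  · intro h
    rw [Finset.mem_range, not_lt] at h
    rw [Polynomial.coeff_eq_zero_of_natDegree_lt (by omega), map_zero]
    simp

lemma aeval_tt_injective (a : Polynomial ℚ) (h : Polynomial.aeval tt a = 0) : a = 0 := by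
  ext j
  have h1 := aeval_tt_coeff a j
  rw [h, HahnSeries.coeff_zero, eq_comm, map_eq_zero] at h1
  rw [h1, Polynomial.coeff_zero]

lemma poly_ne (a b : Polynomial ℚ) (h : a ^ 2 = b ^ 2 * (Polynomial.X ^ 4 + 1)) : b = 0 := by
  by_contra hb
  have h1 : b ^ 2 ∣ a ^ 2 := ⟨_, h⟩
  have h2 : b ∣ a := (UniqueFactorizationMonoid.pow_dvd_pow_iff_dvd two_ne_zero).1 h1
  obtain ⟨c, rfl⟩ := h2
  have h3 : c ^ 2 = Polynomial.X ^ 4 + 1 := by
    have h4 : b ^ 2 ≠ 0 := pow_ne_zero 2 hb
    apply mul_left_cancel₀ h4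
    rw [← h]; ring
  have h5 := congrArg (Polynomial.eval 1) h3
  simp only [Polynomial.eval_pow, Polynomial.eval_add, Polynomial.eval_X, Polynomial.eval_one, one_pow] at h5
  have h6 : IsSquare ((2 : ℤ) : ℚ) := ⟨Polynomial.eval 1 c, by rw [← pow_two, h5]; norm_num⟩
  rw [Rat.isSquare_intCast_iff] at h6
  obtain ⟨r, hr⟩ := h6
  have h7 : r ≤ 1 := by nlinarith
  have h8 : -1 ≤ r := by nlinarith
  interval_cases r <;> omega

/-- The coordinate ring embeds into the field of Hahn series, with Galois-invariant image. -/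
theorem exists_embedding : ∃ j : RR →ₐ[ℚ] Hah Qbar, Function.Injective j ∧
    ∀ (σ : GQ) (r : RR), ga σ (j r) = j r := by
  obtain ⟨y, hy, hfix⟩ := exists_yy
  have htw : tt * HahnSeries.single (-1) 1 = 1 := by
    unfold tt
    rw [HahnSeries.single_mul_single]
    norm_num
  set j : RR →ₐ[ℚ] Hah Qbar := liftR tt y (HahnSeries.single (-1) 1) hy htw with hj
  have hj0 : j (gen 0) = tt := liftR_gen _ _ _ _ _ 0
  have hj1 : j (gen 1) = y := liftR_gen _ _ _ _ _ 1
  refine ⟨j, ?_, ?_⟩
  · rw [injective_iff_map_eq_zero]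
    intro r hr
    obtain ⟨N, a, b, h⟩ := normal_form r
    have h1 := congrArg j h
    rw [map_mul, hr, mul_zero, map_add, map_mul, hj1, ← Polynomial.aeval_algHom_apply,
      ← Polynomial.aeval_algHom_apply, hj0] at h1
    have h2 : Polynomial.aeval tt (a ^ 2 - b ^ 2 * (Polynomial.X ^ 4 + 1)) = 0 := by
      simp only [map_sub, map_mul, map_pow, map_add, map_one, Polynomial.aeval_X]
      rw [← hy]
      linear_combination (Polynomial.aeval tt b * y - Polynomial.aeval tt a) * h1
    have h3 := sub_eq_zero.1 (aeval_tt_injective _ h2)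
    have hb := poly_ne a b h3
    subst hb
    rw [map_zero, zero_mul, add_zero] at h1
    have ha := aeval_tt_injective a h1.symm
    subst ha
    rw [map_zero, zero_mul, add_zero] at h
    have h4 : IsUnit (gen 0 ^ N) := (ux.isUnit).pow N
    exact h4.mul_right_eq_zero.1 h
  · intro σ r
    obtain ⟨q, rfl⟩ := Ideal.Quotient.mk_surjective r
    have h5 : ((ga σ).comp (j : RR →+* Hah Qbar)).comp (Ideal.Quotient.mk relI) =
        (j : RR →+* Hah Qbar).comp (Ideal.Quotient.mk relI) := by
      apply MvPolynomial.ringHom_ext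
      · intro c
        have : (((ga σ).comp (j : RR →+* Hah Qbar)).comp (Ideal.Quotient.mk relI)).comp MvPolynomial.C =
          ((j : RR →+* Hah Qbar).comp (Ideal.Quotient.mk relI)).comp MvPolynomial.C := Subsingleton.elim _ _
        exact congrArg (fun f : ℚ →+* Hah Qbar => f c) this
      · intro i
        change ga σ (j (gen i)) = j (gen i)
        rw [hj, liftR_gen]
        fin_cases i
        · change ga σ tt = tt
          unfold ga tt
          rw [hmap_single, map_one]
        · exact hfix σ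
        · change ga σ (HahnSeries.single (-1) 1) = HahnSeries.single (-1) 1
          unfold ga
          rw [hmap_single, map_one]
    exact congrArg (fun f : MvPolynomial (Fin 3) ℚ →+* Hah Qbar => f q) h5

instance RR_isDomain : IsDomain RR := by
  obtain ⟨j, hj, -⟩ := exists_embedding
  exact hj.isDomain (j : RR →+* Hah Qbar)

theorem RR_splitting : SplittingCondition (AlgebraicGeometry.Spec (CommRingCat.of RR)) := by
  obtain ⟨j, hj, hfix⟩ := exists_embedding
  exact splitting_of_embedding RR (j : RR →+* Hah Qbar) hj hfix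

theorem RR_bm : BrauerManinSet RR = ∅ := bm_empty ux uz unit_rel

end embedding

end Pool.Agent.TH952
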