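import Mathlib
import Pool.Agent.TH952.RDef

set_option autoImplicit false
set_option linter.style.haveILetI false

namespace Pool.Agent.TH952

open Polynomial

section loc

variable (p : ℕ) [hp : Fact p.Prime]

lemma norm_nat_one (hp5 : 5 < p) (n : ℕ) (hn : n ∣ 30) : ‖((n : ℕ) : ℚ_[p])‖ = 1 := by
  rw [Padic.norm_natCast_eq_one_iff, Nat.Prime.coprime_iff_not_dvd hp.out]
  intro h
  have h1 : p ∣ 30 := h.trans hn
  have h2 : p ∣ 2 * 3 * 5 := by simpa using h1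
  rcases (Nat.Prime.dvd_mul hp.out).1 h2 with h3 | h3
  · rcases (Nat.Prime.dvd_mul hp.out).1 h3 with h4 | h4
    · have := Nat.le_of_dvd (by norm_num) h4; omega
    · have := Nat.le_of_dvd (by norm_num) h4; omega
  · have := Nat.le_of_dvd (by norm_num) h3; omega

lemma exists_square (hp5 : 5 < p) : IsSquare ((3 : ℤ) : ZMod p) ∨ IsSquare ((10 : ℤ) : ZMod p) ∨
    IsSquare ((30 : ℤ) : ZMod p) := by
  have hne : ∀ n : ℕ, n ∣ 30 → ((n : ℕ) : ZMod p) ≠ 0 := by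
    intro n hn h
    rw [ZMod.natCast_eq_zero_iff] at h
    have h1 := norm_nat_one p hp5 n hn
    rw [Padic.norm_natCast_eq_one_iff, Nat.Prime.coprime_iff_not_dvd hp.out] at h1
    exact h1 h
  have h3 : (3 : ZMod p) ≠ 0 := by simpa using hne 3 (by norm_num)
  have h10 : (10 : ZMod p) ≠ 0 := by simpa using hne 10 (by norm_num)
  have h30 : (30 : ZMod p) ≠ 0 := by simpa using hne 30 (by norm_num)
  have hchar : ringChar (ZMod p) ≠ 2 := by
    rw [ZMod.ringChar_zmod_n]; omega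
  by_contra hcon
  push Not at hcon
  obtain ⟨c1, c2, c3⟩ := hcon
  push_cast at c1 c2 c3
  have e1 := (quadraticChar_neg_one_iff_not_isSquare (F := ZMod p)).2 c1
  have e2 := (quadraticChar_neg_one_iff_not_isSquare (F := ZMod p)).2 c2
  have e3 := (quadraticChar_neg_one_iff_not_isSquare (F := ZMod p)).2 c3
  have e4 : quadraticChar (ZMod p) (3 * 10 * 30) = 1 := by
    have h : (3 * 10 * 30 : ZMod p) = 30 ^ 2 := by norm_num
    rw [h, map_pow]
    exact quadraticChar_sq_one h30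
  rw [map_mul, map_mul, e1, e2, e3] at e4
  norm_num at e4

lemma hensel_sq (hp5 : 5 < p) (a : ℤ) (ha' : ‖(a : ℚ_[p])‖ = 1) (h : IsSquare ((a : ℤ) : ZMod p)) :
    ∃ s : ℚ_[p], s ^ 2 = a := by
  have ha : ‖(a : ℤ_[p])‖ = 1 := by
    rw [PadicInt.norm_def, PadicInt.coe_intCast]
    exact ha'
  obtain ⟨b, hb⟩ := h
  obtain ⟨c, rfl⟩ := ZMod.intCast_surjective b
  have h1 : (p : ℤ) ∣ c ^ 2 - a := by
    rw [← ZMod.intCast_zmod_eq_zero_iff_dvd]
    push_cast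
    rw [hb]; ring
  have h2 : ‖((c ^ 2 - a : ℤ) : ℤ_[p])‖ < 1 := PadicInt.norm_int_lt_one_iff_dvd _ |>.2 h1
  have h3 : ‖(c : ℤ_[p])‖ = 1 := by
    by_contra hcon
    have h4 : ‖(c : ℤ_[p])‖ < 1 := lt_of_le_of_ne (PadicInt.norm_le_one _) hcon
    have h5 : (a : ℤ_[p]) = (c : ℤ_[p]) * c - ((c ^ 2 - a : ℤ) : ℤ_[p]) := by push_cast; ring
    have h6 : ‖(a : ℤ_[p])‖ < 1 := by
      rw [h5, sub_eq_add_neg]
      apply PadicInt.norm_lt_one_add (PadicInt.norm_lt_one_mul h4)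
      rwa [norm_neg]
    linarith
  have h2' : ‖(2 : ℤ_[p])‖ = 1 := by
    have := norm_nat_one p hp5 2 (by norm_num)
    exact_mod_cast this
  obtain ⟨z, hz, -⟩ := hensels_lemma (p := p) (F := (X : ℤ_[p][X]) ^ 2 - C (a : ℤ_[p])) (a := (c : ℤ_[p])) (by
    simp only [map_sub, map_pow, aeval_X, aeval_C, derivative_X_pow, derivative_C,
      sub_zero, map_mul, Algebra.algebraMap_self, RingHom.id_apply]
    push_cast at h2 ⊢
    simp only [norm_mul, h2', norm_pow, h3]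
    simpa using h2)
  refine ⟨(z : ℚ_[p]), ?_⟩
  simp only [map_sub, map_pow, aeval_X, aeval_C, Algebra.algebraMap_self, RingHom.id_apply] at hz
  have h7 : z ^ 2 = (a : ℤ_[p]) := sub_eq_zero.1 hz
  have h8 := congrArg (fun x : ℤ_[p] => (x : ℚ_[p])) h7
  simpa using h8

lemma norm_sq_one {x : ℚ_[p]} (h : ‖x ^ 2‖ = 1) : ‖x‖ = 1 := by
  rw [norm_pow] at h
  have := norm_nonneg x
  nlinarith

/-- integral points at the primes `p > 5` -/
lemma good_point (hp5 : 5 < p) : ∃ x y w : ℚ_[p], y ^ 2 = x ^ 4 + 1 ∧ x * w = 1 ∧ ‖x‖ ≤ 1 ∧ ‖y‖ ≤ 1 ∧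
    ‖w‖ ≤ 1 := by
  have n2 : ‖(2 : ℚ_[p])‖ = 1 := by simpa using norm_nat_one p hp5 2 (by norm_num)
  have n3 : ‖(3 : ℚ_[p])‖ = 1 := by simpa using norm_nat_one p hp5 3 (by norm_num)
  have n5 : ‖(5 : ℚ_[p])‖ = 1 := by simpa using norm_nat_one p hp5 5 (by norm_num)
  have key : ∀ (x y : ℚ_[p]), y ^ 2 = x ^ 4 + 1 → ‖x ^ 2‖ = 1 → ‖y‖ ≤ 1 →
      ∃ x y w : ℚ_[p], y ^ 2 = x ^ 4 + 1 ∧ x * w = 1 ∧ ‖x‖ ≤ 1 ∧ ‖y‖ ≤ 1 ∧ ‖w‖ ≤ 1 := by
    intro x y h1 h2 h3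
    have h4 := norm_sq_one p h2
    have h5 : x ≠ 0 := by
      rintro rfl
      rw [norm_zero] at h4
      exact zero_ne_one h4
    exact ⟨x, y, x⁻¹, h1, mul_inv_cancel₀ h5, h4.le, h3, by rw [norm_inv, h4, inv_one]⟩
  have hyint : ∀ (a : ℤ) (b : ℚ_[p]), ‖b‖ = 1 → ‖(a : ℚ_[p]) / b‖ ≤ 1 := by
    intro a b hb
    rw [norm_div, hb, div_one]
    exact Padic.norm_int_le_one a
  rcases exists_square p hp5 with h | h | h
  · obtain ⟨s, hs⟩ := hensel_sq p hp5 3 (by simpa using norm_nat_one p hp5 3 (by norm_num)) h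
    push_cast at hs
    refine key (s / 2) (((5 : ℤ) : ℚ_[p]) / 4) ?_ ?_ (hyint 5 4 ?_)
    · push_cast
      linear_combination (-(s ^ 2 + 3) / 16) * hs
    · rw [div_pow, hs, norm_div, norm_pow, n2, n3]; norm_num
    · have : (4 : ℚ_[p]) = 2 ^ 2 := by norm_num
      rw [this, norm_pow, n2, one_pow]
  · obtain ⟨s, hs⟩ := hensel_sq p hp5 10 (by simpa using norm_nat_one p hp5 10 (by norm_num)) h
    push_cast at hs
    have n10 : ‖(10 : ℚ_[p])‖ = 1 := by simpa using norm_nat_one p hp5 10 (by norm_num)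
    refine key (2 * s / 3) (((41 : ℤ) : ℚ_[p]) / 9) ?_ ?_ (hyint 41 9 ?_)
    · push_cast
      linear_combination (-16 * (s ^ 2 + 10) / 81) * hs
    · rw [div_pow, mul_pow, hs, norm_div, norm_mul, norm_pow, norm_pow, n2, n3, n10]; norm_num
    · have : (9 : ℚ_[p]) = 3 ^ 2 := by norm_num
      rw [this, norm_pow, n3, one_pow]
  · obtain ⟨s, hs⟩ := hensel_sq p hp5 30 (by simpa using norm_nat_one p hp5 30 (by norm_num)) h
    push_cast at hs
    have n30 : ‖(30 : ℚ_[p])‖ = 1 := by simpa using norm_nat_one p hp5 30 (by norm_num)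
    have n4 : ‖(4 : ℚ_[p])‖ = 1 := by
      have : (4 : ℚ_[p]) = 2 ^ 2 := by norm_num
      rw [this, norm_pow, n2, one_pow]
    refine key (s / 4) (((17 : ℤ) : ℚ_[p]) / 8) ?_ ?_ (hyint 17 8 ?_)
    · push_cast
      linear_combination (-(s ^ 2 + 30) / 256) * hs
    · rw [div_pow, hs, norm_div, norm_pow, n4, n30]; norm_num
    · have : (8 : ℚ_[p]) = 2 ^ 3 := by norm_num
      rw [this, norm_pow, n2, one_pow]

/-- points at all primes -/
lemma bad_point : ∃ x y w : ℚ_[p], y ^ 2 = x ^ 4 + 1 ∧ x * w = 1 := by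
  have hp0 : (p : ℚ_[p]) ≠ 0 := by exact_mod_cast hp.out.ne_zero
  have h2 : (p : ℝ)⁻¹ ≤ ‖(2 : ℤ_[p])‖ := by
    by_cases h : p = 2
    · subst h
      have : ‖((2 : ℕ) : ℤ_[2])‖ = (2 : ℝ)⁻¹ := PadicInt.norm_p
      rw [Nat.cast_ofNat] at this
      rw [this]
      norm_num
    · have h3 : ‖((2 : ℕ) : ℤ_[p])‖ = 1 := by
        rw [PadicInt.norm_natCast_eq_one_iff]
        exact (Nat.coprime_primes hp.out Nat.prime_two).2 h
      rw [Nat.cast_ofNat] at h3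
      rw [h3]
      exact inv_le_one_of_one_le₀ (by exact_mod_cast hp.out.one_le)
  have hpn : ‖(p : ℤ_[p])‖ = (p : ℝ)⁻¹ := PadicInt.norm_p
  have hp2 : (2 : ℝ) ≤ p := by exact_mod_cast hp.out.two_le
  obtain ⟨z, hz, -⟩ := hensels_lemma (p := p) (F := (X : ℤ_[p][X]) ^ 2 - C ((p : ℤ_[p]) ^ 4 + 1))
    (a := (1 : ℤ_[p])) (by
    have h4 : ((X : ℤ_[p][X]) ^ 2 - C ((p : ℤ_[p]) ^ 4 + 1)).aeval (1 : ℤ_[p]) = - (p : ℤ_[p]) ^ 4 := by
      simp
    have h5 : (derivative ((X : ℤ_[p][X]) ^ 2 - C ((p : ℤ_[p]) ^ 4 + 1))).aeval (1 : ℤ_[p]) = 2 := by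
      rw [derivative_sub, derivative_X_pow, derivative_C, sub_zero]
      simp
    rw [h4, h5, norm_neg, norm_pow, hpn]
    have h6 : 0 < (p : ℝ)⁻¹ := by positivity
    have h7 : (p : ℝ)⁻¹ < 1 := inv_lt_one_of_one_lt₀ (by linarith)
    calc ((p : ℝ)⁻¹) ^ 4 < ((p : ℝ)⁻¹) ^ 2 := pow_lt_pow_right_of_lt_one₀ h6 h7 (by norm_num)
      _ ≤ ‖(2 : ℤ_[p])‖ ^ 2 := pow_le_pow_left₀ h6.le h2 2)
  simp only [map_sub, map_pow, aeval_X, aeval_C, Algebra.algebraMap_self, RingHom.id_apply] at hz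
  have h7 : z ^ 2 = (p : ℤ_[p]) ^ 4 + 1 := sub_eq_zero.1 hz
  have h8 := congrArg (fun x : ℤ_[p] => (x : ℚ_[p])) h7
  refine ⟨p, z, (p : ℚ_[p])⁻¹, ?_, mul_inv_cancel₀ hp0⟩
  simpa using h8

lemma exists_loc : ∃ φ : RR →ₐ[ℚ] ℚ_[p], 5 < p → ∀ i, ‖φ (gen i)‖ ≤ 1 := by
  by_cases hp5 : 5 < p
  · obtain ⟨x, y, w, h1, h2, h3, h4, h5⟩ := good_point p hp5
    refine ⟨liftR x y w h1 h2, fun _ i => ?_⟩
    rw [liftR_gen]
    fin_cases i
    · exact h3
    · exact h4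
    · exact h5
  · obtain ⟨x, y, w, h1, h2⟩ := bad_point p
    exact ⟨liftR x y w h1 h2, fun h => absurd h hp5⟩

end loc

/-- An adelic point of the curve. -/
theorem exists_adelic : Nonempty (AdelicPoint RR) := by
  have hreal : (Real.sqrt 2) ^ 2 = (1 : ℝ) ^ 4 + 1 := by
    rw [Real.sq_sqrt (by norm_num)]; norm_num
  choose φ hφ using exists_loc
  refine ⟨⟨liftR 1 (Real.sqrt 2) 1 hreal (one_mul 1), fun p hp => @φ p hp, ?_⟩⟩
  intro f
  obtain ⟨q, rfl⟩ := Ideal.Quotient.mk_surjective f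
  induction q using MvPolynomial.induction_on with
  | C c =>
    refine ⟨c.den, fun p hp hlt => ?_⟩
    have h1 : (@φ p hp) (Ideal.Quotient.mk relI (MvPolynomial.C c)) = (c : ℚ_[p]) := by
      have h2 : Ideal.Quotient.mk relI (MvPolynomial.C c) = algebraMap ℚ RR c := rfl
      rw [h2, AlgHom.commutes]
      exact eq_ratCast _ c
    rw [h1]
    have h3 : ‖((c.den : ℕ) : ℚ_[p])‖ = 1 := by
      rw [Padic.norm_natCast_eq_one_iff, Nat.Prime.coprime_iff_not_dvd hp.out]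
      intro h
      have := Nat.le_of_dvd c.den_pos h
      omega
    rw [Rat.cast_def, norm_div, h3, div_one]
    exact Padic.norm_int_le_one _
  | add a b ha hb =>
    obtain ⟨N, hN⟩ := ha
    obtain ⟨M, hM⟩ := hb
    refine ⟨max N M, fun p hp hlt => ?_⟩
    rw [map_add, map_add]
    exact le1_add (hN p (lt_of_le_of_lt (le_max_left _ _) hlt)) (hM p (lt_of_le_of_lt (le_max_right _ _) hlt))
  | mul_X a i ha =>
    obtain ⟨N, hN⟩ := ha
    refine ⟨max N 5, fun p hp hlt => ?_⟩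
    rw [map_mul, map_mul]
    exact le1_mul (hN p (lt_of_le_of_lt (le_max_left _ _) hlt))
      (hφ p (lt_of_le_of_lt (le_max_right _ _) hlt) i)

end Pool.Agent.TH952
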