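import Mathlib
import Pool.Agent.TH952.RDef

set_option autoImplicit false
set_option linter.style.haveILetI false

namespace Pool.Agent.TH952

open MvPolynomial

/-- the variables `x`, `w` used for the Jacobian -/
def varA : Fin 2 → Fin 3 := ![0, 2]

lemma varA_injective : Function.Injective varA := by decide

/-- the presentation -/
noncomputable def presR : Algebra.PreSubmersivePresentation ℚ RR (Fin 3) (Fin 2) :=
  Algebra.PreSubmersivePresentation.naive (v := relV) varA varA_injective

lemma presR_det : presR.jacobiMatrix.det = -4 * (X 0 : MvPolynomial (Fin 3) ℚ) ^ 4 := by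
  rw [Matrix.det_fin_two]
  have h : ∀ i j, presR.jacobiMatrix i j = (relV j).pderiv (varA i) := fun i j =>
    Algebra.PreSubmersivePresentation.jacobiMatrix_naive varA varA_injective _ _ i j
  rw [h, h, h, h]
  have e00 : (pderiv (varA 0)) (relV 0) = -4 * (X 0 : MvPolynomial (Fin 3) ℚ) ^ 3 := by
    simp [varA, relV]
  have e01 : (pderiv (varA 0)) (relV 1) = (X 2 : MvPolynomial (Fin 3) ℚ) := by
    simp [varA, relV]
  have e10 : (pderiv (varA 1)) (relV 0) = (0 : MvPolynomial (Fin 3) ℚ) := by
    simp [varA, relV]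
  have e11 : (pderiv (varA 1)) (relV 1) = (X 0 : MvPolynomial (Fin 3) ℚ) := by
    simp [varA, relV]
  rw [e00, e01, e10, e11]
  ring

lemma presR_algebraMap (q : MvPolynomial (Fin 3) ℚ) :
    algebraMap presR.Ring RR q = Ideal.Quotient.mk relI q := by
  rw [Algebra.Generators.algebraMap_apply]
  have h : (aeval presR.val : MvPolynomial (Fin 3) ℚ →ₐ[ℚ] RR) = Ideal.Quotient.mkₐ ℚ relI := by
    ext i
    rw [aeval_X]
    rfl
  exact congrArg (fun f : MvPolynomial (Fin 3) ℚ →ₐ[ℚ] RR => f q) h

lemma presR_jacobian : IsUnit presR.jacobian := by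
  rw [Algebra.PreSubmersivePresentation.jacobian_eq_jacobiMatrix_det, presR_det, presR_algebraMap]
  have h2 : Ideal.Quotient.mk relI (-4 * (X 0 : MvPolynomial (Fin 3) ℚ) ^ 4) = -4 * (gen 0) ^ 4 := by
    simp only [map_mul, map_neg, map_pow, map_ofNat]
    rfl
  rw [h2]
  have h4 : IsUnit (-4 : RR) := by
    have h5 : IsUnit (-4 : ℚ) := by norm_num
    have h6 := h5.map (algebraMap ℚ RR)
    rwa [map_neg, map_ofNat] at h6
  exact h4.mul (ux.isUnit.pow 4)

/-- The curve is smooth of relative dimension `1`. -/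
theorem RR_smooth : Algebra.IsStandardSmoothOfRelativeDimension 1 ℚ RR := by
  let P : Algebra.SubmersivePresentation ℚ RR (Fin 3) (Fin 2) :=
    { toPreSubmersivePresentation := presR
      jacobian_isUnit := presR_jacobian }
  refine P.isStandardSmoothOfRelativeDimension ?_
  change Nat.card (Fin 3) - Nat.card (Fin 2) = 1
  simp

end Pool.Agent.TH952
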