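import Mathlib
import Pool.Agent.TH952.Smooth

set_option autoImplicit false
set_option linter.style.haveILetI false

namespace Pool.Agent.TH952

open TensorProduct

section poly

/-- `X⁴ + 1` is not a square -/
lemma not_sq {K : Type} [Field K] [CharZero K] (c : Polynomial K) (h : c ^ 2 = Polynomial.X ^ 4 + 1) :
    False := by
  have h1 : 2 * (c * Polynomial.derivative c) = 4 * Polynomial.X ^ 3 := by
    have := congrArg Polynomial.derivative h
    simp only [Polynomial.derivative_pow, Polynomial.derivative_add, Polynomial.derivative_X,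
      Polynomial.derivative_one, mul_one, add_zero] at this
    have h2 : (Polynomial.C ((2 : ℕ) : K)) = 2 := by rw [map_natCast]; norm_num
    have h4 : (Polynomial.C ((4 : ℕ) : K)) = 4 := by rw [map_natCast]; norm_num
    rw [h2, h4] at this
    linear_combination this
  have h3 : c * Polynomial.derivative c = 2 * Polynomial.X ^ 3 := by
    have h2 : (2 : Polynomial K) ≠ 0 := two_ne_zero
    apply mul_left_cancel₀ h2
    rw [h1]; ring
  have hdvd : c ∣ Polynomial.X ^ 3 := by
    have hu : IsUnit (2 : Polynomial K) := by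
      have h5 : IsUnit (2 : K) := isUnit_iff_ne_zero.2 two_ne_zero
      have h6 := h5.map (Polynomial.C)
      rwa [map_ofNat] at h6
    rw [← hu.dvd_mul_left]
    exact ⟨_, h3.symm⟩
  rw [dvd_prime_pow Polynomial.prime_X] at hdvd
  obtain ⟨i, -, hi⟩ := hdvd
  rcases Nat.eq_zero_or_pos i with h0 | h0
  · subst h0
    rw [pow_zero, associated_one_iff_isUnit] at hi
    have h7 : (c ^ 2).natDegree = 0 := Polynomial.natDegree_eq_zero_of_isUnit (hi.pow 2)
    rw [h] at h7
    have h8 : (Polynomial.X ^ 4 + 1 : Polynomial K).natDegree = 4 := by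
      have := Polynomial.natDegree_X_pow_add_C (R := K) (n := 4) (r := 1)
      rwa [map_one] at this
    omega
  · have h9 : Polynomial.X ∣ c := (dvd_pow_self _ h0.ne').trans hi.symm.dvd
    have h10 : Polynomial.X ∣ c ^ 2 := h9.trans (dvd_pow_self c two_ne_zero)
    rw [h, Polynomial.X_dvd_iff] at h10
    simp at h10

lemma poly_ne' {K : Type} [Field K] [CharZero K] (a b : Polynomial K)
    (h : a ^ 2 = b ^ 2 * (Polynomial.X ^ 4 + 1)) : b = 0 := by
  by_contra hb
  have h1 : b ^ 2 ∣ a ^ 2 := ⟨_, h⟩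
  have h2 : b ∣ a := (UniqueFactorizationMonoid.pow_dvd_pow_iff_dvd two_ne_zero).1 h1
  obtain ⟨c, rfl⟩ := h2
  refine not_sq c ?_
  have h4 : b ^ 2 ≠ 0 := pow_ne_zero 2 hb
  apply mul_left_cancel₀ h4
  rw [← h]; ring

end poly

section nf

variable {K E : Type} [Field K] [CommRing E] [Algebra K E] (x y : E)

/-- elements with a normal form -/
def NF (e : E) : Prop := ∃ (N : ℕ) (a b : Polynomial K),
    x ^ N * e = Polynomial.aeval x a + Polynomial.aeval x b * y

lemma NF_zero : NF (K := K) x y 0 := ⟨0, 0, 0, by simp only [map_zero, mul_zero, zero_mul, add_zero]⟩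

lemma NF_add {e e' : E} (he : NF (K := K) x y e) (he' : NF (K := K) x y e') :
    NF (K := K) x y (e + e') := by
  obtain ⟨N, a, b, h⟩ := he
  obtain ⟨M, c, d, h'⟩ := he'
  refine ⟨N + M, Polynomial.X ^ M * a + Polynomial.X ^ N * c, Polynomial.X ^ M * b + Polynomial.X ^ N * d, ?_⟩
  simp only [map_add, map_mul, map_pow, Polynomial.aeval_X]
  linear_combination x ^ M * h + x ^ N * h'

lemma NF_injective [CharZero K] {Ω : Type} [Field Ω] (hx : IsUnit x) (hNF : ∀ e : E, NF (K := K) x y e)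
    (Ψ : E →+* Ω) (F : K →+* Ω) (hF : Ψ.comp (algebraMap K E) = F) (t Y : Ω) (hxt : Ψ x = t)
    (hyY : Ψ y = Y) (hY : Y ^ 2 = t ^ 4 + 1) (htr : ∀ a : Polynomial K, a.eval₂ F t = 0 → a = 0) :
    Function.Injective Ψ := by
  rw [injective_iff_map_eq_zero]
  intro e he
  obtain ⟨N, a, b, h⟩ := hNF e
  have hΨp : ∀ a : Polynomial K, Ψ (Polynomial.aeval x a) = a.eval₂ F t := by
    intro a
    rw [Polynomial.aeval_def, Polynomial.hom_eval₂, hF, hxt]
  have h1 := congrArg Ψ h
  rw [map_mul, he, mul_zero, map_add, map_mul, hΨp, hΨp, hyY] at h1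
  have h2 : (a ^ 2 - b ^ 2 * (Polynomial.X ^ 4 + 1)).eval₂ F t = 0 := by
    simp only [Polynomial.eval₂_sub, Polynomial.eval₂_mul, Polynomial.eval₂_pow, Polynomial.eval₂_add,
      Polynomial.eval₂_one, Polynomial.eval₂_X]
    rw [← hY]
    linear_combination (b.eval₂ F t * Y - a.eval₂ F t) * h1
  have h3 := sub_eq_zero.1 (htr _ h2)
  have hb := poly_ne' a b h3
  subst hb
  rw [Polynomial.eval₂_zero, zero_mul, add_zero] at h1
  have ha := htr a h1.symm
  subst ha
  rw [map_zero, zero_mul, add_zero] at h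
  exact (hx.pow N).mul_right_eq_zero.1 h

end nf

section geo

variable {K : Type} [Field K] [Algebra ℚ K]

/-- normal form over `K` -/
lemma normal_formK (e : K ⊗[ℚ] RR) : NF (K := K) ((1 : K) ⊗ₜ[ℚ] gen 0) ((1 : K) ⊗ₜ[ℚ] gen 1) e := by
  induction e using TensorProduct.induction_on with
  | zero => exact NF_zero _ _
  | tmul c r =>
    obtain ⟨N, a, b, h⟩ := normal_form r
    refine ⟨N, Polynomial.C c * a.map (algebraMap ℚ K), Polynomial.C c * b.map (algebraMap ℚ K), ?_⟩
    have h1 : ∀ q : Polynomial ℚ, Polynomial.aeval ((1 : K) ⊗ₜ[ℚ] gen 0) (q.map (algebraMap ℚ K)) =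
        (1 : K) ⊗ₜ[ℚ] (Polynomial.aeval (gen 0) q) := by
      intro q
      rw [Polynomial.aeval_map_algebraMap]
      have h2 : (1 : K) ⊗ₜ[ℚ] (Polynomial.aeval (gen 0) q) =
          (Algebra.TensorProduct.includeRight : RR →ₐ[ℚ] K ⊗[ℚ] RR) (Polynomial.aeval (gen 0) q) := rfl
      rw [h2, ← Polynomial.aeval_algHom_apply]
      rfl
    rw [map_mul, map_mul, Polynomial.aeval_C, h1, h1, Algebra.TensorProduct.algebraMap_apply]
    simp only [Algebra.algebraMap_self, RingHom.id_apply, Algebra.TensorProduct.tmul_mul_tmul,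
      Algebra.TensorProduct.tmul_pow, one_pow, one_mul, mul_one]
    rw [← TensorProduct.tmul_add, ← h]
  | add e e' he he' => exact NF_add _ _ he he'

end geo

section embK

variable {L : Type} [Field L]

/-- the parameter -/
noncomputable def tL : Hah L := HahnSeries.single 1 1

lemma tL_pow (n : ℕ) : (tL : Hah L) ^ n = HahnSeries.single (n : ℚ) 1 := by
  unfold tL
  rw [HahnSeries.single_pow, one_pow, nsmul_eq_mul, mul_one]

lemma eval_tL_coeff {K : Type} [Field K] (f : K →+* L) (a : Polynomial K) (j : ℕ) :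
    (a.eval₂ ((HahnSeries.C : L →+* Hah L).comp f) tL).coeff (j : ℚ) = f (a.coeff j) := by
  rw [Polynomial.eval₂_eq_sum_range]
  have h1 : ∀ i, ((HahnSeries.C : L →+* Hah L).comp f) (a.coeff i) * tL ^ i =
      HahnSeries.single (i : ℚ) (f (a.coeff i)) := by
    intro i
    rw [tL_pow, RingHom.comp_apply, HahnSeries.C_apply, HahnSeries.single_mul_single, zero_add, mul_one]
  simp only [h1]
  rw [HahnSeries.coeff_sum, Finset.sum_eq_single j]
  · rw [HahnSeries.coeff_single_same]
  · intro i _ hij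
    rw [HahnSeries.coeff_single_of_ne]
    exact_mod_cast hij.symm
  · intro h
    rw [Finset.mem_range, not_lt] at h
    rw [Polynomial.coeff_eq_zero_of_natDegree_lt (by omega), map_zero]
    simp

lemma eval_tL_injective {K : Type} [Field K] (f : K →+* L) (a : Polynomial K)
    (h : a.eval₂ ((HahnSeries.C : L →+* Hah L).comp f) tL = 0) : a = 0 := by
  ext j
  have h1 := eval_tL_coeff f a j
  rw [h, HahnSeries.coeff_zero, eq_comm, map_eq_zero] at h1
  rw [h1, Polynomial.coeff_zero]

end embK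

/-- The curve is geometrically integral. -/
theorem RR_geo (K : Type) [Field K] [Algebra ℚ K] : IsDomain (K ⊗[ℚ] RR) := by
  haveI : CharZero K := charZero_of_injective_algebraMap (algebraMap ℚ K).injective
  set L := AlgebraicClosure K
  haveI : CharZero L := charZero_of_injective_algebraMap (algebraMap K L).injective
  obtain ⟨y, hy⟩ := IsAlgClosed.exists_pow_nat_eq (tL ^ 4 + 1 : Hah L) (n := 2) (by norm_num)
  have htw : (tL : Hah L) * HahnSeries.single (-1) 1 = 1 := by
    unfold tL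
    rw [HahnSeries.single_mul_single]
    norm_num
  set j : RR →ₐ[ℚ] Hah L := liftR tL y (HahnSeries.single (-1) 1) hy htw with hj
  have hj0 : j (gen 0) = tL := liftR_gen _ _ _ _ _ 0
  have hj1 : j (gen 1) = y := liftR_gen _ _ _ _ _ 1
  set F : K →+* Hah L := (HahnSeries.C : L →+* Hah L).comp (algebraMap K L) with hF
  let Ψ : K ⊗[ℚ] RR →ₐ[ℚ] Hah L :=
    Algebra.TensorProduct.lift F.toRatAlgHom j (fun _ _ => Commute.all _ _)
  have hΨ : ∀ c r, Ψ (c ⊗ₜ[ℚ] r) = F c * j r := fun c r => Algebra.TensorProduct.lift_tmul _ _ _ _ _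
  have hunit : IsUnit ((1 : K) ⊗ₜ[ℚ] gen 0 : K ⊗[ℚ] RR) :=
    (ux.isUnit).map (Algebra.TensorProduct.includeRight : RR →ₐ[ℚ] K ⊗[ℚ] RR)
  have hinj : Function.Injective Ψ.toRingHom := by
    refine NF_injective (K := K) ((1 : K) ⊗ₜ[ℚ] gen 0) ((1 : K) ⊗ₜ[ℚ] gen 1) hunit normal_formK
      Ψ.toRingHom F ?_ tL y ?_ ?_ hy (fun a ha => eval_tL_injective (algebraMap K L) a ha)
    · refine RingHom.ext fun c => ?_
      have h5 : algebraMap K (K ⊗[ℚ] RR) c = c ⊗ₜ[ℚ] 1 := Algebra.TensorProduct.algebraMap_apply _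
      refine (congrArg Ψ h5).trans ?_
      rw [hΨ, map_one, mul_one]
    · change Ψ ((1 : K) ⊗ₜ[ℚ] gen 0) = tL
      rw [hΨ, map_one, one_mul, hj0]
    · change Ψ ((1 : K) ⊗ₜ[ℚ] gen 1) = y
      rw [hΨ, map_one, one_mul, hj1]
  exact hinj.isDomain Ψ.toRingHom

end Pool.Agent.TH952
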