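import Pool.Agent.TH281.DW.Stmts
import Pool.Agent.W805.ER.Mul

/-! Job 2103 (MP_4ccfbf_an, DW-5): from trigonometric polynomials to `H²`. -/

set_option autoImplicit false

open MeasureTheory Complex Filter Topology Set
open scoped ENNReal Real
open Pool.Agent.W805.ER (Mult Sol mulOp e2 fsq BM mulOp_ae norm_sq_eq_integral)
open Pool.Agent.TH281.DW

namespace Pool.Agent.TH952.J2103

noncomputable section

local instance msJ : MeasureSpace UnitAddCircle := ⟨AddCircle.haarAddCircle⟩
local instance pmJ : IsProbabilityMeasure (volume : Measure UnitAddCircle) :=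
  inferInstanceAs (IsProbabilityMeasure AddCircle.haarAddCircle)

lemma e2_ae (k : Z2) : (e2 k : Lp ℂ 2 (volume : Measure Torus)) =ᵐ[volume] E k := by
  have h : (e2 k) = UnitAddTorus.mFourierLp 2 k := by
    unfold e2
    rw [UnitAddTorus.coe_mFourierBasis]
  rw [h]
  exact UnitAddTorus.coeFn_mFourierLp 2 k

lemma sum_ae (F : Finset Z2) (c : Z2 → ℂ) :
    ((∑ k ∈ F, c k • e2 k : Lp ℂ 2 (volume : Measure Torus))) =ᵐ[volume] tr F c := by
  classical
  induction F using Finset.induction_on with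
  | empty =>
    simp only [Finset.sum_empty]
    filter_upwards [Lp.coeFn_zero ℂ 2 (volume : Measure Torus)] with x hx
    rw [hx]; simp [tr]
  | insert a s ha ih =>
    rw [Finset.sum_insert ha]
    filter_upwards [Lp.coeFn_add (c a • e2 a) (∑ k ∈ s, c k • e2 k), Lp.coeFn_smul (c a) (e2 a),
      e2_ae a, ih] with x h1 h2 h3 h4
    rw [h1, Pi.add_apply, h2, Pi.smul_apply, h3, h4]
    simp [tr, Finset.sum_insert ha]

theorem main : Pool.Agent.TH281.DW.TaskDense := by
  intro b M hb hb0 hbM τ κ hineq u g hug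
  have hBM : BM b M := ⟨hb, fun x => by rw [abs_of_nonneg (hb0 x)]; exact hbM x⟩
  set c : Z2 → ℂ := fun k => e2.repr u k with hc
  set uF : Finset Z2 → Lp ℂ 2 (volume : Measure Torus) := fun F => ∑ k ∈ F, c k • e2 k with huF
  set gF : Finset Z2 → Lp ℂ 2 (volume : Measure Torus) :=
    fun F => ∑ k ∈ F, (((fq k : ℝ) : ℂ) * c k) • e2 k with hgF
  have hu : Tendsto uF atTop (𝓝 u) := e2.hasSum_repr u
  have hg : Tendsto gF atTop (𝓝 g) := by
    have h1 : Tendsto (fun F : Finset Z2 => ∑ k ∈ F, e2.repr g k • e2 k) atTop (𝓝 g) :=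
      e2.hasSum_repr g
    have h2 : gF = fun F : Finset Z2 => ∑ k ∈ F, e2.repr g k • e2 k := by
      funext F
      refine Finset.sum_congr rfl fun k _ => ?_
      rw [hug k]
      congr 2
      unfold fsq fq
      push_cast
      rfl
    rw [h2]; exact h1
  have hkey : ∀ F : Finset Z2, κ * ‖uF F‖ ^ 2 ≤
      ‖gF F - ((τ ^ 2 : ℝ) : ℂ) • uF F +
        ((τ : ℂ) * I) • mulOp (volume : Measure Torus) b (uF F)‖ ^ 2 := by
    intro F
    have h1 : ‖uF F‖ ^ 2 = ∑ k ∈ F, ‖c k‖ ^ 2 := by
      rw [norm_sq_eq_integral, ← integral_norm_sq_tr F c]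
      refine integral_congr_ae ?_
      filter_upwards [sum_ae F c] with x hx
      rw [huF]; simp only; rw [hx]
    have h2 : ‖gF F - ((τ ^ 2 : ℝ) : ℂ) • uF F +
        ((τ : ℂ) * I) • mulOp (volume : Measure Torus) b (uF F)‖ ^ 2 = St b τ F c := by
      rw [norm_sq_eq_integral]
      unfold St
      refine integral_congr_ae ?_
      filter_upwards [sum_ae F c, sum_ae F (fun k => ((fq k : ℝ) : ℂ) * c k),
        mulOp_ae hBM (uF F),
        Lp.coeFn_add (gF F - ((τ ^ 2 : ℝ) : ℂ) • uF F)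
          (((τ : ℂ) * I) • mulOp (volume : Measure Torus) b (uF F)),
        Lp.coeFn_sub (gF F) (((τ ^ 2 : ℝ) : ℂ) • uF F),
        Lp.coeFn_smul ((τ ^ 2 : ℝ) : ℂ) (uF F),
        Lp.coeFn_smul ((τ : ℂ) * I) (mulOp (volume : Measure Torus) b (uF F))]
        with x h1 h2 h3 h4 h5 h6 h7
      have e1 : (uF F : Torus → ℂ) x = tr F c x := h1
      have e2' : (gF F : Torus → ℂ) x = tr F (fun k => ((fq k : ℝ) : ℂ) * c k) x := h2
      rw [h4, Pi.add_apply, h5, Pi.sub_apply, h6, h7, Pi.smul_apply, Pi.smul_apply, h3, e1, e2']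
      congr 2
      simp only [smul_eq_mul]
      unfold tr
      simp only [Finset.mul_sum]
      rw [← Finset.sum_sub_distrib, ← Finset.sum_add_distrib, ← Finset.sum_add_distrib]
      refine Finset.sum_congr rfl fun k _ => ?_
      push_cast
      ring
    rw [h1, h2]
    exact hineq F c
  have hD : Tendsto (fun F => mulOp (volume : Measure Torus) b (uF F)) atTop
      (𝓝 (mulOp (volume : Measure Torus) b u)) :=
    ((mulOp (volume : Measure Torus) b).continuous.tendsto u).comp hu
  refine le_of_tendsto_of_tendsto' ((hu.norm.pow 2).const_mul κ)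
    ((((hg.sub (hu.const_smul ((τ ^ 2 : ℝ) : ℂ))).add (hD.const_smul ((τ : ℂ) * I))).norm).pow 2)
    hkey

end

end Pool.Agent.TH952.J2103
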