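import Pool.Agent.TH196.Cara.Defs

set_option autoImplicit false
open Complex
open scoped ContDiff

namespace Pool.Agent.TH952.CJ3225

open Pool.Agent.TH196.Cara
open Pool.Agent.TH196.Loew (QQ)

theorem Mf_eq (N : ℝ) : Mf N = fun v => expNegInvGlue v * Real.exp (-(N * v / 5)) := by
  funext v
  unfold Mf expNegInvGlue
  by_cases h : v ≤ 0
  · rw [if_pos h, if_pos h, zero_mul]
  · rw [if_neg h, if_neg h, ← Real.exp_add]
    congr 1
    rw [one_div]
    ring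

theorem Mf_contDiff (N : ℝ) : ContDiff ℝ ∞ (Mf N) := by
  rw [Mf_eq]
  refine expNegInvGlue.contDiff.mul (Real.contDiff_exp.comp ?_)
  fun_prop

theorem int_hasDerivAt (f : ℝ → ℝ) (hf : Continuous f) (a v : ℝ) :
    HasDerivAt (fun x => ∫ s in a..x, f s) (f v) v :=
  intervalIntegral.integral_hasDerivAt_right (hf.intervalIntegrable _ _)
    hf.stronglyMeasurable.stronglyMeasurableAtFilter hf.continuousAt

theorem int_contDiff (f : ℝ → ℝ) (hf : ContDiff ℝ ∞ f) (a : ℝ) :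
    ContDiff ℝ ∞ (fun x => ∫ s in a..x, f s) := by
  rw [contDiff_infty_iff_deriv]
  refine ⟨fun v => (int_hasDerivAt f hf.continuous a v).differentiableAt, ?_⟩
  have : deriv (fun x => ∫ s in a..x, f s) = f := by
    funext v
    exact (int_hasDerivAt f hf.continuous a v).deriv
  rw [this]
  exact hf

theorem A1_hasDerivAt (N v : ℝ) : HasDerivAt (A1 N) (Mf N v) v :=
  int_hasDerivAt (Mf N) (Mf_contDiff N).continuous 0 v

theorem A1_contDiff (N : ℝ) : ContDiff ℝ ∞ (A1 N) := int_contDiff (Mf N) (Mf_contDiff N) 0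

theorem Af_hasDerivAt (N v : ℝ) : HasDerivAt (Af N) (A1 N v) v :=
  int_hasDerivAt (A1 N) (A1_contDiff N).continuous 0 v

theorem Af_contDiff (N : ℝ) : ContDiff ℝ ∞ (Af N) := int_contDiff (A1 N) (A1_contDiff N) 0

theorem Mf_nonneg (N v : ℝ) : 0 ≤ Mf N v := by
  unfold Mf
  split_ifs
  · exact le_rfl
  · exact (Real.exp_pos _).le

theorem Mf_le (N : ℝ) (hN : 0 < N) (s v : ℝ) (h0 : 0 < v) (hs : s ≤ v) :
    Mf N s ≤ Real.exp (-(1 / v)) := by
  unfold Mf
  split_ifs with h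
  · exact (Real.exp_pos _).le
  · push Not at h
    apply Real.exp_le_exp.2
    have h1 : 1 / v ≤ 1 / s := one_div_le_one_div_of_le h hs
    have h2 : 0 ≤ N * s / 5 := by positivity
    linarith

theorem int_bounds (f : ℝ → ℝ) (hf : Continuous f) (v B : ℝ) (h0 : 0 < v) (h1 : v ≤ 1)
    (hp : ∀ s, 0 ≤ s → 0 ≤ f s) (hB : ∀ s, 0 ≤ s → s ≤ v → f s ≤ B) (hB0 : 0 ≤ B) :
    0 ≤ (∫ s in (0 : ℝ)..v, f s) ∧ (∫ s in (0 : ℝ)..v, f s) ≤ B := by
  refine ⟨intervalIntegral.integral_nonneg h0.le (fun s hs => hp s hs.1), ?_⟩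
  calc (∫ s in (0 : ℝ)..v, f s) ≤ ∫ s in (0 : ℝ)..v, B :=
        intervalIntegral.integral_mono_on h0.le (hf.intervalIntegrable _ _)
          (continuous_const.intervalIntegrable _ _) (fun s hs => hB s hs.1 hs.2)
    _ = v * B := by rw [intervalIntegral.integral_const]; simp
    _ ≤ 1 * B := mul_le_mul_of_nonneg_right h1 hB0
    _ = B := one_mul B

theorem A1_nonneg (N s : ℝ) (hs : 0 ≤ s) : 0 ≤ A1 N s :=
  intervalIntegral.integral_nonneg hs (fun u _ => Mf_nonneg N u)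

theorem A1_zero (N : ℝ) : A1 N 0 = 0 := by
  unfold A1
  exact intervalIntegral.integral_same

theorem A1_le (N : ℝ) (hN : 0 < N) (v : ℝ) (h0 : 0 < v) (h1 : v ≤ 1) :
    A1 N v ≤ Real.exp (-(1 / v)) :=
  (int_bounds (Mf N) (Mf_contDiff N).continuous v _ h0 h1 (fun s _ => Mf_nonneg N s)
    (fun s _ hs => Mf_le N hN s v h0 hs) (Real.exp_pos _).le).2

theorem A1_le' (N : ℝ) (hN : 0 < N) (s v : ℝ) (hs0 : 0 ≤ s) (h0 : 0 < v) (h1 : v ≤ 1)
    (hs : s ≤ v) : A1 N s ≤ Real.exp (-(1 / v)) := by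
  rcases hs0.eq_or_lt with h | h
  · rw [← h, A1_zero]
    exact (Real.exp_pos _).le
  · refine (A1_le N hN s h (hs.trans h1)).trans (Real.exp_le_exp.2 ?_)
    have := one_div_le_one_div_of_le h hs
    linarith

theorem Af_bounds (N : ℝ) (hN : 0 < N) (v : ℝ) (h0 : 0 < v) (h1 : v ≤ 1) :
    0 ≤ Af N v ∧ Af N v ≤ Real.exp (-(1 / v)) ∧ 0 ≤ A1 N v ∧ A1 N v ≤ Real.exp (-(1 / v)) ∧
      0 ≤ Mf N v ∧ Mf N v ≤ Real.exp (-(1 / v)) := by
  have h := int_bounds (A1 N) (A1_contDiff N).continuous v (Real.exp (-(1 / v))) h0 h1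
    (fun s hs => A1_nonneg N s hs) (fun s hs hsv => A1_le' N hN s v hs h0 h1 hsv)
    (Real.exp_pos _).le
  exact ⟨h.1, h.2, A1_nonneg N v h0.le, A1_le N hN v h0 h1, Mf_nonneg N v,
    Mf_le N hN v v h0 le_rfl⟩

/-- the second derivative at infinity -/
noncomputable def mm (N q : ℝ) : ℝ :=
  (5 / N) ^ 3 * ((Polynomial.X ^ 3 : Polynomial ℝ).eval (5 * q / N)⁻¹ * expNegInvGlue (5 * q / N)) *
    Real.exp (-q)

theorem mm_contDiff (N : ℝ) : ContDiff ℝ ∞ (mm N) := by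
  have h1 : ContDiff ℝ ∞ (fun x : ℝ =>
      (Polynomial.X ^ 3 : Polynomial ℝ).eval x⁻¹ * expNegInvGlue x) :=
    expNegInvGlue.contDiff_polynomial_eval_inv_mul _
  have h2 : ContDiff ℝ ∞ (fun q : ℝ => 5 * q / N) := by fun_prop
  have h3 := h1.comp h2
  have h4 : ContDiff ℝ ∞ (fun q : ℝ => Real.exp (-q)) := by fun_prop
  exact (contDiff_const.mul h3).mul h4

theorem mm_eq (N : ℝ) (hN : 0 < N) (q : ℝ) (hq : 0 < q) : mm N q = Mf N (1 / q) / q ^ 3 := by
  unfold mm Mf expNegInvGlue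
  have h1 : ¬ (5 * q / N ≤ 0) := by
    push Not
    positivity
  have h2 : ¬ (1 / q ≤ 0) := by
    push Not
    positivity
  rw [if_neg h1, if_neg h2, Polynomial.eval_pow, Polynomial.eval_X]
  have h3 : Real.exp (-(1 / (1 / q)) - N * (1 / q) / 5) =
      Real.exp (-(5 * q / N)⁻¹) * Real.exp (-q) := by
    rw [← Real.exp_add]
    congr 1
    field_simp
    ring
  rw [h3]
  field_simp

theorem const_of (D D' : ℝ → ℝ) (h : ∀ q, 0 < q → HasDerivAt D (D' q) q)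
    (h0 : ∀ q, 0 < q → D' q = 0) (h1 : D 1 = 0) : ∀ q, 0 < q → D q = 0 := by
  intro q hq
  have := IsOpen.is_const_of_deriv_eq_zero (𝕜 := ℝ) (f := D) isOpen_Ioi
    (convex_Ioi (0 : ℝ)).isPreconnected
    (fun x hx => (h x hx).differentiableAt.differentiableWithinAt)
    (fun x hx => by
      rw [(h x hx).deriv, h0 x hx]; rfl) (Set.mem_Ioi.2 hq) (Set.mem_Ioi.2 one_pos)
  rw [this, h1]

theorem Af_infinity (N : ℝ) (hN : 0 < N) :
    ∃ At : ℝ → ℝ, ContDiff ℝ ∞ At ∧ ∀ q : ℝ, 0 < q → At q = q * Af N (1 / q) := by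
  set m1 : ℝ → ℝ := fun q => ∫ s in (1 : ℝ)..q, mm N s with hm1
  set m2 : ℝ → ℝ := fun q => ∫ s in (1 : ℝ)..q, m1 s with hm2
  have c1 : ContDiff ℝ ∞ m1 := int_contDiff _ (mm_contDiff N) 1
  have c2 : ContDiff ℝ ∞ m2 := int_contDiff _ c1 1
  refine ⟨fun q => Af N 1 + (Af N 1 - A1 N 1) * (q - 1) + m2 q, ?_, ?_⟩
  · have : ContDiff ℝ ∞ (fun q : ℝ => Af N 1 + (Af N 1 - A1 N 1) * (q - 1)) := by fun_prop
    exact this.add c2
  have d1 : ∀ q, HasDerivAt m1 (mm N q) q := fun q => int_hasDerivAt _ (mm_contDiff N).continuous 1 q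
  have d2 : ∀ q, HasDerivAt m2 (m1 q) q := fun q => int_hasDerivAt _ c1.continuous 1 q
  have hinv : ∀ q : ℝ, 0 < q → HasDerivAt (fun q : ℝ => 1 / q) (-(1 / q ^ 2)) q := by
    intro q hq
    have := hasDerivAt_inv hq.ne'
    simpa [one_div] using this
  have e1 : ∀ q : ℝ, 0 < q → HasDerivAt (fun q => Af N (1 / q)) (A1 N (1 / q) * -(1 / q ^ 2)) q :=
    fun q hq => (Af_hasDerivAt N (1 / q)).comp q (hinv q hq)
  have e2 : ∀ q : ℝ, 0 < q → HasDerivAt (fun q => A1 N (1 / q)) (Mf N (1 / q) * -(1 / q ^ 2)) q :=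
    fun q hq => (A1_hasDerivAt N (1 / q)).comp q (hinv q hq)
  have g1 : ∀ q : ℝ, 0 < q → HasDerivAt (fun q => q * Af N (1 / q))
      (Af N (1 / q) - A1 N (1 / q) * (1 / q)) q := by
    intro q hq
    refine ((hasDerivAt_id q).mul (e1 q hq)).congr_deriv ?_
    simp only [id]
    field_simp
    ring
  have g2 : ∀ q : ℝ, 0 < q → HasDerivAt (fun q => Af N (1 / q) - A1 N (1 / q) * (1 / q))
      (mm N q) q := by
    intro q hq
    refine ((e1 q hq).sub ((e2 q hq).mul (hinv q hq))).congr_deriv ?_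
    rw [mm_eq N hN q hq]
    field_simp
    ring
  have k1 : ∀ q : ℝ, 0 < q →
      (Af N 1 - A1 N 1) + m1 q - (Af N (1 / q) - A1 N (1 / q) * (1 / q)) = 0 := by
    refine const_of (fun q => (Af N 1 - A1 N 1) + m1 q -
      (Af N (1 / q) - A1 N (1 / q) * (1 / q))) (fun q => mm N q - mm N q) ?_ ?_ ?_
    · intro q hq
      exact ((d1 q).const_add _).sub (g2 q hq)
    · intro q _
      exact sub_self _
    · simp [hm1]
  have k2 : ∀ q : ℝ, 0 < q →
      (Af N 1 + (Af N 1 - A1 N 1) * (q - 1) + m2 q) - q * Af N (1 / q) = 0 := by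
    refine const_of (fun q => (Af N 1 + (Af N 1 - A1 N 1) * (q - 1) + m2 q) - q * Af N (1 / q))
      (fun q => (Af N 1 - A1 N 1) + m1 q - (Af N (1 / q) - A1 N (1 / q) * (1 / q))) ?_ k1 ?_
    · intro q hq
      have l1 : HasDerivAt (fun q : ℝ => Af N 1 + (Af N 1 - A1 N 1) * (q - 1))
          (Af N 1 - A1 N 1) q := by
        have := (((hasDerivAt_id q).sub_const 1).const_mul (Af N 1 - A1 N 1)).const_add (Af N 1)
        simpa using this
      exact (l1.add (d2 q)).sub (g1 q hq)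
    · simp [hm2]
  intro q hq
  have := k2 q hq
  linarith

end Pool.Agent.TH952.CJ3225
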